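import Pool.Agent.Work.MP_2183d4_lc_66.Interface

/-! # MP_2183d4_lc: ADM -/

set_option autoImplicit false

namespace Pool.Agent.Work.MP_2183d4_lc_66

open Finset

theorem sum_biUnion_id_le {V : Type} [DecidableEq V] (F : Finset (Finset V)) (m : V → ℕ) :
    ∑ v ∈ F.biUnion id, m v ≤ ∑ Z ∈ F, ∑ v ∈ Z, m v := by
  classical
  induction F using Finset.induction_on with
  | empty => simp
  | insert A F hA ih =>
    rw [Finset.biUnion_insert, Finset.sum_insert hA]
    have h := Finset.sum_union_inter (s₁ := id A) (s₂ := F.biUnion id) (f := m)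
    simp only [id] at h ⊢
    omega

theorem stmt_ADM (hIMP : Stmt_IMP) (hPC : Stmt_PIECES) : Stmt_ADM := by
  classical
  intro k R0
  refine ⟨(k + 1) ^ (2 * (R0 + 1) + 1) * (R0 + 1) + 2, ?_⟩
  intro V E _ _ _ H m R hk hR hF hO hM
  obtain ⟨u, hu⟩ : ∃ u, 0 < m u := by
    by_contra hcon
    push Not at hcon
    have : ∑ v, m v = 0 := Finset.sum_eq_zero fun v _ => by have := hcon v; omega
    omega
  obtain ⟨F, hFc, hFm, hFP⟩ := hIMP V E H m k (R0 + 1) hk u
  set W : Finset V := F.biUnion id with hWdef
  have hW : ∑ v ∈ W, m v ≤ (k + 1) ^ (2 * (R0 + 1) + 1) * (R0 + 1) := by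
    calc ∑ v ∈ W, m v ≤ ∑ Z ∈ F, ∑ v ∈ Z, m v := sum_biUnion_id_le F m
      _ ≤ ∑ Z ∈ F, (R0 + 1) := Finset.sum_le_sum fun Z hZ => hFm Z hZ
      _ = F.card * (R0 + 1) := by rw [Finset.sum_const, smul_eq_mul]
      _ ≤ _ := Nat.mul_le_mul_right _ hFc
  obtain ⟨v, hvW, hv, hvu⟩ : ∃ v, v ∉ W ∧ 0 < m v ∧ (v = u → 2 ≤ m u) := by
    by_contra hcon
    push Not at hcon
    have h1 : ∑ v, m v = ∑ v ∈ W, m v + ∑ v ∈ Wᶜ, m v := (Finset.sum_add_sum_compl W m).symm
    have h2 : ∑ v ∈ Wᶜ, m v ≤ ∑ v ∈ Wᶜ, (if v = u then 1 else 0) := by
      apply Finset.sum_le_sum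
      intro w hw
      by_cases hw0 : 0 < m w
      · obtain ⟨h3, h4⟩ := hcon w (by simpa using hw) hw0
        subst h3
        simp
        omega
      · omega
    have h3 : ∑ v ∈ Wᶜ, (if v = u then 1 else 0) ≤ 1 := by
      rw [← Finset.card_filter, Finset.card_le_one]
      intro a ha b hb
      simp only [mem_filter] at ha hb
      rw [ha.2, hb.2]
    omega
  refine ⟨u, v, fun w => m w - (if w = u then 1 else 0) - (if w = v then 1 else 0), ?_, ?_⟩
  · intro w
    by_cases h1 : w = u <;> by_cases h2 : w = v
    · have := hvu (h2 ▸ h1)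
      subst h1
      simp [h2] at *
      omega
    · subst h1
      simp [h2]
      omega
    · subst h2
      simp [h1]
      omega
    · simp [h1, h2]
  · intro X
    have hsum : ∑ w ∈ X, m w = ∑ w ∈ X, (m w - (if w = u then 1 else 0) - (if w = v then 1 else 0))
        + (if u ∈ X then 1 else 0) + (if v ∈ X then 1 else 0) := by
      have e1 : ∀ w ∈ X, m w = (m w - (if w = u then 1 else 0) - (if w = v then 1 else 0))
          + (if w = u then 1 else 0) + (if w = v then 1 else 0) := by
        intro w _
        by_cases h1 : w = u <;> by_cases h2 : w = v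
        · have := hvu (h2 ▸ h1)
          subst h1
          simp [h2] at *
          omega
        · subst h1
          simp [h2]
          omega
        · subst h2
          simp [h1]
          omega
        · simp [h1, h2]
      rw [Finset.sum_congr rfl e1, Finset.sum_add_distrib, Finset.sum_add_distrib]
      simp [Finset.sum_ite_eq']
    have hFX := hF X
    by_cases huX : u ∈ X
    · by_cases hvX : v ∈ X
      · simp only [huX, hvX, if_true] at hsum ⊢
        simp only [not_true_eq_false, if_false, iff_self, add_zero]
        by_contra hcon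
        have hc : cut H X + ∑ w ∈ X, m w ≤ R0 + 1 := by
          have := hR.le X
          omega
        obtain ⟨P, hP1, hP2, hP3, hP4, hP5, hP6, hP7, hP8⟩ := hPC V E H X
        obtain ⟨A, hA, huA⟩ := hP2 u huX
        obtain ⟨B, hB, hvB⟩ := hP2 v hvX
        have hle : ∀ A ∈ P, cut H A + ∑ w ∈ A, m w ≤ R0 + 1 := by
          intro A hA
          have h1 : cut H A ≤ cut H X := by
            rw [hP5]
            exact Finset.single_le_sum (f := fun A => cut H A) (fun _ _ => Nat.zero_le _) hA
          have h2 : ∑ w ∈ A, m w ≤ ∑ w ∈ X, m w := Finset.sum_le_sum_of_subset (hP1 A hA).2.1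
          omega
        by_cases hAB : A = B
        · subst hAB
          obtain ⟨Z, hZ, hAZ⟩ := hFP A huA (hP1 A hA).2.2 (hle A hA)
          exact hvW (Finset.mem_biUnion.2 ⟨Z, hZ, hAZ hvB⟩)
        · have hdis := hP3 A hA B hB hAB
          have hne : u ≠ v := by
            rintro rfl
            exact Finset.disjoint_left.1 hdis huA hvB
          have key := hP8 m R R0 hR hF (by
            intro D hD hD0
            have h1 : 1 ≤ cut H D := by
              obtain ⟨w, hw, hw0⟩ : ∃ w ∈ D, 0 < m w := by
                by_contra hcon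
                push Not at hcon
                have : ∑ v ∈ D, m v = 0 :=
                  Finset.sum_eq_zero fun v hv => by have := hcon v hv; omega
                omega
              apply hO D ⟨w, hw, hw0⟩
              by_cases hDA : D = A
              · subst hDA
                exact ⟨v, fun h => Finset.disjoint_left.1 hdis h hvB, hv⟩
              · exact ⟨u, fun h => Finset.disjoint_left.1 (hP3 D hD A hA hDA) h huA, hu⟩
            omega)
          have h2 : 2 ≤ (P.filter fun A => 0 < ∑ v ∈ A, m v).card := by
            have : ({A, B} : Finset (Finset V)) ⊆ P.filter fun A => 0 < ∑ v ∈ A, m v := by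
              intro D hD
              simp only [mem_insert, mem_singleton] at hD
              rcases hD with rfl | rfl
              · exact mem_filter.2 ⟨hA, lt_of_lt_of_le hu
                  (Finset.single_le_sum (f := m) (fun _ _ => Nat.zero_le _) huA)⟩
              · exact mem_filter.2 ⟨hB, lt_of_lt_of_le hv
                  (Finset.single_le_sum (f := m) (fun _ _ => Nat.zero_le _) hvB)⟩
            have h3 := Finset.card_le_card this
            rwa [Finset.card_pair hAB] at h3
          omega
      · simp only [huX, hvX, if_true, if_false] at hsum ⊢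
        simp
        omega
    · by_cases hvX : v ∈ X
      · simp only [huX, hvX, if_true, if_false] at hsum ⊢
        simp
        omega
      · simp only [huX, hvX, if_false] at hsum ⊢
        simp
        omega

end Pool.Agent.Work.MP_2183d4_lc_66
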