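import Pool.Agent.Work.MP_2183d4_lc_66.Interface

/-! # MP_2183d4_lc: CONV -/

set_option autoImplicit false

namespace Pool.Agent.Work.MP_2183d4_lc_66

open Finset

theorem stmt_CONV : Stmt_CONV := by
  classical
  intro V _ _ M x σ hσ hne
  set S : Finset (Fin M) := univ.filter fun i => i < σ i with hS
  have hSc : univ.filter (fun i => ¬ i < σ i) = S.image σ := by
    ext i
    simp only [mem_filter, mem_univ, true_and, mem_image, hS]
    constructor
    · intro h
      exact ⟨σ i, by rw [hσ]; exact lt_of_le_of_ne (not_lt.1 h) (hne i), hσ i⟩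
    · rintro ⟨j, hj, rfl⟩
      rw [hσ]
      exact not_lt.2 hj.le
  have hinj : Function.Injective σ := fun a b h => by rw [← hσ a, ← hσ b, h]
  have h2n : 2 * S.card = M := by
    have h1 := Finset.card_filter_add_card_filter_not (s := (univ : Finset (Fin M)))
      (fun i => i < σ i)
    rw [hSc, Finset.card_image_of_injective _ hinj, Finset.card_univ, Fintype.card_fin, ← hS] at h1
    omega
  let e : Fin S.card ≃ S := S.equivFin.symm
  refine ⟨S.card, fun j => (x ((e j).1 : ℕ), x ((σ (e j).1 : Fin M) : ℕ)), h2n, ?_⟩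
  intro Y
  unfold gcut
  have h1 : (univ.filter fun j : Fin S.card =>
      ¬((x ((e j).1 : ℕ)) ∈ Y ↔ (x ((σ (e j).1 : Fin M) : ℕ)) ∈ Y)).card
      = (S.filter fun i : Fin M => ¬(x (i : ℕ) ∈ Y ↔ x (σ i : ℕ) ∈ Y)).card := by
    apply Finset.card_bij (fun j _ => (e j).1)
    · intro j hj
      simp only [mem_filter, mem_univ, true_and] at hj ⊢
      exact ⟨(e j).2, hj⟩
    · intro a _ b _ hab
      exact e.injective (Subtype.ext hab)
    · intro i hi
      simp only [mem_filter] at hi
      refine ⟨e.symm ⟨i, hi.1⟩, ?_, by simp⟩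
      simp only [mem_filter, mem_univ, true_and, Equiv.apply_symm_apply]
      exact hi.2
  rw [h1]
  have h2 : (S.filter fun i : Fin M => ¬(x (i : ℕ) ∈ Y ↔ x (σ i : ℕ) ∈ Y)).card
      = (S.filter fun i : Fin M => x (i : ℕ) ∈ Y ∧ x (σ i : ℕ) ∉ Y).card
        + (S.filter fun i : Fin M => x (σ i : ℕ) ∈ Y ∧ x (i : ℕ) ∉ Y).card := by
    rw [← Finset.card_union_of_disjoint]
    · congr 1
      ext i
      simp only [mem_filter, mem_union]
      tauto
    · rw [Finset.disjoint_left]
      intro i hi hi'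
      simp only [mem_filter] at hi hi'
      exact hi.2.2 hi'.2.1
  have h3 : (S.filter fun i : Fin M => x (σ i : ℕ) ∈ Y ∧ x (i : ℕ) ∉ Y).card
      = ((S.image σ).filter fun i : Fin M => x (i : ℕ) ∈ Y ∧ x (σ i : ℕ) ∉ Y).card := by
    rw [Finset.filter_image, Finset.card_image_of_injective _ hinj]
    congr 1
    ext i
    simp only [mem_filter, hσ]
  rw [h2, h3, ← hSc, ← Finset.card_union_of_disjoint]
  · congr 1
    ext i
    simp only [mem_filter, mem_union, mem_univ, true_and, hS]
    tauto
  · rw [Finset.disjoint_left]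
    intro i hi hi'
    simp only [mem_filter, mem_univ, true_and, hS] at hi hi'
    exact hi'.1 hi.1

end Pool.Agent.Work.MP_2183d4_lc_66
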