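import Pool.Agent.Work.MP_2183d4_lc_66.Interface

/-! # MP_2183d4_lc: CORE -/

set_option autoImplicit false

namespace Pool.Agent.Work.MP_2183d4_lc_66

open Finset

/-- Adding a graph to a hypergraph. -/
def addG {V E : Type} [DecidableEq V] (H : E → Finset V) {n : ℕ} (g : Fin n → V × V) :
    E ⊕ Fin n → Finset V := Sum.elim H fun i => {(g i).1, (g i).2}

section
variable {V E : Type} [Fintype V] [DecidableEq V] [Fintype E]

theorem cut_addG (H : E → Finset V) {n : ℕ} (g : Fin n → V × V) (X : Finset V) :
    cut (addG H g) X = cut H X + gcut g X := by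
  classical
  unfold cut gcut
  rw [Finset.card_filter, Finset.card_filter, Finset.card_filter, Fintype.sum_sum_type]
  congr 1
  apply Finset.sum_congr rfl
  intro i _
  simp only [addG, Sum.elim_inr, mem_insert, mem_singleton, exists_eq_or_imp, exists_eq_left]
  by_cases h1 : (g i).1 ∈ X <;> by_cases h2 : (g i).2 ∈ X <;> simp [h1, h2]

theorem card_addG (H : E → Finset V) {n : ℕ} (g : Fin n → V × V) {k : ℕ} (hk2 : 2 ≤ k)
    (hk : ∀ e, (H e).card ≤ k) : ∀ e, (addG H g e).card ≤ k := by
  rintro (e | i)
  · exact hk e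
  · exact le_trans (Finset.card_le_two) hk2

theorem gcut_append {a b : ℕ} (g : Fin a → V × V) (h : Fin b → V × V) (X : Finset V) :
    gcut (Fin.append g h) X = gcut g X + gcut h X := by
  unfold gcut
  rw [Finset.card_filter, Finset.card_filter, Finset.card_filter, Fin.sum_univ_add]
  simp [Fin.append_left, Fin.append_right]

end

theorem stmt_CORE (hMULT : Stmt_MULT) (hADM : Stmt_ADM) : Stmt_CORE := by
  classical
  intro k R0 hk2
  obtain ⟨B, Z0, hB, hZ⟩ := hMULT k R0
  obtain ⟨M1, hM1⟩ := hADM k R0
  refine ⟨2 * (B * B) * (M1 + Z0), ?_⟩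
  intro V E _ _ _ H m R hk hR hF hO hev hM
  have hP : 0 < B * B := Nat.mul_pos hB hB
  have key : ∀ t : ℕ, ∀ (E : Type) [Fintype E] (H : E → Finset V) (m : V → ℕ),
      (∀ e, (H e).card ≤ k) → Feas H m R → OneComp H m → Even (∑ v, m v) →
      2 * (B * B) * (M1 + Z0) ≤ ∑ v, m v → ∑ v, m v = t →
      ∃ (n : ℕ) (g : Fin n → V × V), 2 * n = ∑ v, m v ∧
        ∀ X : Finset V, R X ≤ cut H X + gcut g X := by
    intro t
    induction t using Nat.strong_induction_on with
    | _ t ih =>
      intro E _ H m hk hF hO hev hM ht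
      by_cases hdiv : 2 * (B * B) ∣ ∑ v, m v
      · obtain ⟨q, hq⟩ := hdiv
        have hq1 : M1 + Z0 ≤ q := by
          rw [hq] at hM
          exact Nat.le_of_mul_le_mul_left hM (by omega)
        exact hZ (2 * q) (by omega) ⟨q, by omega⟩ V E H m R hk hR hF hO (by rw [hq]; ring)
      · have h1 : M1 ≤ ∑ v, m v := by
          refine le_trans ?_ hM
          calc M1 ≤ M1 + Z0 := Nat.le_add_right _ _
            _ ≤ 2 * (B * B) * (M1 + Z0) := Nat.le_mul_of_pos_left _ (by omega)
        obtain ⟨u, v, m', hm', hfeas⟩ := hM1 V E H m R hk hR hF hO h1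
        have hsum : ∑ w, m w = ∑ w, m' w + 2 := by
          rw [Finset.sum_congr rfl (fun w _ => hm' w), Finset.sum_add_distrib,
            Finset.sum_add_distrib]
          simp
        have hle : 2 * (B * B) * (M1 + Z0) ≤ ∑ w, m' w := by
          obtain ⟨s, hs⟩ := hev
          have hne : ∑ w, m w ≠ 2 * (B * B) * (M1 + Z0) := fun h => hdiv ⟨_, h⟩
          have he : 2 * (B * B) * (M1 + Z0) = 2 * ((B * B) * (M1 + Z0)) := by ring
          omega
        set g0 : Fin 1 → V × V := fun _ => (u, v) with hg0
        have hcut0 : ∀ X : Finset V, gcut g0 X = if ¬(u ∈ X ↔ v ∈ X) then 1 else 0 := by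
          intro X
          unfold gcut
          rw [Finset.card_filter]
          simp [hg0]
        obtain ⟨n, g, hn, hg⟩ := ih (∑ w, m' w) (by omega) (E ⊕ Fin 1) (addG H g0) m'
          (card_addG H g0 hk2 hk)
          (by
            intro X
            rw [cut_addG, hcut0]
            exact hfeas X)
          (by
            rintro X ⟨a, ha, ha0⟩ ⟨b, hb, hb0⟩
            rw [cut_addG]
            refine le_trans (hO X ⟨a, ha, ?_⟩ ⟨b, hb, ?_⟩) (Nat.le_add_right _ _)
            · rw [hm' a]; omega
            · rw [hm' b]; omega)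
          (by
            obtain ⟨s, hs⟩ := hev
            exact ⟨s - 1, by omega⟩)
          hle rfl
        refine ⟨n + 1, Fin.append g g0, by omega, ?_⟩
        intro X
        have := hg X
        rw [cut_addG] at this
        rw [gcut_append]
        omega
  exact key _ E H m hk hF hO hev hM rfl

end Pool.Agent.Work.MP_2183d4_lc_66
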