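import Pool.Agent.Work.MP_2183d4_lc_66.Interface

/-!
# MP_2183d4_lc: block DEG (helper31). Skew supermodular uncrossing.
-/

set_option autoImplicit false

namespace Pool.Agent.Work.MP_2183d4_lc_66

open Finset

namespace DEG

section
variable {V E : Type} [Fintype V] [DecidableEq V] [Fintype E]

open Classical in
/-- indicator of crossing -/
noncomputable def ind (h : Finset V) (X : Finset V) : ℕ :=
  if (∃ v ∈ h, v ∈ X) ∧ ∃ v ∈ h, v ∉ X then 1 else 0

lemma cut_eq (H : E → Finset V) (X : Finset V) : cut H X = ∑ e, ind (H e) X := by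
  classical
  unfold cut ind
  rw [Finset.card_filter]

lemma ind_eq (h : Finset V) (Z : Finset V) (p q : Prop) [Decidable p] [Decidable q]
    (hp : (∃ v ∈ h, v ∈ Z) ↔ p) (hq : (∃ v ∈ h, v ∉ Z) ↔ q) :
    ind h Z = if p ∧ q then 1 else 0 := by
  classical
  unfold ind
  simp only [hp, hq]

lemma ind_sub (h X Y : Finset V) :
    ind h (X ∩ Y) + ind h (X ∪ Y) ≤ ind h X + ind h Y ∧
    ind h (X \ Y) + ind h (Y \ X) ≤ ind h X + ind h Y := by
  classical
  have key : ∀ (a b c d : Prop), (a ↔ ∃ v ∈ h, v ∈ X ∧ v ∈ Y) → (b ↔ ∃ v ∈ h, v ∈ X ∧ v ∉ Y) →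
      (c ↔ ∃ v ∈ h, v ∉ X ∧ v ∈ Y) → (d ↔ ∃ v ∈ h, v ∉ X ∧ v ∉ Y) →
      ind h (X ∩ Y) + ind h (X ∪ Y) ≤ ind h X + ind h Y ∧
      ind h (X \ Y) + ind h (Y \ X) ≤ ind h X + ind h Y := by
    intro a b c d ha hb hc hd
    have e1 : ind h (X ∩ Y) = if a ∧ (b ∨ c ∨ d) then 1 else 0 := by
      apply ind_eq h
      · rw [ha]; simp
      · rw [hb, hc, hd]
        constructor
        · rintro ⟨v, hv, hv2⟩
          by_cases h1 : v ∈ X
          · left; exact ⟨v, hv, h1, fun h2 => hv2 (mem_inter.2 ⟨h1, h2⟩)⟩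
          · by_cases h2 : v ∈ Y
            · right; left; exact ⟨v, hv, h1, h2⟩
            · right; right; exact ⟨v, hv, h1, h2⟩
        · rintro (⟨v, hv, h1, h2⟩ | ⟨v, hv, h1, h2⟩ | ⟨v, hv, h1, h2⟩) <;>
            exact ⟨v, hv, by simp [h1, h2]⟩
    have e2 : ind h (X ∪ Y) = if (a ∨ b ∨ c) ∧ d then 1 else 0 := by
      apply ind_eq h
      · rw [ha, hb, hc]
        constructor
        · rintro ⟨v, hv, hv2⟩
          by_cases h1 : v ∈ X
          · by_cases h2 : v ∈ Y
            · left; exact ⟨v, hv, h1, h2⟩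
            · right; left; exact ⟨v, hv, h1, h2⟩
          · by_cases h2 : v ∈ Y
            · right; right; exact ⟨v, hv, h1, h2⟩
            · simp [h1, h2] at hv2
        · rintro (⟨v, hv, h1, h2⟩ | ⟨v, hv, h1, h2⟩ | ⟨v, hv, h1, h2⟩) <;>
            exact ⟨v, hv, by simp [h1, h2]⟩
      · rw [hd]; simp
    have e3 : ind h (X \ Y) = if b ∧ (a ∨ c ∨ d) then 1 else 0 := by
      apply ind_eq h
      · rw [hb]; simp
      · rw [ha, hc, hd]
        constructor
        · rintro ⟨v, hv, hv2⟩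
          by_cases h1 : v ∈ X
          · by_cases h2 : v ∈ Y
            · left; exact ⟨v, hv, h1, h2⟩
            · simp [h1, h2] at hv2
          · by_cases h2 : v ∈ Y
            · right; left; exact ⟨v, hv, h1, h2⟩
            · right; right; exact ⟨v, hv, h1, h2⟩
        · rintro (⟨v, hv, h1, h2⟩ | ⟨v, hv, h1, h2⟩ | ⟨v, hv, h1, h2⟩) <;>
            exact ⟨v, hv, by simp [h1, h2]⟩
    have e4 : ind h (Y \ X) = if c ∧ (a ∨ b ∨ d) then 1 else 0 := by
      apply ind_eq h
      · rw [hc]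
        constructor
        · rintro ⟨v, hv, hv2⟩
          rw [mem_sdiff] at hv2
          exact ⟨v, hv, hv2.2, hv2.1⟩
        · rintro ⟨v, hv, h1, h2⟩
          exact ⟨v, hv, mem_sdiff.2 ⟨h2, h1⟩⟩
      · rw [ha, hb, hd]
        constructor
        · rintro ⟨v, hv, hv2⟩
          by_cases h1 : v ∈ X
          · by_cases h2 : v ∈ Y
            · left; exact ⟨v, hv, h1, h2⟩
            · right; left; exact ⟨v, hv, h1, h2⟩
          · by_cases h2 : v ∈ Y
            · simp [h1, h2] at hv2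
            · right; right; exact ⟨v, hv, h1, h2⟩
        · rintro (⟨v, hv, h1, h2⟩ | ⟨v, hv, h1, h2⟩ | ⟨v, hv, h1, h2⟩) <;>
            exact ⟨v, hv, by simp [h1, h2]⟩
    have e5 : ind h X = if (a ∨ b) ∧ (c ∨ d) then 1 else 0 := by
      apply ind_eq h
      · rw [ha, hb]
        constructor
        · rintro ⟨v, hv, h1⟩
          by_cases h2 : v ∈ Y
          · left; exact ⟨v, hv, h1, h2⟩
          · right; exact ⟨v, hv, h1, h2⟩
        · rintro (⟨v, hv, h1, h2⟩ | ⟨v, hv, h1, h2⟩) <;> exact ⟨v, hv, h1⟩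
      · rw [hc, hd]
        constructor
        · rintro ⟨v, hv, h1⟩
          by_cases h2 : v ∈ Y
          · left; exact ⟨v, hv, h1, h2⟩
          · right; exact ⟨v, hv, h1, h2⟩
        · rintro (⟨v, hv, h1, h2⟩ | ⟨v, hv, h1, h2⟩) <;> exact ⟨v, hv, h1⟩
    have e6 : ind h Y = if (a ∨ c) ∧ (b ∨ d) then 1 else 0 := by
      apply ind_eq h
      · rw [ha, hc]
        constructor
        · rintro ⟨v, hv, h1⟩
          by_cases h2 : v ∈ X
          · left; exact ⟨v, hv, h2, h1⟩
          · right; exact ⟨v, hv, h2, h1⟩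
        · rintro (⟨v, hv, h1, h2⟩ | ⟨v, hv, h1, h2⟩) <;> exact ⟨v, hv, h2⟩
      · rw [hb, hd]
        constructor
        · rintro ⟨v, hv, h1⟩
          by_cases h2 : v ∈ X
          · left; exact ⟨v, hv, h2, h1⟩
          · right; exact ⟨v, hv, h2, h1⟩
        · rintro (⟨v, hv, h1, h2⟩ | ⟨v, hv, h1, h2⟩) <;> exact ⟨v, hv, h2⟩
    rw [e1, e2, e3, e4, e5, e6]
    clear e1 e2 e3 e4 e5 e6 ha hb hc hd
    by_cases ha : a <;> by_cases hb : b <;> by_cases hc : c <;> by_cases hd : d <;>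
      simp [ha, hb, hc, hd]
  exact key _ _ _ _ Iff.rfl Iff.rfl Iff.rfl Iff.rfl

lemma cut_inter_union (H : E → Finset V) (X Y : Finset V) :
    cut H (X ∩ Y) + cut H (X ∪ Y) ≤ cut H X + cut H Y := by
  simp only [cut_eq, ← Finset.sum_add_distrib]
  exact Finset.sum_le_sum fun e _ => (ind_sub (H e) X Y).1

lemma cut_sdiff (H : E → Finset V) (X Y : Finset V) :
    cut H (X \ Y) + cut H (Y \ X) ≤ cut H X + cut H Y := by
  simp only [cut_eq, ← Finset.sum_add_distrib]
  exact Finset.sum_le_sum fun e _ => (ind_sub (H e) X Y).2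

lemma req_ge (r : V → V → ℕ) (X : Finset V) (x y : V) (hx : x ∈ X) (hy : y ∉ X) :
    r x y ≤ req r X := by
  unfold req
  exact Finset.le_sup (f := fun z : V × V => r z.1 z.2) (b := (x, y))
    (mem_product.2 ⟨hx, mem_compl.2 hy⟩)

lemma req_att (r : V → V → ℕ) (X : Finset V) (h : 0 < req r X) :
    ∃ x ∈ X, ∃ y, y ∉ X ∧ r x y = req r X := by
  unfold req at *
  have hne : (X ×ˢ Xᶜ).Nonempty := by
    rw [Finset.nonempty_iff_ne_empty]
    intro h0
    rw [h0] at h
    simp at h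
  obtain ⟨z, hz, hz2⟩ := Finset.exists_mem_eq_sup (X ×ˢ Xᶜ) hne (fun z : V × V => r z.1 z.2)
  rw [mem_product, mem_compl] at hz
  exact ⟨z.1, hz.1, z.2, hz.2, hz2.symm⟩

lemma skew_aux (r : V → V → ℕ) (hr : ∀ x y, r x y = r y x) (X Y : Finset V)
    (hXY : req r Y ≤ req r X) :
    req r X + req r Y ≤ req r (X ∩ Y) + req r (X ∪ Y) ∨
    req r X + req r Y ≤ req r (X \ Y) + req r (Y \ X) := by
  rcases Nat.eq_zero_or_pos (req r X) with h0 | hpos
  · left; omega
  obtain ⟨x, hx, y, hy, hxy⟩ := req_att r X hpos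
  have gI : ∀ a b, a ∈ X → a ∈ Y → (b ∉ X ∨ b ∉ Y) → r a b ≤ req r (X ∩ Y) := by
    intro a b h1 h2 h3
    apply req_ge
    · exact mem_inter.2 ⟨h1, h2⟩
    · rw [mem_inter]; tauto
  have gU : ∀ a b, (a ∈ X ∨ a ∈ Y) → b ∉ X → b ∉ Y → r a b ≤ req r (X ∪ Y) := by
    intro a b h1 h2 h3
    apply req_ge
    · exact mem_union.2 h1
    · rw [mem_union]; tauto
  have gD : ∀ a b, a ∈ X → a ∉ Y → (b ∉ X ∨ b ∈ Y) → r a b ≤ req r (X \ Y) := by
    intro a b h1 h2 h3
    apply req_ge
    · exact mem_sdiff.2 ⟨h1, h2⟩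
    · rw [mem_sdiff]; tauto
  have gD' : ∀ a b, a ∈ Y → a ∉ X → (b ∉ Y ∨ b ∈ X) → r a b ≤ req r (Y \ X) := by
    intro a b h1 h2 h3
    apply req_ge
    · exact mem_sdiff.2 ⟨h1, h2⟩
    · rw [mem_sdiff]; tauto
  rcases Nat.eq_zero_or_pos (req r Y) with h0 | hpos'
  · -- only need one term
    by_cases h1 : x ∈ Y
    · left
      have := gI x y hx h1 (Or.inl hy)
      omega
    · right
      by_cases h2 : y ∈ Y
      · have := gD x y hx h1 (Or.inl hy)
        omega
      · have := gD x y hx h1 (Or.inl hy)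
        omega
  obtain ⟨x', hx', y', hy', hxy'⟩ := req_att r Y hpos'
  have hs := hr x y
  have hs' := hr x' y'
  by_cases h1 : x ∈ Y
  · by_cases h2 : y ∈ Y
    · -- x ∈ I, y ∈ Y \ X
      by_cases h3 : y' ∈ X
      · right
        have e1 := gD y' x' h3 hy' (Or.inr hx')
        have e2 := gD' y x h2 hy (Or.inr hx)
        omega
      · left
        have e1 := gI x y hx h1 (Or.inl hy)
        have e2 := gU x' y' (Or.inr hx') h3 hy'
        omega
    · -- x ∈ I, y outside
      left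
      have e1 := gI x y hx h1 (Or.inl hy)
      have e2 := gU x y (Or.inl hx) hy h2
      omega
  · by_cases h2 : y ∈ Y
    · -- x ∈ X \ Y, y ∈ Y \ X
      right
      have e1 := gD x y hx h1 (Or.inl hy)
      have e2 := gD' y x h2 hy (Or.inr hx)
      omega
    · -- x ∈ X \ Y, y outside
      by_cases h3 : x' ∈ X
      · left
        have e1 := gU x y (Or.inl hx) hy h2
        have e2 := gI x' y' h3 hx' (Or.inr hy')
        omega
      · right
        have e1 := gD x y hx h1 (Or.inl hy)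
        have e2 := gD' x' y' hx' h3 (Or.inl hy')
        omega

lemma skew (r : V → V → ℕ) (hr : ∀ x y, r x y = r y x) (X Y : Finset V) :
    req r X + req r Y ≤ req r (X ∩ Y) + req r (X ∪ Y) ∨
    req r X + req r Y ≤ req r (X \ Y) + req r (Y \ X) := by
  rcases le_total (req r Y) (req r X) with h | h
  · exact skew_aux r hr X Y h
  · rcases skew_aux r hr Y X h with h1 | h1
    · left; rw [inter_comm, union_comm]; omega
    · right; omega

/-- tight sets -/
def Tight (H : E → Finset V) (m : V → ℕ) (r : V → V → ℕ) (X : Finset V) : Prop :=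
  cut H X + ∑ w ∈ X, m w = req r X

lemma uncross (H : E → Finset V) (m : V → ℕ) (r : V → V → ℕ) (hr : ∀ x y, r x y = r y x)
    (hF : Feas H m (req r)) (X Y : Finset V) (hX : Tight H m r X) (hY : Tight H m r Y) :
    Tight H m r (X ∪ Y) ∨
    (Tight H m r (X \ Y) ∧ Tight H m r (Y \ X) ∧ ∑ w ∈ X ∩ Y, m w = 0) := by
  have mI : ∑ w ∈ X ∩ Y, m w + ∑ w ∈ X ∪ Y, m w = ∑ w ∈ X, m w + ∑ w ∈ Y, m w := by
    have := Finset.sum_union_inter (s₁ := X) (s₂ := Y) (f := m)
    omega
  have mX : ∑ w ∈ X ∩ Y, m w + ∑ w ∈ X \ Y, m w = ∑ w ∈ X, m w :=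
    Finset.sum_inter_add_sum_sdiff X Y m
  have mY : ∑ w ∈ Y ∩ X, m w + ∑ w ∈ Y \ X, m w = ∑ w ∈ Y, m w :=
    Finset.sum_inter_add_sum_sdiff Y X m
  rw [inter_comm Y X] at mY
  have c1 := cut_inter_union H X Y
  have c2 := cut_sdiff H X Y
  unfold Tight at *
  have f1 := hF (X ∩ Y)
  have f2 := hF (X ∪ Y)
  have f3 := hF (X \ Y)
  have f4 := hF (Y \ X)
  rcases skew r hr X Y with h | h
  · left; omega
  · right; omega

/-- a family of tight sets covering the support -/
def Cov (H : E → Finset V) (m : V → ℕ) (r : V → V → ℕ) (F : Finset (Finset V)) : Prop :=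
  (∀ X ∈ F, Tight H m r X) ∧ ∀ v, 0 < m v → ∃ X ∈ F, v ∈ X

lemma exists_min_cov (H : E → Finset V) (m : V → ℕ) (r : V → V → ℕ)
    (F₀ : Finset (Finset V)) (h₀ : Cov H m r F₀) :
    ∃ F, Cov H m r F ∧ ∀ F', Cov H m r F' → ∑ X ∈ F, X.card ≤ ∑ X ∈ F', X.card := by
  classical
  let P : ℕ → Prop := fun n => ∃ F, Cov H m r F ∧ ∑ X ∈ F, X.card = n
  have hP : ∃ n, P n := ⟨_, F₀, h₀, rfl⟩
  obtain ⟨F, hF, hn⟩ := Nat.find_spec hP
  refine ⟨F, hF, fun F' hF' => ?_⟩
  rw [hn]
  exact Nat.find_min' hP ⟨F', hF', rfl⟩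

lemma min_disjoint (H : E → Finset V) (m : V → ℕ) (r : V → V → ℕ) (hr : ∀ x y, r x y = r y x)
    (hFeas : Feas H m (req r)) (F : Finset (Finset V)) (hF : Cov H m r F)
    (hmin : ∀ F', Cov H m r F' → ∑ X ∈ F, X.card ≤ ∑ X ∈ F', X.card) :
    ∀ A ∈ F, ∀ B ∈ F, A ≠ B → Disjoint A B := by
  classical
  intro X hX Y hY hne
  by_contra hnd
  have hI : 0 < (X ∩ Y).card := by
    rw [Finset.card_pos, Finset.nonempty_iff_ne_empty]
    intro h0
    exact hnd (Finset.disjoint_iff_inter_eq_empty.2 h0)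
  have hsum : ∑ Z ∈ F, Z.card = ∑ Z ∈ (F.erase X).erase Y, Z.card + X.card + Y.card := by
    have h1 := Finset.sum_erase_add F (fun Z : Finset V => Z.card) hX
    have h2 := Finset.sum_erase_add (F.erase X) (fun Z : Finset V => Z.card)
      (mem_erase.2 ⟨fun h => hne h.symm, hY⟩)
    omega
  have cU : (X ∪ Y).card + (X ∩ Y).card = X.card + Y.card := card_union_add_card_inter X Y
  have cX : (X \ Y).card + (X ∩ Y).card = X.card := card_sdiff_add_card_inter X Y
  have cY : (Y \ X).card + (Y ∩ X).card = Y.card := card_sdiff_add_card_inter Y X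
  rw [inter_comm Y X] at cY
  have hmem : ∀ Z ∈ F, Z ≠ X → Z ≠ Y → Z ∈ (F.erase X).erase Y := by
    intro Z hZ h1 h2
    exact mem_erase.2 ⟨h2, mem_erase.2 ⟨h1, hZ⟩⟩
  have hins : ∀ (G : Finset (Finset V)) (Z : Finset V),
      ∑ W ∈ insert Z G, W.card ≤ Z.card + ∑ W ∈ G, W.card := by
    intro G Z
    by_cases h : Z ∈ G
    · rw [insert_eq_of_mem h]; omega
    · rw [sum_insert h]
  rcases uncross H m r hr hFeas X Y (hF.1 X hX) (hF.1 Y hY) with h | ⟨h1, h2, h3⟩
  · have hc : Cov H m r (insert (X ∪ Y) ((F.erase X).erase Y)) := by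
      constructor
      · intro Z hZ
        rcases mem_insert.1 hZ with rfl | hZ
        · exact h
        · exact hF.1 Z (mem_of_mem_erase (mem_of_mem_erase hZ))
      · intro v hv
        obtain ⟨Z, hZ, hvZ⟩ := hF.2 v hv
        by_cases e1 : Z = X
        · exact ⟨X ∪ Y, mem_insert_self _ _, mem_union_left _ (e1 ▸ hvZ)⟩
        · by_cases e2 : Z = Y
          · exact ⟨X ∪ Y, mem_insert_self _ _, mem_union_right _ (e2 ▸ hvZ)⟩
          · exact ⟨Z, mem_insert_of_mem (hmem Z hZ e1 e2), hvZ⟩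
    have := hmin _ hc
    have h5 := hins ((F.erase X).erase Y) (X ∪ Y)
    omega
  · have hc : Cov H m r (insert (X \ Y) (insert (Y \ X) ((F.erase X).erase Y))) := by
      constructor
      · intro Z hZ
        rcases mem_insert.1 hZ with rfl | hZ
        · exact h1
        · rcases mem_insert.1 hZ with rfl | hZ
          · exact h2
          · exact hF.1 Z (mem_of_mem_erase (mem_of_mem_erase hZ))
      · intro v hv
        have hnot : ¬ (v ∈ X ∧ v ∈ Y) := by
          intro hh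
          have := (Finset.sum_eq_zero_iff.1 h3) v (mem_inter.2 hh)
          omega
        obtain ⟨Z, hZ, hvZ⟩ := hF.2 v hv
        by_cases e1 : Z = X
        · rw [e1] at hvZ
          refine ⟨X \ Y, mem_insert_self _ _, mem_sdiff.2 ⟨hvZ, fun h => hnot ⟨hvZ, h⟩⟩⟩
        · by_cases e2 : Z = Y
          · rw [e2] at hvZ
            refine ⟨Y \ X, mem_insert_of_mem (mem_insert_self _ _),
              mem_sdiff.2 ⟨hvZ, fun h => hnot ⟨h, hvZ⟩⟩⟩
          · exact ⟨Z, mem_insert_of_mem (mem_insert_of_mem (hmem Z hZ e1 e2)), hvZ⟩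
    have := hmin _ hc
    have h5 := hins (insert (Y \ X) ((F.erase X).erase Y)) (X \ Y)
    have h6 := hins ((F.erase X).erase Y) (Y \ X)
    omega

lemma exists_feas (H : E → Finset V) (r : V → V → ℕ) : ∃ m : V → ℕ, Feas H m (req r) := by
  classical
  refine ⟨fun _ => (univ : Finset (Finset V)).sup (req r), ?_⟩
  intro X
  rcases X.eq_empty_or_nonempty with rfl | ⟨v, hv⟩
  · simp [req]
  · have h1 : req r X ≤ (univ : Finset (Finset V)).sup (req r) :=
      Finset.le_sup (f := req r) (mem_univ X)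
    have h2 : (univ : Finset (Finset V)).sup (req r)
        ≤ ∑ _w ∈ X, (univ : Finset (Finset V)).sup (req r) :=
      Finset.single_le_sum (f := fun _ : V => (univ : Finset (Finset V)).sup (req r))
        (fun _ _ => Nat.zero_le _) hv
    exact le_trans (le_trans h1 h2) (Nat.le_add_left _ _)

lemma exists_min_feas (H : E → Finset V) (r : V → V → ℕ) :
    ∃ m : V → ℕ, Feas H m (req r) ∧ ∀ m' : V → ℕ, Feas H m' (req r) → ∑ v, m v ≤ ∑ v, m' v := by
  classical
  let P : ℕ → Prop := fun n => ∃ m : V → ℕ, Feas H m (req r) ∧ ∑ v, m v = n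
  obtain ⟨m₀, h₀⟩ := exists_feas H r
  have hP : ∃ n, P n := ⟨_, m₀, h₀, rfl⟩
  obtain ⟨m, hm, hn⟩ := Nat.find_spec hP
  refine ⟨m, hm, fun m' hm' => ?_⟩
  rw [hn]
  exact Nat.find_min' hP ⟨m', hm', rfl⟩

lemma min_tight (H : E → Finset V) (r : V → V → ℕ) (m : V → ℕ) (hm : Feas H m (req r))
    (hmin : ∀ m' : V → ℕ, Feas H m' (req r) → ∑ v, m v ≤ ∑ v, m' v) (v : V) (hv : 0 < m v) :
    ∃ X : Finset V, v ∈ X ∧ cut H X + ∑ w ∈ X, m w = req r X := by
  classical
  by_contra hcon
  push Not at hcon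
  have hlt : ∀ X : Finset V, v ∈ X → req r X + 1 ≤ cut H X + ∑ w ∈ X, m w := by
    intro X hX
    have h1 := hm X
    have h2 := hcon X hX
    omega
  have hsum : ∀ X : Finset V, v ∈ X →
      ∑ w ∈ X, Function.update m v (m v - 1) w + 1 = ∑ w ∈ X, m w := by
    intro X hX
    rw [← Finset.add_sum_erase X m hX, ← Finset.add_sum_erase X _ hX]
    have : ∑ w ∈ X.erase v, Function.update m v (m v - 1) w = ∑ w ∈ X.erase v, m w := by
      apply Finset.sum_congr rfl
      intro w hw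
      rw [Function.update_of_ne (Finset.ne_of_mem_erase hw)]
    rw [this, Function.update_self]
    omega
  have hf : Feas H (Function.update m v (m v - 1)) (req r) := by
    intro X
    by_cases hX : v ∈ X
    · have h1 := hlt X hX
      have h2 := hsum X hX
      omega
    · have : ∑ w ∈ X, Function.update m v (m v - 1) w = ∑ w ∈ X, m w := by
        apply Finset.sum_congr rfl
        intro w hw
        have hwv : w ≠ v := by
          rintro rfl
          exact hX hw
        rw [Function.update_of_ne hwv]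
      rw [this]
      exact hm X
  have h1 := hmin _ hf
  have h2 := hsum univ (mem_univ v)
  omega

lemma alpha_le (H : E → Finset V) (r : V → V → ℕ) (m : V → ℕ) (hm : Feas H m (req r)) :
    alpha H r ≤ ∑ v, m v := by
  classical
  unfold alpha
  apply Finset.sup_le
  intro F hF
  rw [mem_filter] at hF
  calc ∑ X ∈ F, (req r X - cut H X) ≤ ∑ X ∈ F, ∑ w ∈ X, m w := by
        apply Finset.sum_le_sum
        intro X _
        have := hm X
        omega
    _ = ∑ w ∈ F.biUnion id, m w := by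
        rw [Finset.sum_biUnion]
        · rfl
        · intro A hA B hB hAB
          exact hF.2 A hA B hB hAB
    _ ≤ ∑ v, m v := Finset.sum_le_sum_of_subset (subset_univ _)

lemma le_alpha (H : E → Finset V) (r : V → V → ℕ) (F : Finset (Finset V))
    (hF : ∀ A ∈ F, ∀ B ∈ F, A ≠ B → Disjoint A B) :
    ∑ X ∈ F, (req r X - cut H X) ≤ alpha H r := by
  classical
  unfold alpha
  exact Finset.le_sup (f := fun F : Finset (Finset V) => ∑ X ∈ F, (req r X - cut H X))
    (mem_filter.2 ⟨mem_univ _, hF⟩)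

end

end DEG

/-- DEG. -/
theorem stmt_DEG : Stmt_DEG := by
  classical
  intro V E _ _ _ H r hr
  obtain ⟨m, hm, hmin⟩ := DEG.exists_min_feas H r
  have ht := DEG.min_tight H r m hm hmin
  refine ⟨m, hm, ?_, ht⟩
  apply le_antisymm _ (DEG.alpha_le H r m hm)
  have hc₀ : DEG.Cov H m r (univ.filter fun X => DEG.Tight H m r X) := by
    constructor
    · intro X hX
      exact (mem_filter.1 hX).2
    · intro v hv
      obtain ⟨X, hX, hX2⟩ := ht v hv
      exact ⟨X, mem_filter.2 ⟨mem_univ _, hX2⟩, hX⟩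
  obtain ⟨F, hF, hFmin⟩ := DEG.exists_min_cov H m r _ hc₀
  have hd := DEG.min_disjoint H m r hr hm F hF hFmin
  refine le_trans ?_ (DEG.le_alpha H r F hd)
  calc ∑ v, m v ≤ ∑ w ∈ F.biUnion id, m w := by
        rw [← Finset.sum_subset (subset_univ (F.biUnion id))]
        intro v _ hv
        by_contra h0
        obtain ⟨X, hX, hvX⟩ := hF.2 v (Nat.pos_of_ne_zero h0)
        exact hv (mem_biUnion.2 ⟨X, hX, hvX⟩)
    _ = ∑ X ∈ F, ∑ w ∈ X, m w := by
        rw [Finset.sum_biUnion]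
        · rfl
        · intro A hA B hB hAB
          exact hd A hA B hB hAB
    _ ≤ ∑ X ∈ F, (req r X - cut H X) := by
        apply Finset.sum_le_sum
        intro X hX
        have := hF.1 X hX
        unfold DEG.Tight at this
        omega

end Pool.Agent.Work.MP_2183d4_lc_66
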