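import Mathlib

/-!
# MP_2183d4_lc: local edge-connectivity augmentation of hypergraphs of bounded rank by graph edges

A hypergraph on the finite set `V` is a family `H : E → Finset V`; a graph is a family
`g : Fin n → V × V` of pairs of vertices (loops are harmless here).
-/

set_option autoImplicit false

namespace Pool.Agent.Work.MP_2183d4_lc_66

open Finset

section
variable {V E : Type} [Fintype V] [DecidableEq V] [Fintype E]

open Classical in
/-- `cut H X = d_H(X)`: number of hyperedges meeting both `X` and its complement. -/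
noncomputable def cut (H : E → Finset V) (X : Finset V) : ℕ :=
  (univ.filter fun e => (∃ v ∈ H e, v ∈ X) ∧ ∃ v ∈ H e, v ∉ X).card

/-- `gcut g X = d_G(X)`: number of edges of the graph `g` with exactly one end in `X`. -/
def gcut {n : ℕ} (g : Fin n → V × V) (X : Finset V) : ℕ :=
  (univ.filter fun i => ¬((g i).1 ∈ X ↔ (g i).2 ∈ X)).card

/-- `P` is connected by the traces of the hyperedges on `P`. -/
def Conn (H : E → Finset V) (P : Finset V) : Prop :=
  ∀ A : Finset V, A ⊆ P → A.Nonempty → A ≠ P →
    ∃ e, (∃ v ∈ H e, v ∈ A) ∧ ∃ v ∈ H e, v ∈ P ∧ v ∉ A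

/-- The standing assumptions on the requirement function `R` on sets (`R0` bounds it). -/
structure ReqFun (R : Finset V → ℕ) (R0 : ℕ) : Prop where
  le : ∀ X, R X ≤ R0
  empty : R ∅ = 0
  compl : ∀ X, R Xᶜ = R X
  union : ∀ A B, R (A ∪ B) ≤ max (R A) (R B)

/-- All vertices with demand lie in one component. -/
def OneComp (H : E → Finset V) (m : V → ℕ) : Prop :=
  ∀ X : Finset V, (∃ u ∈ X, 0 < m u) → (∃ v, v ∉ X ∧ 0 < m v) → 1 ≤ cut H X

/-- `Feas H m R`: the half-edges `m` (joined to a new vertex) satisfy all requirements. -/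
def Feas (H : E → Finset V) (m : V → ℕ) (R : Finset V → ℕ) : Prop :=
  ∀ X : Finset V, R X ≤ cut H X + ∑ v ∈ X, m v

/-- Two positions are close if some small connected set contains both vertices. -/
def CloseRel {T : Type} (H : E → Finset V) (m : V → ℕ) (β : ℕ) (x : T → V) (i j : T) : Prop :=
  ∃ P : Finset V, Conn H P ∧ x i ∈ P ∧ x j ∈ P ∧ cut H P + ∑ v ∈ P, m v ≤ β

end

section
variable {T : Type}

/-- `Wk A a b n`: there is a walk of length at most `n` from `a` to `b` along `A`. -/
inductive Wk (A : T → T → Prop) : T → T → ℕ → Prop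
  | nil (a : T) (n : ℕ) : Wk A a a n
  | cons {a b c : T} {n : ℕ} : A a b → Wk A b c n → Wk A a c (n + 1)

/-- The edges of the graph `N ∪ σ`. -/
def Gr (N : T → T → Prop) (σ : T → T) (a b : T) : Prop := N a b ∨ (σ a = b ∧ a ≠ b)

/-- The edges of the graph `N ∪ σ` without the edge `{u, σ u}`. -/
def GrM (N : T → T → Prop) (σ : T → T) (u : T) (a b : T) : Prop :=
  N a b ∨ (σ a = b ∧ a ≠ b ∧ a ≠ u ∧ b ≠ u)

/-- Every edge `{u, σ u}` is in no short closed walk: its ends are far apart in the rest. -/
def FarMatch (N : T → T → Prop) (σ : T → T) (L : ℕ) : Prop :=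
  ∀ u, σ u ≠ u → ¬ Wk (GrM N σ u) u (σ u) L

end

end Pool.Agent.Work.MP_2183d4_lc_66
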