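import Pool.Agent.Work.MP_2183d4_lc_66.Interface

/-!
# Block IMP: important cuts in hypergraphs (helper79)
-/

set_option autoImplicit false

namespace Pool.Agent.Work.MP_2183d4_lc_66

open Finset

namespace IMP

variable {V E : Type} [DecidableEq V] [Fintype E]

/-- the hyperedge `e` crosses `X` -/
def Cr (H : E → Finset V) (e : E) (X : Finset V) : Prop :=
  (∃ v ∈ H e, v ∈ X) ∧ ∃ v ∈ H e, v ∉ X

open Classical in
/-- the cost of `X` without the hyperedges of `D` -/
noncomputable def cD (H : E → Finset V) (m : V → ℕ) (D : Finset E) (X : Finset V) : ℕ :=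
  (univ.filter fun e => e ∉ D ∧ Cr H e X).card + ∑ v ∈ X, m v

omit [DecidableEq V] in
theorem cD_def (H : E → Finset V) (m : V → ℕ) (D : Finset E) (X : Finset V)
    [DecidablePred fun e => e ∉ D ∧ Cr H e X] :
    cD H m D X = (univ.filter fun e => e ∉ D ∧ Cr H e X).card + ∑ v ∈ X, m v := by
  rw [cD]
  congr

theorem cD_empty (H : E → Finset V) (m : V → ℕ) (X : Finset V) :
    cD H m ∅ X = cut H X + ∑ v ∈ X, m v := by
  classical
  rw [cD, cut]
  congr 2
  ext e
  simp [Cr]

omit [Fintype E] in
theorem Cr_inter {H : E → Finset V} {e : E} {A B : Finset V} (h : Cr H e (A ∩ B)) :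
    Cr H e A ∨ Cr H e B := by
  obtain ⟨⟨v, hv, hvX⟩, w, hw, hwX⟩ := h
  rw [mem_inter] at hvX hwX
  by_cases hA : w ∈ A
  · exact Or.inr ⟨⟨v, hv, hvX.2⟩, w, hw, fun h' => hwX ⟨hA, h'⟩⟩
  · exact Or.inl ⟨⟨v, hv, hvX.1⟩, w, hw, hA⟩

omit [Fintype E] in
theorem Cr_union {H : E → Finset V} {e : E} {A B : Finset V} (h : Cr H e (A ∪ B)) :
    Cr H e A ∨ Cr H e B := by
  obtain ⟨⟨v, hv, hvX⟩, w, hw, hwX⟩ := h
  rw [mem_union] at hvX hwX
  push Not at hwX
  rcases hvX with h | h
  · exact Or.inl ⟨⟨v, hv, h⟩, w, hw, hwX.1⟩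
  · exact Or.inr ⟨⟨v, hv, h⟩, w, hw, hwX.2⟩

omit [Fintype E] in
theorem Cr_both {H : E → Finset V} {e : E} {A B : Finset V} (h : Cr H e (A ∩ B))
    (h' : Cr H e (A ∪ B)) : Cr H e A ∧ Cr H e B := by
  obtain ⟨⟨v, hv, hvX⟩, _⟩ := h
  obtain ⟨_, w, hw, hwX⟩ := h'
  rw [mem_inter] at hvX
  rw [mem_union] at hwX
  push Not at hwX
  exact ⟨⟨⟨v, hv, hvX.1⟩, w, hw, hwX.1⟩, ⟨v, hv, hvX.2⟩, w, hw, hwX.2⟩

/-- submodularity -/
theorem cD_sub (H : E → Finset V) (m : V → ℕ) (D : Finset E) (A B : Finset V) :
    cD H m D (A ∩ B) + cD H m D (A ∪ B) ≤ cD H m D A + cD H m D B := by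
  classical
  have h1 : (univ.filter fun e => e ∉ D ∧ Cr H e (A ∩ B)).card +
      (univ.filter fun e => e ∉ D ∧ Cr H e (A ∪ B)).card ≤
      (univ.filter fun e => e ∉ D ∧ Cr H e A).card +
        (univ.filter fun e => e ∉ D ∧ Cr H e B).card := by
    rw [card_filter, card_filter, card_filter, card_filter, ← sum_add_distrib, ← sum_add_distrib]
    refine sum_le_sum fun e _ => ?_
    by_cases hD : e ∈ D
    · simp [hD]
    · have i1 : Cr H e (A ∩ B) → Cr H e A ∨ Cr H e B := Cr_inter
      have i2 : Cr H e (A ∪ B) → Cr H e A ∨ Cr H e B := Cr_union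
      have i3 : Cr H e (A ∩ B) → Cr H e (A ∪ B) → Cr H e A ∧ Cr H e B := Cr_both
      by_cases a1 : Cr H e (A ∩ B) <;> by_cases a2 : Cr H e (A ∪ B) <;>
        by_cases a3 : Cr H e A <;> by_cases a4 : Cr H e B <;>
        simp only [hD, a1, a2, a3, a4, not_false_eq_true, and_true, and_false, if_true,
          if_false] <;> first | omega | (exfalso; tauto)
  have h2 : ∑ v ∈ A ∩ B, m v + ∑ v ∈ A ∪ B, m v = ∑ v ∈ A, m v + ∑ v ∈ B, m v := by
    rw [add_comm, sum_union_inter]
  rw [cD_def, cD_def, cD_def, cD_def]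
  omega

omit [DecidableEq V] in
/-- one more deleted hyperedge -/
theorem cD_insert_of_cross (H : E → Finset V) (m : V → ℕ) [DecidableEq E] (D : Finset E) (e0 : E)
    (h0 : e0 ∉ D) (X : Finset V) (h : Cr H e0 X) : cD H m (insert e0 D) X + 1 = cD H m D X := by
  classical
  rw [cD_def, cD_def]
  have h1 : (univ.filter fun e => e ∉ D ∧ Cr H e X) =
      insert e0 (univ.filter fun e => e ∉ insert e0 D ∧ Cr H e X) := by
    ext e
    simp only [mem_filter, mem_univ, true_and, mem_insert]
    constructor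
    · rintro ⟨h2, h3⟩
      by_cases he : e = e0
      · exact Or.inl he
      · exact Or.inr ⟨by tauto, h3⟩
    · rintro (h2 | ⟨h2, h3⟩)
      · rw [h2]
        exact ⟨h0, h⟩
      · exact ⟨by tauto, h3⟩
  have h2 : e0 ∉ (univ.filter fun e => e ∉ insert e0 D ∧ Cr H e X) := by
    simp
  rw [h1, card_insert_of_notMem h2]
  omega

omit [DecidableEq V] in
theorem cD_insert_le (H : E → Finset V) (m : V → ℕ) [DecidableEq E] (D : Finset E) (e0 : E)
    (X : Finset V) : cD H m D X ≤ cD H m (insert e0 D) X + 1 := by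
  classical
  rw [cD_def, cD_def]
  have h1 : (univ.filter fun e => e ∉ D ∧ Cr H e X) ⊆
      insert e0 (univ.filter fun e => e ∉ insert e0 D ∧ Cr H e X) := by
    intro e
    simp only [mem_filter, mem_univ, true_and, mem_insert]
    rintro ⟨h2, h3⟩
    by_cases he : e = e0
    · exact Or.inl he
    · exact Or.inr ⟨by tauto, h3⟩
  have h2 := card_le_card h1
  have h3 := card_insert_le e0 (univ.filter fun e => e ∉ insert e0 D ∧ Cr H e X)
  omega

theorem claim [Fintype V] (H : E → Finset V) (m : V → ℕ) (k : ℕ) (hk : ∀ e, (H e).card ≤ k) (u : V) (n : ℕ) :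
    ∀ (D : Finset E) (b lam : ℕ) (S : Finset V), u ∈ S → (∀ X, S ⊆ X → lam ≤ cD H m D X) →
      2 * b ≤ n + lam → ∃ F : Finset (Finset V), F.card ≤ (k + 1) ^ n ∧
        (∀ Z ∈ F, ∑ v ∈ Z, m v ≤ b) ∧
        ∀ P : Finset V, u ∈ P → Conn H P → (∀ e ∈ D, ∀ v ∈ H e, v ∈ P → v ∈ S) →
          cD H m D (P ∪ S) ≤ b → ∃ Z ∈ F, P ⊆ Z := by
  classical
  induction n with
  | zero =>
    intro D b lam S hu hlam hb
    by_cases hex : ∃ X, S ⊆ X ∧ cD H m D X ≤ b
    · obtain ⟨X, hX, hXb⟩ := hex
      have h1 := hlam X hX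
      have hb0 : b = 0 := by omega
      -- maximal set of cost 0
      obtain ⟨Z, hZ, hZm⟩ := exists_max_image (univ.filter fun Z => S ⊆ Z ∧ cD H m D Z = 0) card
        ⟨X, by
          rw [mem_filter]
          exact ⟨mem_univ _, hX, by omega⟩⟩
      rw [mem_filter] at hZ
      refine ⟨{Z}, by simp, ?_, ?_⟩
      · intro Z' hZ'
        rw [mem_singleton] at hZ'
        rw [hZ']
        have h2 := hZ.2.2
        rw [cD] at h2
        omega
      · intro P hP hC hD hcost
        refine ⟨Z, mem_singleton_self _, ?_⟩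
        have h2 := cD_sub H m D (P ∪ S) Z
        have h3 : (P ∪ S) ∪ Z = P ∪ Z := by
          rw [union_assoc, union_eq_right.mpr hZ.2.1]
        rw [h3] at h2
        have h4 : cD H m D (P ∪ Z) = 0 := by omega
        have h5 := hZm (P ∪ Z) (by
          rw [mem_filter]
          exact ⟨mem_univ _, hZ.2.1.trans subset_union_right, h4⟩)
        have h6 : Z = P ∪ Z := eq_of_subset_of_card_le subset_union_right h5
        rw [h6]
        exact subset_union_left
    · refine ⟨∅, by simp, by simp, ?_⟩
      intro P hP hC hD hcost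
      exact absurd ⟨P ∪ S, subset_union_right, hcost⟩ hex
  | succ n ih =>
    intro D b lam S hu hlam hb
    by_cases hex : ∃ X, S ⊆ X ∧ cD H m D X ≤ b
    · obtain ⟨X0, hX0, hX0b⟩ := hex
      -- the minimum
      obtain ⟨X1, hX1, hX1m⟩ := exists_min_image (univ.filter fun Z => S ⊆ Z) (cD H m D)
        ⟨X0, by
          rw [mem_filter]
          exact ⟨mem_univ _, hX0⟩⟩
      rw [mem_filter] at hX1
      set ls := cD H m D X1 with hls
      have hls1 : ∀ X, S ⊆ X → ls ≤ cD H m D X := by
        intro X hX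
        exact hX1m X (by rw [mem_filter]; exact ⟨mem_univ _, hX⟩)
      have hlsb : ls ≤ b := le_trans (hls1 X0 hX0) hX0b
      have hlamls : lam ≤ ls := hlam X1 hX1.2
      obtain ⟨Z, hZ, hZm⟩ := exists_max_image (univ.filter fun Z => S ⊆ Z ∧ cD H m D Z = ls) card
        ⟨X1, by
          rw [mem_filter]
          exact ⟨mem_univ _, hX1.2, rfl⟩⟩
      rw [mem_filter] at hZ
      obtain ⟨_, hSZ, hZc⟩ := hZ
      have hmZ : ∑ v ∈ Z, m v ≤ b := by
        rw [cD] at hZc
        omega
      have hPZ : ∀ P, cD H m D (P ∪ S) ≤ b → cD H m D (P ∪ Z) ≤ b := by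
        intro P hP
        have h2 := cD_sub H m D (P ∪ S) Z
        have h3 : (P ∪ S) ∪ Z = P ∪ Z := by
          rw [union_assoc, union_eq_right.mpr hSZ]
        rw [h3] at h2
        have h4 := hls1 ((P ∪ S) ∩ Z) (subset_inter subset_union_right hSZ)
        omega
      -- a crossing hyperedge for every uncovered set
      have hcr : ∀ P, u ∈ P → Conn H P → (∀ e ∈ D, ∀ v ∈ H e, v ∈ P → v ∈ S) → ¬ P ⊆ Z →
          ∃ e, e ∉ D ∧ Cr H e Z := by
        intro P hP hC hD hn
        obtain ⟨e, ⟨v, hv, hvA⟩, w, hw, hwP, hwA⟩ := hC (P ∩ Z) inter_subset_left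
          ⟨u, mem_inter.mpr ⟨hP, hSZ hu⟩⟩ (by
            intro h
            apply hn
            rw [← h]
            exact inter_subset_right)
        have hwZ : w ∉ Z := fun h => hwA (mem_inter.mpr ⟨hwP, h⟩)
        refine ⟨e, ?_, ⟨v, hv, (mem_inter.mp hvA).2⟩, w, hw, hwZ⟩
        intro heD
        exact hwZ (hSZ (hD e heD w hw hwP))
      by_cases hδ : ∃ e, e ∉ D ∧ Cr H e Z
      · obtain ⟨e0, he0D, he0⟩ := hδ
        have hls0 : 1 ≤ ls := by
          have h1 := cD_insert_of_cross H m D e0 he0D Z he0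
          omega
        have hpos : 0 < (k + 1) ^ n := by positivity
        -- branches `w`
        have hw : ∀ w : V, w ∉ Z → ∃ F : Finset (Finset V), F.card ≤ (k + 1) ^ n ∧
            (∀ Z ∈ F, ∑ v ∈ Z, m v ≤ b) ∧
            ∀ P : Finset V, u ∈ P → Conn H P → (∀ e ∈ D, ∀ v ∈ H e, v ∈ P → v ∈ insert w Z) →
              cD H m D (P ∪ insert w Z) ≤ b → ∃ Z ∈ F, P ⊆ Z := by
          intro w hw
          refine ih D b (ls + 1) (insert w Z) (mem_insert_of_mem (hSZ hu)) ?_ (by omega)
          intro X hX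
          have h1 := hls1 X (hSZ.trans ((subset_insert w Z).trans hX))
          by_contra hcon
          have h2 : cD H m D X = ls := by omega
          have h3 := hZm X (by
            rw [mem_filter]
            exact ⟨mem_univ _, hSZ.trans ((subset_insert w Z).trans hX), h2⟩)
          have h4 := card_le_card hX
          rw [card_insert_of_notMem hw] at h4
          omega
        have hw' : ∀ w : V, ∃ F : Finset (Finset V), w ∉ Z → F.card ≤ (k + 1) ^ n ∧
            (∀ Z ∈ F, ∑ v ∈ Z, m v ≤ b) ∧
            ∀ P : Finset V, u ∈ P → Conn H P → (∀ e ∈ D, ∀ v ∈ H e, v ∈ P → v ∈ insert w Z) →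
              cD H m D (P ∪ insert w Z) ≤ b → ∃ Z ∈ F, P ⊆ Z := by
          intro w
          by_cases h : w ∈ Z
          · exact ⟨∅, fun h' => absurd h h'⟩
          · obtain ⟨F, hF⟩ := hw w h
            exact ⟨F, fun _ => hF⟩
        choose Fw hFw using hw'
        -- the branch `e0`
        obtain ⟨F0, hF0c, hF0m, hF0P⟩ := ih (insert e0 D) (b - 1) (ls - 1) Z (hSZ hu) (by
          intro X hX
          have h1 := hls1 X (hSZ.trans hX)
          have h2 := cD_insert_le H m D e0 X
          omega) (by omega)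
        refine ⟨insert Z (F0 ∪ (H e0 \ Z).biUnion Fw), ?_, ?_, ?_⟩
        · have h1 : (H e0 \ Z).card + 1 ≤ k := by
            obtain ⟨⟨v, hv, hvZ⟩, _⟩ := he0
            have h2 : (H e0 \ Z) ⊆ (H e0).erase v := by
              intro w hw
              rw [mem_sdiff] at hw
              rw [mem_erase]
              exact ⟨fun h => hw.2 (by rw [h]; exact hvZ), hw.1⟩
            have h3 := card_le_card h2
            rw [card_erase_of_mem hv] at h3
            have h4 := hk e0
            have h5 : 0 < (H e0).card := card_pos.mpr ⟨v, hv⟩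
            omega
          have h2 : ((H e0 \ Z).biUnion Fw).card ≤ (H e0 \ Z).card * (k + 1) ^ n := by
            refine card_biUnion_le_card_mul _ _ _ fun w hw => ?_
            exact (hFw w (mem_sdiff.mp hw).2).1
          have h3 := card_insert_le Z (F0 ∪ (H e0 \ Z).biUnion Fw)
          have h4 := card_union_le F0 ((H e0 \ Z).biUnion Fw)
          have h5 : ((H e0 \ Z).card + 1) * (k + 1) ^ n ≤ k * (k + 1) ^ n :=
            Nat.mul_le_mul_right _ h1
          rw [add_mul, one_mul] at h5
          have h6 : (k + 1) ^ (n + 1) = k * (k + 1) ^ n + (k + 1) ^ n := by ring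
          omega
        · intro Z' hZ'
          rw [mem_insert, mem_union, mem_biUnion] at hZ'
          rcases hZ' with h | h | ⟨w, hw, h⟩
          · rw [h]
            exact hmZ
          · exact le_trans (hF0m Z' h) (Nat.sub_le _ _)
          · exact (hFw w (mem_sdiff.mp hw).2).2.1 Z' h
        · intro P hP hC hD hcost
          have hcZ := hPZ P hcost
          by_cases hPs : P ⊆ Z
          · exact ⟨Z, mem_insert_self _ _, hPs⟩
          by_cases hPe : ∃ w, w ∈ H e0 ∧ w ∉ Z ∧ w ∈ P
          · obtain ⟨w, hwe, hwZ, hwP⟩ := hPe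
            obtain ⟨Z', hZ', hPZ'⟩ := (hFw w hwZ).2.2 P hP hC (by
              intro e he v hv hvP
              exact mem_insert_of_mem (hSZ (hD e he v hv hvP))) (by
              have h1 : P ∪ insert w Z = P ∪ Z := by
                ext x
                simp only [mem_union, mem_insert]
                constructor
                · rintro (h | h | h)
                  · exact Or.inl h
                  · rw [h]
                    exact Or.inl hwP
                  · exact Or.inr h
                · rintro (h | h)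
                  · exact Or.inl h
                  · exact Or.inr (Or.inr h)
              rw [h1]
              exact hcZ)
            refine ⟨Z', ?_, hPZ'⟩
            rw [mem_insert, mem_union, mem_biUnion]
            exact Or.inr (Or.inr ⟨w, mem_sdiff.mpr ⟨hwe, hwZ⟩, hZ'⟩)
          · push Not at hPe
            have hcross : Cr H e0 (P ∪ Z) := by
              obtain ⟨⟨v, hv, hvZ⟩, w, hw, hwZ⟩ := he0
              refine ⟨⟨v, hv, mem_union_right _ hvZ⟩, w, hw, ?_⟩
              rw [mem_union]
              rintro (h | h)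
              · exact hPe w hw hwZ h
              · exact hwZ h
            have h1 := cD_insert_of_cross H m D e0 he0D (P ∪ Z) hcross
            obtain ⟨Z', hZ', hPZ'⟩ := hF0P P hP hC (by
              intro e he v hv hvP
              rw [mem_insert] at he
              rcases he with h | h
              · by_contra hvZ
                rw [h] at hv
                exact hPe v hv hvZ hvP
              · exact hSZ (hD e h v hv hvP)) (by omega)
            refine ⟨Z', ?_, hPZ'⟩
            rw [mem_insert, mem_union]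
            exact Or.inr (Or.inl hZ')
      · refine ⟨{Z}, ?_, ?_, ?_⟩
        · rw [card_singleton]
          exact Nat.one_le_pow _ _ (Nat.succ_pos k)
        · intro Z' hZ'
          rw [mem_singleton] at hZ'
          rw [hZ']
          exact hmZ
        · intro P hP hC hD hcost
          refine ⟨Z, mem_singleton_self _, ?_⟩
          by_contra hn
          exact hδ (hcr P hP hC hD hn)
    · refine ⟨∅, by simp, by simp, ?_⟩
      intro P hP hC hD hcost
      exact absurd ⟨P ∪ S, subset_union_right, hcost⟩ hex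

end IMP

theorem stmt_IMP : Stmt_IMP := by
  intro V E _ _ _ H m k β hk u
  obtain ⟨F, hF1, hF2, hF3⟩ := IMP.claim H m k hk u (2 * β) ∅ β 0 {u} (mem_singleton_self u)
    (fun _ _ => Nat.zero_le _) (by omega)
  refine ⟨F, le_trans hF1 (Nat.pow_le_pow_right (Nat.succ_pos k) (by omega)), hF2, ?_⟩
  intro P hP hC hcost
  refine hF3 P hP hC (by simp) ?_
  have h1 : P ∪ {u} = P := by
    rw [union_eq_left]
    intro x hx
    rw [mem_singleton] at hx
    rw [hx]
    exact hP
  rw [h1, IMP.cD_empty]
  exact hcost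

end Pool.Agent.Work.MP_2183d4_lc_66
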