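import Pool.Agent.Work.MP_2183d4_lc_66.Interface

/-!
# MP_2183d4_lc: block LINK (helper20). Joining the components by a cycle of edges.
-/

set_option autoImplicit false

namespace Pool.Agent.Work.MP_2183d4_lc_66

open Finset

namespace LINK

/-- a set closed under the cyclic successor is everything -/
theorem cyc {c : ℕ} (hc : 2 ≤ c) (S : Fin c → Prop) (i0 : Fin c) (h0 : S i0)
    (hs : ∀ i, S i → S (finRotate c i)) : ∀ j, S j := by
  intro j
  have hcyc : (finRotate c).IsCycle := isCycle_finRotate_of_le hc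
  have hsup : ∀ x, finRotate c x ≠ x := by
    intro x
    have : x ∈ (finRotate c).support := by
      rw [support_finRotate_of_le hc]; exact mem_univ _
    exact Equiv.Perm.mem_support.1 this
  obtain ⟨n, hn⟩ := hcyc.exists_pow_eq (hsup i0) (hsup j)
  have hpow : ∀ n : ℕ, S (((finRotate c) ^ n) i0) := by
    intro n
    induction n with
    | zero => simpa using h0
    | succ n ih =>
      rw [pow_succ']
      exact hs _ ih
  rw [← hn]
  exact hpow n

section
variable {V E K : Type} [Fintype V] [DecidableEq V] [Fintype E] [DecidableEq K]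

/-- cost -/
noncomputable def cost (H : E → Finset V) (m : V → ℕ) (A : Finset V) : ℕ :=
  cut H A + ∑ v ∈ A, m v

/-- half-edges in the component `C` -/
def mC (m : V → ℕ) (cm : V → K) (C : K) : ℕ := ∑ v ∈ univ.filter (fun v => cm v = C), m v

/-- `cm` is the map to the components -/
structure IsComp (H : E → Finset V) (cm : V → K) : Prop where
  same : ∀ e, ∀ u ∈ H e, ∀ v ∈ H e, cm u = cm v
  clo : ∀ X : Finset V, cut H X = 0 → ∀ u v, cm u = cm v → u ∈ X → v ∈ X

omit [Fintype V] [DecidableEq K] in
theorem cut_zero {H : E → Finset V} {X : Finset V}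
    (h : ∀ e, ∀ u ∈ H e, ∀ v ∈ H e, u ∈ X → v ∈ X) : cut H X = 0 := by
  unfold cut
  rw [card_eq_zero, filter_eq_empty_iff]
  rintro e _ ⟨⟨u, hu, huX⟩, ⟨v, hv, hvX⟩⟩
  exact hvX (h e u hu v hv huX)

omit [Fintype V] [DecidableEq K] in
theorem cut_zero' {H : E → Finset V} {X : Finset V} (h : cut H X = 0) :
    ∀ e, ∀ u ∈ H e, ∀ v ∈ H e, u ∈ X → v ∈ X := by
  intro e u hu v hv huX
  by_contra hvX
  unfold cut at h
  rw [card_eq_zero, filter_eq_empty_iff] at h
  exact h (mem_univ e) ⟨⟨u, hu, huX⟩, ⟨v, hv, hvX⟩⟩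

omit [Fintype V] [DecidableEq V] [Fintype E] in
theorem conn_comp {H : E → Finset V} {cm : V → K}
    (hs : ∀ e, ∀ u ∈ H e, ∀ v ∈ H e, cm u = cm v) {P : Finset V} (hP : Conn H P) {u v : V}
    (hu : u ∈ P) (hv : v ∈ P) : cm u = cm v := by
  by_contra hne
  obtain ⟨e, ⟨x, hx, hxA⟩, ⟨y, hy, hyP, hyA⟩⟩ := hP (P.filter fun w => cm w = cm u)
    (filter_subset _ _) ⟨u, mem_filter.2 ⟨hu, rfl⟩⟩ (by
      intro h
      have h1 : v ∈ P.filter fun w => cm w = cm u := by rw [h]; exact hv
      exact hne (mem_filter.1 h1).2.symm)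
  apply hyA
  rw [mem_filter]
  refine ⟨hyP, ?_⟩
  rw [← (mem_filter.1 hxA).2]
  exact hs e y hy x hx

theorem mC_ne_one {H : E → Finset V} {cm : V → K} (hI : IsComp H cm) {m : V → ℕ}
    (h1 : ∀ X : Finset V, cut H X = 0 → ∑ v ∈ X, m v ≠ 1) (C : K) : mC m cm C ≠ 1 := by
  apply h1
  apply cut_zero
  intro e u hu v hv huX
  rw [mem_filter] at huX ⊢
  exact ⟨mem_univ _, by rw [← huX.2]; exact hI.same e v hv u hu⟩

/-- choice of the second half-edge -/
theorem second {m : V → ℕ} {cm : V → K} {C : K} {a : V} (U : Finset V)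
    (hU : ∑ v ∈ U, m v + 2 ≤ mC m cm C) :
    ∃ b, cm b = C ∧ b ∉ U ∧ 1 ≤ m b ∧ (a = b → 2 ≤ m a) := by
  by_contra hcon
  push Not at hcon
  have h1 : mC m cm C ≤ ∑ v ∈ U, m v + 1 := by
    unfold mC
    rw [← sum_filter_add_sum_filter_not (univ.filter fun v => cm v = C) (fun v => v ∈ U)]
    have e1 : ∑ v ∈ (univ.filter fun v => cm v = C) with v ∈ U, m v ≤ ∑ v ∈ U, m v := by
      apply sum_le_sum_of_subset
      intro v hv
      exact (mem_filter.1 hv).2
    have e2 : ∑ v ∈ (univ.filter fun v => cm v = C) with v ∉ U, m v ≤ 1 := by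
      calc _ ≤ ∑ v ∈ (univ.filter fun v => cm v = C) with v ∉ U, (if v = a then 1 else 0) := by
            apply sum_le_sum
            intro v hv
            rw [mem_filter, mem_filter] at hv
            by_cases h0 : 1 ≤ m v
            · obtain ⟨h2, h3⟩ := hcon v hv.1.2 hv.2 h0
              rw [if_pos h2.symm]
              rw [h2] at h3
              omega
            · omega
        _ ≤ ∑ v : V, (if v = a then 1 else 0) := sum_le_sum_of_subset (subset_univ _)
        _ = 1 := by rw [sum_ite_eq']; simp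
    omega
  omega

omit [DecidableEq V] in
theorem first {m : V → ℕ} {cm : V → K} {C : K} (h : 0 < mC m cm C) : ∃ a, cm a = C ∧ 1 ≤ m a := by
  by_contra hcon
  push Not at hcon
  have : mC m cm C = 0 := by
    unfold mC
    apply sum_eq_zero
    intro v hv
    have := hcon v (mem_filter.1 hv).2
    omega
  omega

omit [Fintype V] [DecidableEq K] in
theorem sum_biU (m : V → ℕ) (F : Finset (Finset V)) :
    ∑ v ∈ F.biUnion id, m v ≤ ∑ Z ∈ F, ∑ v ∈ Z, m v := by
  induction F using Finset.induction_on with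
  | empty => simp
  | insert Z F hZ ih =>
    rw [biUnion_insert, sum_insert hZ, id]
    have := sum_union_inter (s₁ := Z) (s₂ := F.biUnion id) (f := m)
    omega

/-- two half-edges -/
theorem pair {m : V → ℕ} {cm : V → K} {C : K} (h : 2 ≤ mC m cm C) :
    ∃ a b, cm a = C ∧ cm b = C ∧ 1 ≤ m a ∧ 1 ≤ m b ∧ (a = b → 2 ≤ m a) := by
  obtain ⟨a, ha, ha1⟩ := first (m := m) (cm := cm) (C := C) (by omega)
  obtain ⟨b, hb, _, hb1, hb2⟩ := second (m := m) (cm := cm) (C := C) (a := a) ∅ (by simpa using h)
  exact ⟨a, b, ha, hb, ha1, hb1, hb2⟩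

/-- two half-edges which are far apart -/
theorem pairS (hIMP : Stmt_IMP) {H : E → Finset V} {m : V → ℕ} {cm : V → K} {k β : ℕ}
    (hk : ∀ e, (H e).card ≤ k) {C : K} (h : (k + 1) ^ (2 * β + 1) * β + 2 ≤ mC m cm C) :
    ∃ a b, cm a = C ∧ cm b = C ∧ 1 ≤ m a ∧ 1 ≤ m b ∧ (a = b → 2 ≤ m a) ∧
      ∀ P : Finset V, a ∈ P → b ∈ P → Conn H P → β < cost H m P := by
  obtain ⟨a, ha, ha1⟩ := first (m := m) (cm := cm) (C := C) (by omega)
  obtain ⟨F, hF1, hF2, hF3⟩ := hIMP V E H m k β hk a
  have h1 : ∑ v ∈ F.biUnion id, m v ≤ (k + 1) ^ (2 * β + 1) * β := by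
    refine (sum_biU m F).trans ?_
    calc ∑ Z ∈ F, ∑ v ∈ Z, m v ≤ ∑ _Z ∈ F, β := sum_le_sum hF2
      _ = F.card * β := by rw [sum_const, smul_eq_mul]
      _ ≤ _ := Nat.mul_le_mul_right _ hF1
  obtain ⟨b, hb, hbU, hb1, hb2⟩ := second (m := m) (cm := cm) (C := C) (a := a) (F.biUnion id)
    (by omega)
  refine ⟨a, b, ha, hb, ha1, hb1, hb2, ?_⟩
  intro P haP hbP hPc
  by_contra hle
  obtain ⟨Z, hZ, hPZ⟩ := hF3 P haP hPc (by unfold cost at hle; omega)
  exact hbU (mem_biUnion.2 ⟨Z, hZ, hPZ hbP⟩)

/-- the data of the cycle -/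
structure Cyc (H : E → Finset V) (m : V → ℕ) (cm : V → K) {c : ℕ} (comp : Fin c → K)
    (a b : Fin c → V) : Prop where
  inj : Function.Injective comp
  ca : ∀ i, cm (a i) = comp i
  cb : ∀ i, cm (b i) = comp i
  ma : ∀ i, 1 ≤ m (a i)
  mb : ∀ i, 1 ≤ m (b i)
  ab : ∀ i, a i = b i → 2 ≤ m (a i)

omit [Fintype V] [Fintype E] [DecidableEq K] in
/-- a set with both half-edges has at least two -/
theorem two_le {H : E → Finset V} {m : V → ℕ} {cm : V → K} {c : ℕ} {comp : Fin c → K}
    {a b : Fin c → V} (hc : Cyc H m cm comp a b) (i : Fin c) {P : Finset V} (ha : a i ∈ P)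
    (hb : b i ∈ P) : 2 ≤ ∑ v ∈ P, m v := by
  by_cases h : a i = b i
  · exact (hc.ab i h).trans (single_le_sum (f := m) (fun _ _ => Nat.zero_le _) ha)
  · have h1 : ∑ v ∈ ({a i, b i} : Finset V), m v ≤ ∑ v ∈ P, m v := by
      apply sum_le_sum_of_subset
      intro v hv
      rw [mem_insert, mem_singleton] at hv
      rcases hv with rfl | rfl
      · exact ha
      · exact hb
    rw [sum_pair h] at h1
    have h2 := hc.ma i
    have h3 := hc.mb i
    omega

/-- the main inequality -/
theorem main (hPI : Stmt_PIECES) {H : E → Finset V} {m : V → ℕ} {R : Finset V → ℕ} {R0 : ℕ}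
    (hR : ReqFun R R0) (hF : Feas H m R)
    (h1 : ∀ X : Finset V, cut H X = 0 → ∑ v ∈ X, m v ≠ 1) {cm : V → K} (hI : IsComp H cm)
    {c : ℕ} (hc2 : 2 ≤ c) {comp : Fin c → K} {a b : Fin c → V} (hc : Cyc H m cm comp a b)
    (hdich : (∃ T : Finset (Fin c), 3 ≤ T.card ∧ ∀ i ∈ T, 3 ≤ mC m cm (comp i)) ∨
      ∃ s, ∀ P : Finset V, a s ∈ P → b s ∈ P → Conn H P → R0 + 3 < cost H m P)
    (Y : Finset V) :
    R Y + 2 * (univ.filter fun i => b i ∈ Y ∧ a (finRotate c i) ∈ Y).card ≤
      cut H Y + ∑ v ∈ Y, m v := by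
  classical
  set σ := finRotate c with hσ
  obtain ⟨P, hP1, hP2, hP3, _, hcut, hsum, hsup, hlast⟩ := hPI V E H Y
  set J := univ.filter fun i => b i ∈ Y ∧ a (σ i) ∈ Y with hJ
  set Pp := P.filter fun A => 0 < ∑ v ∈ A, m v with hPp
  have hc2' : ∀ A, 0 < ∑ v ∈ A, m v → 2 ≤ cost H m A := by
    intro A hA
    unfold cost
    by_cases h0 : cut H A = 0
    · have := h1 A h0
      omega
    · omega
  have hl := hlast m R R0 hR hF (fun A _ hA => hc2' A hA)
  rw [← hPp] at hl
  choose! pc hpc1 hpc2 using hP2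
  have hcm : ∀ u ∈ Y, ∀ v ∈ Y, pc u = pc v → cm u = cm v := by
    intro u hu v hv huv
    have h3 := hpc2 v hv
    rw [← huv] at h3
    exact conn_comp hI.same (hP1 _ (hpc1 u hu)).2.2 (hpc2 u hu) h3
  have hpos : ∀ u ∈ Y, 1 ≤ m u → pc u ∈ Pp := by
    intro u hu hm
    rw [hPp, mem_filter]
    refine ⟨hpc1 u hu, ?_⟩
    have : m u ≤ ∑ v ∈ pc u, m v := single_le_sum (f := m) (fun _ _ => Nat.zero_le _) (hpc2 u hu)
    omega
  have hφ : Set.InjOn (fun i => pc (a (σ i))) (J : Set (Fin c)) := by
    intro i hi j hj hij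
    rw [mem_coe, hJ, mem_filter] at hi hj
    have h3 := hcm _ hi.2.2 _ hj.2.2 hij
    rw [hc.ca, hc.ca] at h3
    exact σ.injective (hc.inj h3)
  have hψ : Set.InjOn (fun i => pc (b i)) (J : Set (Fin c)) := by
    intro i hi j hj hij
    rw [mem_coe, hJ, mem_filter] at hi hj
    have h3 := hcm _ hi.2.1 _ hj.2.1 hij
    rw [hc.cb, hc.cb] at h3
    exact hc.inj h3
  have hle : J.card ≤ Pp.card := by
    apply card_le_card_of_injOn (fun i => pc (a (σ i))) _ hφ
    intro i hi
    rw [mem_coe, hJ, mem_filter] at hi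
    exact hpos _ hi.2.2 (hc.ma _)
  rcases Nat.lt_or_ge J.card Pp.card with hlt | hge
  · omega
  rcases J.eq_empty_or_nonempty with hJe | ⟨i0, hi0⟩
  · rw [hJe, card_empty]
    have := hF Y
    omega
  have himg : J.image (fun i => pc (b i)) = Pp := by
    apply eq_of_subset_of_card_le
    · intro A hA
      rw [mem_image] at hA
      obtain ⟨i, hi, rfl⟩ := hA
      rw [hJ, mem_filter] at hi
      exact hpos _ hi.2.1 (hc.mb _)
    · rw [card_image_of_injOn hψ]
      exact hge
  have hnext : ∀ i ∈ J, σ i ∈ J ∧ pc (b (σ i)) = pc (a (σ i)) := by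
    intro i hi
    have hi' := hi
    rw [hJ, mem_filter] at hi'
    have h3 := hpos _ hi'.2.2 (hc.ma _)
    rw [← himg, mem_image] at h3
    obtain ⟨j, hj, hje⟩ := h3
    have hj' := hj
    rw [hJ, mem_filter] at hj'
    have h4 := hcm _ hj'.2.1 _ hi'.2.2 hje
    rw [hc.cb, hc.ca] at h4
    have h5 := hc.inj h4
    rw [h5] at hj hje
    exact ⟨hj, hje⟩
  have hall : ∀ i, i ∈ J := cyc hc2 (fun i => i ∈ J) i0 hi0 (fun i hi => (hnext i hi).1)
  have hbY : ∀ i, b i ∈ Y := by
    intro i
    have := hall i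
    rw [hJ, mem_filter] at this
    exact this.2.1
  have haY : ∀ i, a i ∈ Y := by
    intro i
    have := hall (σ.symm i)
    rw [hJ, mem_filter, Equiv.apply_symm_apply] at this
    exact this.2.2
  have hQ : ∀ i, pc (b i) = pc (a i) := by
    intro i
    have := (hnext (σ.symm i) (hall _)).2
    rwa [Equiv.apply_symm_apply] at this
  have hJu : J = univ := eq_univ_of_forall hall
  have hJc : J.card = c := by rw [hJu, card_univ, Fintype.card_fin]
  -- costs
  have htot : cut H Y + ∑ v ∈ Y, m v = ∑ A ∈ P, cost H m A := by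
    unfold cost
    rw [sum_add_distrib, hcut, hsum m]
  have hpp : ∑ A ∈ Pp, cost H m A = ∑ i, cost H m (pc (b i)) := by
    rw [← himg, sum_image (fun x hx y hy h => hψ hx hy h), hJu]
  have hne : P.Nonempty := ⟨pc (b i0), hpc1 _ (hbY i0)⟩
  obtain ⟨P0, hP0, hP0e⟩ := exists_mem_eq_sup P hne R
  have hRY : R Y ≤ R P0 := by
    rw [← hP0e]
    exact hsup R hR.empty hR.union
  have hFP : R P0 ≤ cost H m P0 := hF P0
  rw [hJc, htot]
  by_cases hP0p : P0 ∈ Pp
  · rw [← himg, mem_image] at hP0p
    obtain ⟨j, _, hj⟩ := hP0p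
    have hsub : ∑ i, cost H m (pc (b i)) ≤ ∑ A ∈ P, cost H m A := by
      rw [← hpp]
      exact sum_le_sum_of_subset (filter_subset _ _)
    refine le_trans ?_ hsub
    -- `w i = u i + 2`
    have hw : ∀ i, 2 ≤ cost H m (pc (b i)) := by
      intro i
      apply hc2'
      have := hpos _ (hbY i) (hc.mb i)
      rw [hPp, mem_filter] at this
      exact this.2
    have hsum2 : ∑ i, cost H m (pc (b i)) = ∑ i, (cost H m (pc (b i)) - 2) + 2 * c := by
      have : ∑ i, cost H m (pc (b i)) = ∑ i : Fin c, ((cost H m (pc (b i)) - 2) + 2) := by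
        apply sum_congr rfl
        intro i _
        have := hw i
        omega
      rw [this, sum_add_distrib, sum_const, card_univ, Fintype.card_fin, smul_eq_mul, mul_comm]
    rw [hsum2]
    have hj' : cost H m P0 = cost H m (pc (b j)) := by rw [hj]
    have hsplit : ∑ i, (cost H m (pc (b i)) - 2) = (cost H m (pc (b j)) - 2) +
        ∑ i ∈ univ.erase j, (cost H m (pc (b i)) - 2) := by
      exact (add_sum_erase univ (fun i => cost H m (pc (b i)) - 2) (mem_univ j)).symm
    have hwj := hw j
    rcases hdich with ⟨T, hT3, hT⟩ | ⟨s, hs⟩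
    · have hT2 : 2 ≤ (T.erase j).card := by
        have := pred_card_le_card_erase (s := T) (a := j)
        omega
      have h3 : ∀ i ∈ T.erase j, 1 ≤ cost H m (pc (b i)) - 2 := by
        intro i hi
        have h4 := hT i (mem_of_mem_erase hi)
        have hai : a i ∈ pc (b i) := by rw [hQ i]; exact hpc2 _ (haY i)
        have h5 : 3 ≤ cost H m (pc (b i)) := by
          unfold cost
          by_cases h0 : cut H (pc (b i)) = 0
          · have h6 : mC m cm (comp i) ≤ ∑ v ∈ pc (b i), m v := by
              unfold mC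
              apply sum_le_sum_of_subset
              intro v hv
              rw [mem_filter] at hv
              exact hI.clo _ h0 (a i) v (by rw [hc.ca, hv.2]) hai
            omega
          · have := two_le hc i hai (hpc2 _ (hbY i))
            omega
        omega
      have h4 : (T.erase j).card ≤ ∑ i ∈ univ.erase j, (cost H m (pc (b i)) - 2) := by
        calc (T.erase j).card = ∑ _i ∈ T.erase j, 1 := by rw [card_eq_sum_ones]
          _ ≤ ∑ i ∈ T.erase j, (cost H m (pc (b i)) - 2) := sum_le_sum h3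
          _ ≤ _ := sum_le_sum_of_subset (erase_subset_erase j (subset_univ T))
      omega
    · have h3 := hs (pc (b s)) (by rw [hQ s]; exact hpc2 _ (haY s)) (hpc2 _ (hbY s))
        (hP1 _ (hpc1 _ (hbY s))).2.2
      by_cases hjs : s = j
      · subst hjs
        have := hR.le P0
        omega
      · have h4 : cost H m (pc (b s)) - 2 ≤ ∑ i ∈ univ.erase j, (cost H m (pc (b i)) - 2) :=
          single_le_sum (f := fun i => cost H m (pc (b i)) - 2) (fun _ _ => Nat.zero_le _)
            (mem_erase.2 ⟨hjs, mem_univ s⟩)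
        omega
  · have h3 : insert P0 Pp ⊆ P := by
      intro A hA
      rw [mem_insert] at hA
      rcases hA with rfl | hA
      · exact hP0
      · exact (mem_filter.1 hA).1
    have h4 : ∑ A ∈ insert P0 Pp, cost H m A ≤ ∑ A ∈ P, cost H m A := sum_le_sum_of_subset h3
    rw [sum_insert hP0p] at h4
    have h5 : 2 * Pp.card ≤ ∑ A ∈ Pp, cost H m A := by
      calc 2 * Pp.card = ∑ _A ∈ Pp, 2 := by rw [sum_const, smul_eq_mul, mul_comm]
        _ ≤ _ := sum_le_sum fun A hA => hc2' A (mem_filter.1 hA).2
    have h6 : c ≤ Pp.card := by rw [← hJc]; exact hle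
    omega

end

/-- the components of the hypergraph -/
theorem isComp {V E : Type} [Fintype V] [DecidableEq V] [Fintype E] (H : E → Finset V) :
    IsComp H (adjGraph H).connectedComponentMk := by
  constructor
  · intro e u hu v hv
    by_cases h : u = v
    · rw [h]
    · apply SimpleGraph.ConnectedComponent.sound
      apply SimpleGraph.Adj.reachable
      unfold adjGraph
      rw [SimpleGraph.fromRel_adj]
      exact ⟨h, Or.inl ⟨e, hu, hv⟩⟩
  · intro X hX u v huv hu
    have h1 : (adjGraph H).Reachable u v := SimpleGraph.ConnectedComponent.exact huv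
    obtain ⟨w⟩ := h1
    clear huv
    induction w with
    | nil => exact hu
    | cons hadj w ih =>
      apply ih
      unfold adjGraph at hadj
      rw [SimpleGraph.fromRel_adj] at hadj
      rcases hadj.2 with ⟨e, h2, h3⟩ | ⟨e, h2, h3⟩
      · exact cut_zero' hX e _ h2 _ h3 hu
      · exact cut_zero' hX e _ h3 _ h2 hu

end LINK

open LINK in
theorem stmt_LINK (hIMP : Stmt_IMP) (hPI : Stmt_PIECES) : Stmt_LINK := by
  classical
  intro k R0
  set β := R0 + 3 with hβ
  set N0 := (k + 1) ^ (2 * β + 1) * β + 2 with hN0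
  refine ⟨2 * N0, ?_⟩
  intro V E _ _ _ H m R hk hR hF h1 hM
  let K := (adjGraph H).ConnectedComponent
  have : Fintype K := Fintype.ofFinite K
  let cm : V → K := (adjGraph H).connectedComponentMk
  have hI : IsComp H cm := isComp H
  let S : Finset K := univ.filter fun C => 0 < mC m cm C
  have hSc : S.card ≤ numPos H m := by
    unfold numPos
    rw [Nat.card_eq_fintype_card, Fintype.card_subtype]
    apply card_le_card
    intro C hC
    rw [mem_filter] at hC ⊢
    obtain ⟨a, ha, ha1⟩ := first (m := m) (cm := cm) (C := C) hC.2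
    exact ⟨hC.1, a, ha, ha1⟩
  have hmS : ∀ v, 0 < m v → cm v ∈ S := by
    intro v hv
    rw [mem_filter]
    refine ⟨mem_univ _, ?_⟩
    have : m v ≤ mC m cm (cm v) :=
      single_le_sum (f := m) (fun _ _ => Nat.zero_le _) (mem_filter.2 ⟨mem_univ v, rfl⟩)
    omega
  by_cases hc1 : S.card ≤ 1
  · refine ⟨0, Fin.elim0, m, Nat.zero_le _, ?_, ?_, ?_⟩
    · intro v; simp
    · intro X
      have := hF X
      omega
    · rintro X ⟨u, huX, hu⟩ ⟨v, hvX, hv⟩
      by_contra h0
      have h2 : cut H X = 0 := by omega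
      have h3 : cm u = cm v := card_le_one.1 hc1 _ (hmS u hu) _ (hmS v hv)
      exact hvX (hI.clo X h2 u v h3 huX)
  set c := S.card with hc
  have hc2 : 2 ≤ c := by omega
  let e : S ≃ Fin c := S.equivFin
  let comp : Fin c → K := fun i => (e.symm i).1
  have hinj : Function.Injective comp := by
    intro i j hij
    exact e.symm.injective (Subtype.ext hij)
  have hmc : ∀ i, 2 ≤ mC m cm (comp i) := by
    intro i
    have h2 := mC_ne_one hI h1 (comp i)
    have h3 := (e.symm i).2
    rw [mem_filter] at h3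
    have h4 : 0 < mC m cm (comp i) := h3.2
    omega
  have htot : ∑ v, m v = ∑ i, mC m cm (comp i) := by
    have e1 : ∑ v, m v = ∑ C : K, mC m cm C := (sum_fiberwise univ cm m).symm
    have e2 : ∑ C : K, mC m cm C = ∑ C ∈ S, mC m cm C := by
      symm
      apply sum_subset (subset_univ S)
      intro C _ hC
      rw [mem_filter] at hC
      push Not at hC
      have := hC (mem_univ C)
      omega
    rw [e1, e2, ← sum_coe_sort S (fun C => mC m cm C)]
    exact (Equiv.sum_comp e.symm (fun x : S => mC m cm x.1)).symm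
  -- the choice of the half-edges
  obtain ⟨a, b, hcyc, hdich⟩ : ∃ a b : Fin c → V, Cyc H m cm comp a b ∧
      ((∃ T : Finset (Fin c), 3 ≤ T.card ∧ ∀ i ∈ T, 3 ≤ mC m cm (comp i)) ∨
      ∃ s, ∀ P : Finset V, a s ∈ P → b s ∈ P → Conn H P → R0 + 3 < cost H m P) := by
    choose a0 b0 h2 using fun i => pair (hmc i)
    by_cases hT : 3 ≤ (univ.filter fun i => 3 ≤ mC m cm (comp i)).card
    · exact ⟨a0, b0, ⟨hinj, fun i => (h2 i).1, fun i => (h2 i).2.1, fun i => (h2 i).2.2.1,
        fun i => (h2 i).2.2.2.1, fun i => (h2 i).2.2.2.2⟩,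
        Or.inl ⟨_, hT, fun i hi => (mem_filter.1 hi).2⟩⟩
    · obtain ⟨s, hs⟩ : ∃ s, N0 ≤ mC m cm (comp s) := by
        by_contra hcon
        push Not at hcon
        have h3 : ∑ i, mC m cm (comp i) ≤ ∑ i : Fin c, (2 + if 3 ≤ mC m cm (comp i) then
            (N0 - 1) else 0) := by
          apply sum_le_sum
          intro i _
          have := hcon i
          split_ifs <;> omega
        rw [sum_add_distrib, sum_const, card_univ, Fintype.card_fin, smul_eq_mul,
          ← sum_filter, sum_const, smul_eq_mul] at h3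
        have h4 : (univ.filter fun i => 3 ≤ mC m cm (comp i)).card * (N0 - 1) ≤ 2 * (N0 - 1) :=
          Nat.mul_le_mul_right _ (by omega)
        omega
      obtain ⟨a1, b1, h3⟩ := pairS hIMP (H := H) (β := β) hk hs
      refine ⟨Function.update a0 s a1, Function.update b0 s b1, ⟨hinj, ?_, ?_, ?_, ?_, ?_⟩,
        Or.inr ⟨s, ?_⟩⟩
      · intro i
        by_cases his : i = s
        · subst his; rw [Function.update_self]; exact h3.1
        · rw [Function.update_of_ne his]; exact (h2 i).1
      · intro i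
        by_cases his : i = s
        · subst his; rw [Function.update_self]; exact h3.2.1
        · rw [Function.update_of_ne his]; exact (h2 i).2.1
      · intro i
        by_cases his : i = s
        · subst his; rw [Function.update_self]; exact h3.2.2.1
        · rw [Function.update_of_ne his]; exact (h2 i).2.2.1
      · intro i
        by_cases his : i = s
        · subst his; rw [Function.update_self]; exact h3.2.2.2.1
        · rw [Function.update_of_ne his]; exact (h2 i).2.2.2.1
      · intro i
        by_cases his : i = s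
        · subst his; rw [Function.update_self, Function.update_self]; exact h3.2.2.2.2.1
        · rw [Function.update_of_ne his, Function.update_of_ne his]; exact (h2 i).2.2.2.2
      · rw [Function.update_self, Function.update_self]
        exact h3.2.2.2.2.2
  set σ := finRotate c with hσ
  have hbinj : Function.Injective b := by
    intro i j hij
    apply hinj
    rw [← hcyc.cb, ← hcyc.cb, hij]
  have hainj : Function.Injective a := by
    intro i j hij
    apply hinj
    rw [← hcyc.ca, ← hcyc.ca, hij]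
  have hm' : ∀ v, (univ.filter fun i => b i = v).card + (univ.filter fun i => a (σ i) = v).card ≤
      m v := by
    intro v
    have hb1 : (univ.filter fun i => b i = v).card ≤ 1 := by
      rw [card_le_one]
      intro i hi j hj
      rw [mem_filter] at hi hj
      exact hbinj (hi.2.trans hj.2.symm)
    have ha1 : (univ.filter fun i => a (σ i) = v).card ≤ 1 := by
      rw [card_le_one]
      intro i hi j hj
      rw [mem_filter] at hi hj
      exact σ.injective (hainj (hi.2.trans hj.2.symm))
    rcases (univ.filter fun i => b i = v).eq_empty_or_nonempty with h2 | ⟨i, hi⟩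
    · rw [h2, card_empty, zero_add]
      rcases (univ.filter fun i => a (σ i) = v).eq_empty_or_nonempty with h3 | ⟨j, hj⟩
      · rw [h3, card_empty]; exact Nat.zero_le _
      · rw [mem_filter] at hj
        have := hcyc.ma (σ j)
        rw [hj.2] at this
        omega
    · rw [mem_filter] at hi
      have h4 := hcyc.mb i
      rw [hi.2] at h4
      rcases (univ.filter fun i => a (σ i) = v).eq_empty_or_nonempty with h3 | ⟨j, hj⟩
      · rw [h3, card_empty]; omega
      · rw [mem_filter] at hj
        have h5 : σ j = i := by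
          apply hinj
          rw [← hcyc.ca, ← hcyc.cb, hj.2, hi.2]
        rw [h5] at hj
        have h6 := hcyc.ab i (by rw [hj.2, hi.2])
        rw [hj.2] at h6
        omega
  refine ⟨c, fun i => (b i, a (σ i)), fun v => m v - (univ.filter fun i => b i = v).card -
    (univ.filter fun i => a (σ i) = v).card, hSc, ?_, ?_, ?_⟩
  · intro v
    have := hm' v
    dsimp only
    omega
  · intro X
    have h2 := main hPI hR hF h1 hI hc2 hcyc hdich X
    rw [← hσ] at h2
    have e1 : ∑ v ∈ X, (univ.filter fun i => b i = v).card = (univ.filter fun i => b i ∈ X).card := by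
      rw [card_eq_sum_card_fiberwise (s := univ.filter fun i => b i ∈ X) (t := X) (f := b)
        (fun i hi => by simpa using hi)]
      apply sum_congr rfl
      intro v hv
      congr 1
      ext i
      simp only [mem_filter, mem_univ, true_and]
      constructor
      · rintro rfl; exact ⟨hv, rfl⟩
      · exact fun h => h.2
    have e2 : ∑ v ∈ X, (univ.filter fun i => a (σ i) = v).card =
        (univ.filter fun i => a (σ i) ∈ X).card := by
      rw [card_eq_sum_card_fiberwise (s := univ.filter fun i => a (σ i) ∈ X) (t := X)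
        (f := fun i => a (σ i)) (fun i hi => by simpa using hi)]
      apply sum_congr rfl
      intro v hv
      congr 1
      ext i
      simp only [mem_filter, mem_univ, true_and]
      constructor
      · rintro rfl; exact ⟨hv, rfl⟩
      · exact fun h => h.2
    have e3 : ∑ v ∈ X, m v = ∑ v ∈ X, (m v - (univ.filter fun i => b i = v).card -
        (univ.filter fun i => a (σ i) = v).card) + (univ.filter fun i => b i ∈ X).card +
        (univ.filter fun i => a (σ i) ∈ X).card := by
      rw [← e1, ← e2, ← sum_add_distrib, ← sum_add_distrib]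
      apply sum_congr rfl
      intro v _
      have := hm' v
      omega
    have e4 : (univ.filter fun i => b i ∈ X).card + (univ.filter fun i => a (σ i) ∈ X).card =
        (univ.filter fun i => ¬(b i ∈ X ↔ a (σ i) ∈ X)).card +
        2 * (univ.filter fun i => b i ∈ X ∧ a (σ i) ∈ X).card := by
      rw [card_filter, card_filter, card_filter, card_filter, mul_sum, ← sum_add_distrib,
        ← sum_add_distrib]
      apply sum_congr rfl
      intro i _
      by_cases hb : b i ∈ X <;> by_cases ha : a (σ i) ∈ X <;> simp [hb, ha]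
    have e5 : gcut (fun i => (b i, a (σ i))) X =
        (univ.filter fun i => ¬(b i ∈ X ↔ a (σ i) ∈ X)).card := rfl
    rw [e5]
    rw [e3] at h2
    beta_reduce
    omega
  · rintro X ⟨u, huX, hu⟩ ⟨v, hvX, hv⟩
    by_contra h0
    have h2 : cut H X = 0 := by omega
    have h3 : gcut (fun i => (b i, a (σ i))) X = 0 := by omega
    have h4 : ∀ i, b i ∈ X ↔ a (σ i) ∈ X := by
      intro i
      unfold gcut at h3
      rw [card_eq_zero, filter_eq_empty_iff] at h3
      exact not_not.1 (h3 (mem_univ i))
    have hfind : ∀ w, 0 < m w → ∃ i, comp i = cm w := by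
      intro w hw
      exact ⟨e ⟨cm w, hmS w hw⟩, by simp [comp]⟩
    have hmm : ∀ w, 0 < m w - (univ.filter fun i => b i = w).card -
      (univ.filter fun i => a (σ i) = w).card → 0 < m w := fun w hw => by omega
    obtain ⟨i, hi⟩ := hfind u (hmm u hu)
    obtain ⟨j, hj⟩ := hfind v (hmm v hv)
    have h5 : ∀ i, a i ∈ X := by
      apply cyc hc2 (fun i => a i ∈ X) i
      · exact hI.clo X h2 u (a i) (by rw [hcyc.ca, hi]) huX
      · intro l hl
        exact (h4 l).1 (hI.clo X h2 (a l) (b l) (by rw [hcyc.ca, hcyc.cb]) hl)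
    exact hvX (hI.clo X h2 (a j) v (by rw [hcyc.ca, hj]) (h5 j))

end Pool.Agent.Work.MP_2183d4_lc_66
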