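import Pool.Agent.Work.MP_2183d4_lc_66.Interface

/-! # Block MAC: the macroscopic structure -/

set_option autoImplicit false
set_option linter.unusedSectionVars false

namespace Pool.Agent.Work.MP_2183d4_lc_66

open Finset

namespace MACB

theorem count (B Z : ℕ) (hZ : 0 < Z) (hB : 0 < B) (a b : ℕ) :
    (univ.filter fun i : Fin (B * B * Z) =>
        (i : ℕ) / (B * Z) = a ∧ (i : ℕ) % B = b).card = if a < B ∧ b < B then Z else 0 := by
  have hBZ : 0 < B * Z := Nat.mul_pos hB hZ
  split_ifs with h
  · obtain ⟨ha, hb⟩ := h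
    have hlt : ∀ t, t < Z → a * (B * Z) + (b + B * t) < B * B * Z := by
      intro t ht
      have h1 : b + B * t < B * Z := by
        calc b + B * t < B + B * t := by omega
          _ = B * (t + 1) := by ring
          _ ≤ B * Z := Nat.mul_le_mul_left _ ht
      calc a * (B * Z) + (b + B * t) < a * (B * Z) + B * Z := by omega
        _ = (a + 1) * (B * Z) := by ring
        _ ≤ B * (B * Z) := Nat.mul_le_mul_right _ ha
        _ = B * B * Z := by ring
    have hdiv : ∀ t, t < Z → (a * (B * Z) + (b + B * t)) / (B * Z) = a := by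
      intro t ht
      have h1 : b + B * t < B * Z := by
        calc b + B * t < B + B * t := by omega
          _ = B * (t + 1) := by ring
          _ ≤ B * Z := Nat.mul_le_mul_left _ ht
      rw [mul_comm a, Nat.mul_add_div hBZ, Nat.div_eq_of_lt h1, add_zero]
    have hmod : ∀ t, (a * (B * Z) + (b + B * t)) % B = b := by
      intro t
      have : a * (B * Z) + (b + B * t) = b + B * (a * Z + t) := by ring
      rw [this, Nat.add_mul_mod_self_left, Nat.mod_eq_of_lt hb]
    have h1 : (range Z).card = (univ.filter fun i : Fin (B * B * Z) =>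
        (i : ℕ) / (B * Z) = a ∧ (i : ℕ) % B = b).card := by
      refine Finset.card_bij (fun t ht => ⟨a * (B * Z) + (b + B * t), hlt t (mem_range.1 ht)⟩)
        ?_ ?_ ?_
      · intro t ht
        exact mem_filter.2 ⟨mem_univ _, hdiv t (mem_range.1 ht), hmod t⟩
      · intro t _ t' _ h1
        have h2 : a * (B * Z) + (b + B * t) = a * (B * Z) + (b + B * t') := congrArg Fin.val h1
        have h3 : B * t = B * t' := by omega
        exact Nat.eq_of_mul_eq_mul_left hB h3
      · intro i hi
        obtain ⟨-, h2, h3⟩ := mem_filter.1 hi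
        have h4 : (i : ℕ) = B * Z * a + (i : ℕ) % (B * Z) := by
          rw [← h2]; exact (Nat.div_add_mod _ _).symm
        have h5 : (i : ℕ) % (B * Z) < B * Z := Nat.mod_lt _ hBZ
        have h6 : ((i : ℕ) % (B * Z)) % B = b := by
          rw [Nat.mod_mul_right_mod, h3]
        have h7 : (i : ℕ) % (B * Z) = B * (((i : ℕ) % (B * Z)) / B) + b := by
          conv_lhs => rw [← Nat.div_add_mod ((i : ℕ) % (B * Z)) B]
          rw [h6]
        refine ⟨((i : ℕ) % (B * Z)) / B, mem_range.2 (Nat.div_lt_of_lt_mul h5), ?_⟩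
        apply Fin.ext
        change a * (B * Z) + (b + B * (((i : ℕ) % (B * Z)) / B)) = (i : ℕ)
        rw [mul_comm a]
        omega
    rw [← h1, card_range]
  · rw [Finset.card_eq_zero, Finset.filter_eq_empty_iff]
    rintro i - ⟨h1, h2⟩
    apply h
    constructor
    · rw [← h1]
      apply Nat.div_lt_of_lt_mul
      calc (i : ℕ) < B * B * Z := i.2
        _ = B * Z * B := by ring
    · rw [← h2]
      exact Nat.mod_lt _ hB

theorem const_of_no_change (s : ℕ → Prop) (x n : ℕ)
    (h : ∀ i, x ≤ i → i < x + n → (s i ↔ s (i + 1))) : ∀ k, k ≤ n → (s x ↔ s (x + k)) := by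
  intro k
  induction k with
  | zero => intro _; rfl
  | succ k ih =>
    intro hk
    rw [ih (by omega), h (x + k) (by omega) (by omega)]
    rfl

/-- a mixed window contains a change -/
theorem mixed (s : ℕ → Prop) (l m q : ℕ) (hl : 0 < l) (hq : q < m) (i j : ℕ) (hi : i / l = q)
    (hj : j / l = q) (hsi : s i) (hsj : ¬ s j) :
    ∃ c, c < m * l - 1 ∧ ¬ (s c ↔ s (c + 1)) ∧ c / l = q := by
  by_contra hc
  have h1 : ∀ c, q * l ≤ c → c < q * l + (l - 1) → (s c ↔ s (c + 1)) := by
    intro c h2 h3
    by_contra h4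
    refine hc ⟨c, ?_, h4, ?_⟩
    · have h5 : (q + 1) * l ≤ m * l := Nat.mul_le_mul_right _ hq
      have h6 : (q + 1) * l = q * l + l := by ring
      omega
    · refine Nat.div_eq_of_lt_le h2 ?_
      have h6 : (q + 1) * l = q * l + l := by ring
      omega
  have h2 : ∀ k, k / l = q → (s (q * l) ↔ s k) := by
    intro k hk
    have h3 : q * l ≤ k := by rw [← hk]; exact Nat.div_mul_le_self k l
    have h4 : k < q * l + l := by
      have := Nat.lt_div_mul_add (a := k) hl
      rw [hk] at this
      exact this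
    have h5 := const_of_no_change s (q * l) (l - 1) h1 (k - q * l) (by omega)
    rwa [Nat.add_sub_cancel' h3] at h5
  exact hsj ((h2 j hj).1 ((h2 i hi).2 hsi))

theorem card_fin_filter (M : ℕ) (s : ℕ → Prop) [DecidablePred s] :
    (univ.filter fun i : Fin M => s (i : ℕ)).card = ((range M).filter s).card := by
  refine Finset.card_bij (fun i _ => (i : ℕ)) ?_ ?_ ?_
  · intro i hi
    exact mem_filter.2 ⟨mem_range.2 i.2, (mem_filter.1 hi).2⟩
  · intro i _ j _ h
    exact Fin.ext h
  · intro i hi
    obtain ⟨h1, h2⟩ := mem_filter.1 hi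
    exact ⟨⟨i, mem_range.1 h1⟩, mem_filter.2 ⟨mem_univ _, h2⟩, rfl⟩

theorem macro_thm (B Z J R0 : ℕ) (hZ : 0 < Z) (hB : 0 < B) (hBJ : 2 * (J + R0) ≤ B)
    (σ : Fin (B * B * Z) → Fin (B * B * Z)) (hσ : ∀ i, (σ i : ℕ) / (B * Z) = (i : ℕ) % B)
    (s : ℕ → Prop) [DecidablePred s]
    (hJ : ((range (B * B * Z - 1)).filter fun i => ¬(s i ↔ s (i + 1))).card ≤ J)
    (h1 : (J + 1) * B ≤ (univ.filter fun i : Fin (B * B * Z) => s (i : ℕ)).card)
    (h2 : 2 * (univ.filter fun i : Fin (B * B * Z) => s (i : ℕ)).card ≤ B * B * Z) :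
    R0 ≤ (univ.filter fun i : Fin (B * B * Z) => s (i : ℕ) ∧ ¬ s (σ i : ℕ)).card := by
  classical
  have hBZ : 0 < B * Z := Nat.mul_pos hB hZ
  rw [card_fin_filter] at h1 h2
  set Ch := (range (B * B * Z - 1)).filter fun i => ¬(s i ↔ s (i + 1)) with hCh
  set S := (range (B * B * Z)).filter s with hS
  -- a window of length `B` in `s`
  obtain ⟨q, hq, hqs⟩ : ∃ q, q < B * Z ∧ ∀ i, i / B = q → s i := by
    by_contra hc
    push Not at hc
    have h3 : S ⊆ (Ch.image (fun i => i / B)).biUnion fun q => Finset.Ico (q * B) (q * B + B) := by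
      intro i hi
      obtain ⟨h4, h5⟩ := mem_filter.1 hi
      have h4' := mem_range.1 h4
      have hq : i / B < B * Z := by
        apply Nat.div_lt_of_lt_mul
        calc i < B * B * Z := h4'
          _ = B * (B * Z) := by ring
      obtain ⟨j, hj, hj2⟩ := hc _ hq
      obtain ⟨c, hc1, hc2, hc3⟩ := mixed s B (B * Z) (i / B) hB hq i j rfl hj h5 hj2
      refine mem_biUnion.2 ⟨i / B, mem_image.2 ⟨c, mem_filter.2 ⟨mem_range.2 ?_, hc2⟩, hc3⟩, ?_⟩
      · have : B * Z * B = B * B * Z := by ring
        omega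
      · rw [mem_Ico]
        exact ⟨Nat.div_mul_le_self i B, Nat.lt_div_mul_add hB⟩
    have h4 := Finset.card_le_card h3
    have h5 : ((Ch.image (fun i => i / B)).biUnion fun q => Finset.Ico (q * B) (q * B + B)).card ≤
        (Ch.image (fun i => i / B)).card * B := by
      refine Finset.card_biUnion_le_card_mul _ _ _ fun q _ => ?_
      rw [Nat.card_Ico]
      omega
    have h6 : (Ch.image (fun i => i / B)).card * B ≤ J * B :=
      Nat.mul_le_mul_right _ (Finset.card_image_le.trans hJ)
    have h7 : (J + 1) * B = J * B + B := by ring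
    omega
  -- the points of the window
  have hlt : ∀ b, b < B → q * B + b < B * B * Z := by
    intro b hb
    have h3 : (q + 1) * B ≤ B * Z * B := Nat.mul_le_mul_right _ hq
    have h4 : (q + 1) * B = q * B + B := by ring
    have h5 : B * Z * B = B * B * Z := by ring
    omega
  set p : ℕ → Fin (B * B * Z) := fun b => if hb : b < B then ⟨q * B + b, hlt b hb⟩ else
    ⟨0, by positivity⟩ with hp
  have hpv : ∀ b, b < B → (p b : ℕ) = q * B + b := by
    intro b hb
    simp [hp, hb]
  have hps : ∀ b, b < B → s (p b : ℕ) := by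
    intro b hb
    apply hqs
    rw [hpv b hb, mul_comm, Nat.mul_add_div hB, Nat.div_eq_of_lt hb, add_zero]
  have hpσ : ∀ b, b < B → (σ (p b) : ℕ) / (B * Z) = b := by
    intro b hb
    rw [hσ, hpv b hb, mul_comm, Nat.mul_add_mod, Nat.mod_eq_of_lt hb]
  -- full blocks
  set F := (range B).filter fun b => ∀ i, i / (B * Z) = b → s i with hF
  have hFS : F.card * (B * Z) ≤ S.card := by
    have h3 : (F.biUnion fun b => Finset.Ico (b * (B * Z)) (b * (B * Z) + B * Z)) ⊆ S := by
      intro i hi
      obtain ⟨b, hb, hi⟩ := mem_biUnion.1 hi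
      rw [mem_Ico] at hi
      obtain ⟨hb1, hb2⟩ := mem_filter.1 hb
      have hb1' := mem_range.1 hb1
      have h4 : i / (B * Z) = b := by
        refine Nat.div_eq_of_lt_le hi.1 ?_
        rw [add_mul, one_mul]
        exact hi.2
      refine mem_filter.2 ⟨mem_range.2 ?_, hb2 i h4⟩
      have h5 : (b + 1) * (B * Z) ≤ B * (B * Z) := Nat.mul_le_mul_right _ hb1'
      have h6 : (b + 1) * (B * Z) = b * (B * Z) + B * Z := by ring
      have h7 : B * (B * Z) = B * B * Z := by ring
      omega
    have h4 : (F.biUnion fun b => Finset.Ico (b * (B * Z)) (b * (B * Z) + B * Z)).card =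
        F.card * (B * Z) := by
      rw [Finset.card_biUnion]
      · rw [Finset.sum_congr rfl (fun b _ => by rw [Nat.card_Ico, Nat.add_sub_cancel_left]),
          Finset.sum_const, smul_eq_mul]
      · intro b _ b' _ hbb
        rw [Function.onFun, Finset.disjoint_left]
        intro i hi hi'
        rw [mem_Ico] at hi hi'
        apply hbb
        have e1 : i / (B * Z) = b := by
          refine Nat.div_eq_of_lt_le hi.1 ?_
          rw [add_mul, one_mul]
          exact hi.2
        have e2 : i / (B * Z) = b' := by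
          refine Nat.div_eq_of_lt_le hi'.1 ?_
          rw [add_mul, one_mul]
          exact hi'.2
        rw [← e1, e2]
    rw [← h4]
    exact Finset.card_le_card h3
  have hF2 : 2 * F.card ≤ B := by
    have h3 : (2 * F.card) * (B * Z) ≤ B * (B * Z) := by
      calc (2 * F.card) * (B * Z) = 2 * (F.card * (B * Z)) := by ring
        _ ≤ 2 * S.card := Nat.mul_le_mul_left _ hFS
        _ ≤ B * B * Z := h2
        _ = B * (B * Z) := by ring
    exact Nat.le_of_mul_le_mul_right h3 hBZ
  -- blocks whose point is in `s`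
  have hMet : ((range B).filter fun b => s (σ (p b) : ℕ)).card ≤ F.card + J := by
    have h3 : ((range B).filter fun b => s (σ (p b) : ℕ)) ⊆ F ∪ Ch.image (fun i => i / (B * Z)) := by
      intro b hb
      obtain ⟨hb1, hb2⟩ := mem_filter.1 hb
      have hb1' := mem_range.1 hb1
      by_cases h4 : ∀ i, i / (B * Z) = b → s i
      · exact mem_union_left _ (mem_filter.2 ⟨hb1, h4⟩)
      · push Not at h4
        obtain ⟨j, hj, hj2⟩ := h4
        obtain ⟨c, hc1, hc2, hc3⟩ := mixed s (B * Z) B b hBZ hb1' _ j (hpσ b hb1') hj hb2 hj2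
        refine mem_union_right _ (mem_image.2 ⟨c, mem_filter.2 ⟨mem_range.2 ?_, hc2⟩, hc3⟩)
        have : B * (B * Z) = B * B * Z := by ring
        omega
    exact (Finset.card_le_card h3).trans ((Finset.card_union_le _ _).trans
      (Nat.add_le_add_left (Finset.card_image_le.trans hJ) _))
  have hsplit := Finset.card_filter_add_card_filter_not (s := range B)
    (fun b => s (σ (p b) : ℕ))
  rw [card_range] at hsplit
  have hinj : ((range B).filter fun b => ¬ s (σ (p b) : ℕ)).card ≤
      (univ.filter fun i : Fin (B * B * Z) => s (i : ℕ) ∧ ¬ s (σ i : ℕ)).card := by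
    refine Finset.card_le_card_of_injOn p ?_ ?_
    · intro b hb
      obtain ⟨hb1, hb2⟩ := mem_filter.1 (Finset.mem_coe.1 hb)
      exact Finset.mem_coe.2 (mem_filter.2 ⟨mem_univ _, hps b (mem_range.1 hb1), hb2⟩)
    · intro b hb b' hb' h
      have hb1 := mem_range.1 (mem_filter.1 (Finset.mem_coe.1 hb)).1
      have hb1' := mem_range.1 (mem_filter.1 (Finset.mem_coe.1 hb')).1
      have h3 := congrArg Fin.val h
      rw [hpv b hb1, hpv b' hb1'] at h3
      omega
  omega

end MACB

theorem stmt_MAC : Stmt_MAC := by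
  intro B Z J R0 hZ hB hBJ
  refine ⟨MACB.count B Z hZ hB, ?_⟩
  intro σ hσ s _ hJ h1 h2
  exact MACB.macro_thm B Z J R0 hZ hB hBJ σ hσ s hJ h1 h2

end Pool.Agent.Work.MP_2183d4_lc_66
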