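import Pool.Agent.Work.MP_2183d4_lc_66.Interface

/-! # Block MATCH: perfect matchings in which every edge is in no short closed walk -/

set_option autoImplicit false
set_option linter.unusedSectionVars false

namespace Pool.Agent.Work.MP_2183d4_lc_66

open Finset

namespace MATCHB

section
variable {T : Type} {A B : T → T → Prop} {a b c s t : T} {n m : ℕ}

theorem wk_mono (h : Wk A a b n) (hnm : n ≤ m) : Wk A a b m := by
  induction h generalizing m with
  | nil a n => exact Wk.nil a m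
  | cons h1 h2 ih =>
    obtain ⟨k, rfl⟩ := Nat.exists_eq_add_of_le hnm
    rw [Nat.add_right_comm]
    exact Wk.cons h1 (ih (Nat.le_add_right _ _))

theorem wk_imp (hAB : ∀ x y, A x y → B x y) (h : Wk A a b n) : Wk B a b n := by
  induction h with
  | nil a n => exact Wk.nil a n
  | cons h1 h2 ih => exact Wk.cons (hAB _ _ h1) ih

theorem wk_trans (h1 : Wk A a b n) (h2 : Wk A b c m) : Wk A a c (n + m) := by
  induction h1 with
  | nil a n => exact wk_mono h2 (Nat.le_add_left _ _)
  | cons h3 h4 ih =>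
    rw [Nat.add_right_comm]
    exact Wk.cons h3 (ih h2)

theorem wk_single (h : A a b) : Wk A a b 1 := Wk.cons h (Wk.nil b 0)

theorem wk_symm (hA : ∀ x y, A x y → A y x) (h : Wk A a b n) : Wk A b a n := by
  induction h with
  | nil a n => exact Wk.nil a n
  | cons h1 h2 ih => exact wk_trans ih (wk_single (hA _ _ h1))

/-- a walk which may use one additional edge `st` -/
theorem wk_edge (hB : ∀ x y, B x y → A x y ∨ (x = s ∧ y = t) ∨ (x = t ∧ y = s))
    (h : Wk B a b n) : Wk A a b n ∨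
      (∃ n1 n2, n1 + 1 + n2 ≤ n ∧ Wk A a s n1 ∧ Wk A t b n2) ∨
      (∃ n1 n2, n1 + 1 + n2 ≤ n ∧ Wk A a t n1 ∧ Wk A s b n2) := by
  induction h with
  | nil a n => exact Or.inl (Wk.nil a n)
  | @cons a b c n h1 h2 ih =>
    rcases hB _ _ h1 with h3 | ⟨rfl, rfl⟩ | ⟨rfl, rfl⟩
    · rcases ih with h4 | ⟨n1, n2, h5, h6, h7⟩ | ⟨n1, n2, h5, h6, h7⟩
      · exact Or.inl (Wk.cons h3 h4)
      · exact Or.inr (Or.inl ⟨n1 + 1, n2, by omega, Wk.cons h3 h6, h7⟩)
      · exact Or.inr (Or.inr ⟨n1 + 1, n2, by omega, Wk.cons h3 h6, h7⟩)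
    · rcases ih with h4 | ⟨n1, n2, h5, h6, h7⟩ | ⟨n1, n2, h5, h6, h7⟩
      · exact Or.inr (Or.inl ⟨0, n, by omega, Wk.nil _ 0, h4⟩)
      · exact Or.inr (Or.inl ⟨0, n2, by omega, Wk.nil _ 0, h7⟩)
      · exact Or.inl (wk_mono h7 (by omega))
    · rcases ih with h4 | ⟨n1, n2, h5, h6, h7⟩ | ⟨n1, n2, h5, h6, h7⟩
      · exact Or.inr (Or.inr ⟨0, n, by omega, Wk.nil _ 0, h4⟩)
      · exact Or.inl (wk_mono h7 (by omega))
      · exact Or.inr (Or.inr ⟨0, n2, by omega, Wk.nil _ 0, h7⟩)

end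

section
variable {T : Type} [Fintype T] [DecidableEq T] {N : T → T → Prop} {σ : T → T}

theorem ball_card {Δ : ℕ} (hN : ∀ a, ∃ F : Finset T, F.card ≤ Δ ∧ ∀ b, N a b → b ∈ F) (n : ℕ) :
    ∀ a, ∃ F : Finset T, F.card ≤ (Δ + 2) ^ n ∧ ∀ b, Wk (Gr N σ) a b n → b ∈ F := by
  induction n with
  | zero =>
    intro a
    refine ⟨{a}, by simp, fun b hb => ?_⟩
    cases hb with
    | nil => simp
  | succ n ih =>
    intro a
    obtain ⟨F, hF, hF2⟩ := hN a
    choose G hG hG2 using ih
    refine ⟨insert a ((insert (σ a) F).biUnion G), ?_, fun b hb => ?_⟩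
    · have h1 : ((insert (σ a) F).biUnion G).card ≤ (insert (σ a) F).card * (Δ + 2) ^ n :=
        Finset.card_biUnion_le_card_mul _ _ _ fun b _ => hG b
      have h2 : (insert (σ a) F).card ≤ Δ + 1 :=
        (Finset.card_insert_le _ _).trans (by omega)
      have h3 : 1 ≤ (Δ + 2) ^ n := Nat.one_le_pow _ _ (by omega)
      calc (insert a ((insert (σ a) F).biUnion G)).card
          ≤ ((insert (σ a) F).biUnion G).card + 1 := Finset.card_insert_le _ _
        _ ≤ (Δ + 1) * (Δ + 2) ^ n + (Δ + 2) ^ n :=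
            add_le_add (h1.trans (Nat.mul_le_mul_right _ h2)) h3
        _ = (Δ + 2) ^ (n + 1) := by ring
    · cases hb with
      | nil => exact Finset.mem_insert_self _ _
      | @cons _ x _ _ h1 h2 =>
        refine Finset.mem_insert_of_mem (Finset.mem_biUnion.2 ⟨x, ?_, hG2 x b h2⟩)
        rcases h1 with h1 | ⟨h1, -⟩
        · exact Finset.mem_insert_of_mem (hF2 x h1)
        · rw [← h1]; exact Finset.mem_insert_self _ _

end

section
variable {T : Type} {N : T → T → Prop} {σ : T → T}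

theorem gr_symm (hs : ∀ a, σ (σ a) = a) (hN : ∀ a b, N a b → N b a) :
    ∀ x y, Gr N σ x y → Gr N σ y x := by
  rintro x y (h | ⟨h1, h2⟩)
  · exact Or.inl (hN _ _ h)
  · exact Or.inr ⟨by rw [← h1, hs], h2.symm⟩

theorem grM_symm (hs : ∀ a, σ (σ a) = a) (hN : ∀ a b, N a b → N b a) (u : T) :
    ∀ x y, GrM N σ u x y → GrM N σ u y x := by
  rintro x y (h | ⟨h1, h2, h3, h4⟩)
  · exact Or.inl (hN _ _ h)
  · exact Or.inr ⟨by rw [← h1, hs], h2.symm, h4, h3⟩

theorem grM_le (u : T) : ∀ x y, GrM N σ u x y → Gr N σ x y := by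
  rintro x y (h | ⟨h1, h2, -, -⟩)
  · exact Or.inl h
  · exact Or.inr ⟨h1, h2⟩

theorem far_partner (hs : ∀ a, σ (σ a) = a) (hN : ∀ a b, N a b → N b a) {u : T} {L : ℕ}
    (h : ¬ Wk (GrM N σ u) u (σ u) L) : ¬ Wk (GrM N σ (σ u)) (σ u) (σ (σ u)) L := by
  intro h1
  apply h
  rw [hs] at h1
  refine wk_symm (grM_symm hs hN u) (wk_imp ?_ h1)
  rintro x y (h | ⟨e1, e2, e3, e4⟩)
  · exact Or.inl h
  · refine Or.inr ⟨e1, e2, ?_, ?_⟩
    · intro e5
      exact e4 (by rw [← e1, e5])
    · intro e5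
      exact e3 (by rw [← e5, ← e1, hs])

end

/-- partial matchings -/
structure PM {T K : Type} (cls : T → K) (ι : K → K) (N : T → T → Prop) (L : ℕ) (σ : T → T) :
    Prop where
  inv : ∀ a, σ (σ a) = a
  cl : ∀ a, σ a ≠ a → cls (σ a) = ι (cls a)
  far : FarMatch N σ L

section
variable {T K : Type} [Fintype T] [DecidableEq T] {cls : T → K} {ι : K → K}
  {N : T → T → Prop} {L : ℕ} {σ : T → T}

/-- Case 1: adding a pair -/
theorem add_pair (hι : ∀ κ, ι (ι κ) = κ) (hN : ∀ a b, N a b → N b a) (h : PM cls ι N L σ)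
    {u v : T} (hu : σ u = u) (hv : σ v = v) (huv : v ≠ u) (hc : cls v = ι (cls u))
    (hw : ¬ Wk (Gr N σ) u v L) :
    ∃ σ', PM cls ι N L σ' ∧ (univ.filter fun a => σ' a = a).card <
      (univ.filter fun a => σ a = a).card := by
  have hs := h.inv
  set τ : T → T := fun x => if x = u then v else if x = v then u else σ x with hτ
  have hτu : τ u = v := by simp [hτ]
  have hτv : τ v = u := by simp [hτ, huv]
  have hτo : ∀ x, x ≠ u → x ≠ v → τ x = σ x := by
    intro x h1 h2
    simp [hτ, h1, h2]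
  have hou : ∀ x, x ≠ u → σ x ≠ u := by
    intro x h1 h2
    apply h1
    rw [← hs x, h2, hu]
  have hov : ∀ x, x ≠ v → σ x ≠ v := by
    intro x h1 h2
    apply h1
    rw [← hs x, h2, hv]
  have hinv : ∀ a, τ (τ a) = a := by
    intro x
    by_cases h1 : x = u
    · rw [h1, hτu, hτv]
    · by_cases h2 : x = v
      · rw [h2, hτv, hτu]
      · rw [hτo x h1 h2, hτo _ (hou x h1) (hov x h2), hs]
  have hfaru : ¬ Wk (GrM N τ u) u (τ u) L := by
    intro h1
    rw [hτu] at h1
    apply hw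
    refine wk_imp ?_ h1
    rintro x y (h2 | ⟨h2, h3, h4, h5⟩)
    · exact Or.inl h2
    · have h6 : x ≠ v := by
        rintro rfl
        exact h5 (by rw [← h2, hτv])
      exact Or.inr ⟨by rw [← hτo x h4 h6, h2], h3⟩
  refine ⟨τ, ⟨hinv, ?_, ?_⟩, ?_⟩
  · intro x hx
    by_cases h1 : x = u
    · rw [h1, hτu, hc]
    · by_cases h2 : x = v
      · rw [h2, hτv, hc, hι]
      · rw [hτo x h1 h2] at hx ⊢
        exact h.cl x hx
  · intro x hx
    by_cases h1 : x = u
    · rw [h1]; exact hfaru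
    · by_cases h2 : x = v
      · have := far_partner hinv hN hfaru
        rw [hτu] at this
        rw [h2]
        exact this
      · rw [hτo x h1 h2] at hx ⊢
        intro h3
        have hsub : ∀ p q, GrM N τ x p q → GrM N σ x p q ∨ (p = u ∧ q = v) ∨ (p = v ∧ q = u) := by
          rintro p q (h4 | ⟨h4, h5, h6, h7⟩)
          · exact Or.inl (Or.inl h4)
          · by_cases hp : p = u
            · subst hp
              exact Or.inr (Or.inl ⟨rfl, by rw [← h4, hτu]⟩)
            · by_cases hp2 : p = v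
              · subst hp2
                exact Or.inr (Or.inr ⟨rfl, by rw [← h4, hτv]⟩)
              · exact Or.inl (Or.inr ⟨by rw [← hτo p hp hp2, h4], h5, h6, h7⟩)
        have hG := gr_symm (N := N) hs hN
        have hxe : Gr N σ x (σ x) := Or.inr ⟨rfl, hx.symm⟩
        rcases wk_edge hsub h3 with h4 | ⟨n1, n2, h5, h6, h7⟩ | ⟨n1, n2, h5, h6, h7⟩
        · exact h.far x hx h4
        · apply hw
          have h8 := wk_symm hG (wk_imp (grM_le x) h6)
          have h9 := wk_symm hG (wk_imp (grM_le x) h7)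
          exact wk_mono (wk_trans (wk_trans h8 (wk_single hxe)) h9) h5
        · apply hw
          have h8 := wk_imp (grM_le x) h7
          have h9 := wk_imp (grM_le x) h6
          exact wk_mono (wk_trans (wk_trans h8 (wk_single (hG _ _ hxe))) h9) (by omega)
  · refine Finset.card_lt_card (Finset.ssubset_iff_of_subset ?_ |>.2 ⟨u, ?_, ?_⟩)
    · intro x hx
      rw [Finset.mem_filter] at hx ⊢
      refine ⟨Finset.mem_univ _, ?_⟩
      have h1 : x ≠ u := by
        rintro rfl
        rw [hτu] at hx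
        exact huv hx.2
      have h2 : x ≠ v := by
        rintro rfl
        rw [hτv] at hx
        exact huv hx.2.symm
      rw [← hτo x h1 h2]
      exact hx.2
    · simp [hu]
    · simp [hτu, huv]

/-- Case 2: switching -/
theorem switch_pair (hι : ∀ κ, ι (ι κ) = κ) (hN : ∀ a b, N a b → N b a) (h : PM cls ι N L σ)
    {u v c : T} (hu : σ u = u) (hv : σ v = v) (huv : v ≠ u) (hcv : cls v = ι (cls u))
    (hcc : cls c = ι (cls u)) (hcu : ¬ Wk (Gr N σ) c u (L + 1))
    (hcv' : ¬ Wk (Gr N σ) c v (L + 1)) (hcm : σ c ≠ c) :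
    ∃ σ', PM cls ι N L σ' ∧ (univ.filter fun a => σ' a = a).card <
      (univ.filter fun a => σ a = a).card := by
  have hs := h.inv
  have hG := gr_symm (N := N) hs hN
  set d := σ c with hd
  have hσd : σ d = c := by rw [hd, hs]
  have hcu0 : c ≠ u := by
    rintro rfl
    exact hcu (Wk.nil _ _)
  have hcv0 : c ≠ v := by
    rintro rfl
    exact hcv' (Wk.nil _ _)
  have hdu0 : d ≠ u := by
    intro h1
    apply hcu0
    rw [← hσd, h1, hu]
  have hdv0 : d ≠ v := by
    intro h1
    apply hcv0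
    rw [← hσd, h1, hv]
  have hcld : cls d = cls u := by
    rw [hd, h.cl c hcm, hcc, hι]
  have hcd : Gr N σ c d := Or.inr ⟨hd.symm, hcm.symm⟩
  have hfarc : ¬ Wk (GrM N σ c) c d L := h.far c hcm
  set τ : T → T := fun x => if x = u then c else if x = c then u else if x = v then d else
    if x = d then v else σ x with hτ
  have hτu : τ u = c := by simp [hτ]
  have hτc : τ c = u := by simp [hτ, hcu0]
  have hτv : τ v = d := by simp [hτ, huv, hcv0.symm]
  have hτd : τ d = v := by simp [hτ, hdu0, hcm, hdv0]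
  have hτo : ∀ x, x ≠ u → x ≠ c → x ≠ v → x ≠ d → τ x = σ x := by
    intro x h1 h2 h3 h4
    simp [hτ, h1, h2, h3, h4]
  have hou : ∀ x, x ≠ u → σ x ≠ u := by
    intro x h1 h2
    apply h1
    rw [← hs x, h2, hu]
  have hov : ∀ x, x ≠ v → σ x ≠ v := by
    intro x h1 h2
    apply h1
    rw [← hs x, h2, hv]
  have hoc : ∀ x, x ≠ d → σ x ≠ c := by
    intro x h1 h2
    apply h1
    rw [← hs x, h2]
  have hod : ∀ x, x ≠ c → σ x ≠ d := by
    intro x h1 h2
    apply h1
    rw [← hs x, h2, hσd]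
  have hinv : ∀ a, τ (τ a) = a := by
    intro x
    by_cases h1 : x = u
    · rw [h1, hτu, hτc]
    by_cases h2 : x = c
    · rw [h2, hτc, hτu]
    by_cases h3 : x = v
    · rw [h3, hτv, hτd]
    by_cases h4 : x = d
    · rw [h4, hτd, hτv]
    rw [hτo x h1 h2 h3 h4, hτo _ (hou x h1) (hoc x h4) (hov x h3) (hod x h2), hs]
  -- the graph without `cd`
  have hG0 := grM_symm (N := N) hs hN c
  have hfaru : ¬ Wk (GrM N τ u) u (τ u) L := by
    intro h1
    rw [hτu] at h1
    have hsub : ∀ p q, GrM N τ u p q → GrM N σ c p q ∨ (p = v ∧ q = d) ∨ (p = d ∧ q = v) := by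
      rintro p q (h2 | ⟨h2, h3, h4, h5⟩)
      · exact Or.inl (Or.inl h2)
      · by_cases hp1 : p = c
        · subst hp1
          exact absurd (by rw [← h2, hτc]) h5
        by_cases hp2 : p = v
        · subst hp2
          exact Or.inr (Or.inl ⟨rfl, by rw [← h2, hτv]⟩)
        by_cases hp3 : p = d
        · subst hp3
          exact Or.inr (Or.inr ⟨rfl, by rw [← h2, hτd]⟩)
        rw [hτo p h4 hp1 hp2 hp3] at h2
        exact Or.inl (Or.inr ⟨h2, h3, hp1, by rw [← h2]; exact hoc p hp3⟩)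
    rcases wk_edge hsub h1 with h4 | ⟨n1, n2, h5, h6, h7⟩ | ⟨n1, n2, h5, h6, h7⟩
    · exact hcu (wk_symm hG (wk_mono (wk_imp (grM_le c) h4) (by omega)))
    · exact hfarc (wk_mono (wk_symm hG0 h7) (by omega))
    · exact hcv' (wk_symm hG (wk_mono (wk_imp (grM_le c) h7) (by omega)))
  have hfarv : ¬ Wk (GrM N τ v) v (τ v) L := by
    intro h1
    rw [hτv] at h1
    have hsub : ∀ p q, GrM N τ v p q → GrM N σ c p q ∨ (p = u ∧ q = c) ∨ (p = c ∧ q = u) := by
      rintro p q (h2 | ⟨h2, h3, h4, h5⟩)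
      · exact Or.inl (Or.inl h2)
      · by_cases hp1 : p = d
        · subst hp1
          exact absurd (by rw [← h2, hτd]) h5
        by_cases hp2 : p = u
        · subst hp2
          exact Or.inr (Or.inl ⟨rfl, by rw [← h2, hτu]⟩)
        by_cases hp3 : p = c
        · subst hp3
          exact Or.inr (Or.inr ⟨rfl, by rw [← h2, hτc]⟩)
        rw [hτo p hp2 hp3 h4 hp1] at h2
        exact Or.inl (Or.inr ⟨h2, h3, hp3, by rw [← h2]; exact hoc p hp1⟩)
    rcases wk_edge hsub h1 with h4 | ⟨n1, n2, h5, h6, h7⟩ | ⟨n1, n2, h5, h6, h7⟩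
    · refine hcv' (wk_symm hG (wk_trans (wk_imp (grM_le c) h4) (wk_single (hG _ _ hcd))))
    · exact hfarc (wk_mono h7 (by omega))
    · exact hcv' (wk_symm hG (wk_mono (wk_imp (grM_le c) h6) (by omega)))
  refine ⟨τ, ⟨hinv, ?_, ?_⟩, ?_⟩
  · intro x hx
    by_cases h1 : x = u
    · rw [h1, hτu, hcc]
    by_cases h2 : x = c
    · rw [h2, hτc, hcc, hι]
    by_cases h3 : x = v
    · rw [h3, hτv, hcld, hcv, hι]
    by_cases h4 : x = d
    · rw [h4, hτd, hcld, hcv]
    rw [hτo x h1 h2 h3 h4] at hx ⊢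
    exact h.cl x hx
  · intro x hx
    by_cases h1 : x = u
    · rw [h1]; exact hfaru
    by_cases h2 : x = c
    · have := far_partner hinv hN hfaru
      rw [hτu] at this
      rw [h2]
      exact this
    by_cases h3 : x = v
    · rw [h3]; exact hfarv
    by_cases h4 : x = d
    · have := far_partner hinv hN hfarv
      rw [hτv] at this
      rw [h4]
      exact this
    rw [hτo x h1 h2 h3 h4] at hx ⊢
    intro hwk
    set y := σ x with hy
    have hσy : σ y = x := by rw [hy, hs]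
    have hxc : x ≠ c := h2
    have hyc : y ≠ c := hoc x h4
    -- the graph without `cd` and `xy`
    let G1 : T → T → Prop := fun p q => N p q ∨ (σ p = q ∧ p ≠ q ∧ (p ≠ c ∧ q ≠ c) ∧
      (p ≠ x ∧ p ≠ y))
    let G1u : T → T → Prop := fun p q => G1 p q ∨ (p = u ∧ q = c) ∨ (p = c ∧ q = u)
    have hG1s : ∀ p q, G1 p q → G1 q p := by
      rintro p q (h5 | ⟨h5, h6, ⟨h7, h8⟩, h9, h10⟩)
      · exact Or.inl (hN _ _ h5)
      · refine Or.inr ⟨by rw [← h5, hs], h6.symm, ⟨h8, h7⟩, ?_, ?_⟩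
        · intro h11
          apply h10
          rw [← hs p, h5, h11]
        · intro h11
          apply h9
          rw [← hs p, h5, h11, hσy]
    have hG1us : ∀ p q, G1u p q → G1u q p := by
      rintro p q (h5 | ⟨h5, h6⟩ | ⟨h5, h6⟩)
      · exact Or.inl (hG1s _ _ h5)
      · exact Or.inr (Or.inr ⟨h6, h5⟩)
      · exact Or.inr (Or.inl ⟨h6, h5⟩)
    have hG1G0 : ∀ p q, G1 p q → GrM N σ c p q := by
      rintro p q (h5 | ⟨h5, h6, ⟨h7, h8⟩, h9, h10⟩)
      · exact Or.inl h5
      · exact Or.inr ⟨h5, h6, h7, h8⟩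
    have hG1G : ∀ p q, G1 p q → Gr N σ p q := fun p q h5 => grM_le c p q (hG1G0 p q h5)
    have hG1x : ∀ p q, G1 p q → GrM N σ x p q := by
      rintro p q (h5 | ⟨h5, h6, ⟨h7, h8⟩, h9, h10⟩)
      · exact Or.inl h5
      · refine Or.inr ⟨h5, h6, h9, ?_⟩
        intro h11
        apply h10
        rw [← hs p, h5, h11]
    have hxy0 : GrM N σ c x y := Or.inr ⟨hy.symm, hx.symm, hxc, hyc⟩
    have hxy : Gr N σ x y := grM_le c _ _ hxy0
    have hsub : ∀ p q, GrM N τ x p q → G1u p q ∨ (p = v ∧ q = d) ∨ (p = d ∧ q = v) := by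
      rintro p q (h5 | ⟨h5, h6, h7, h8⟩)
      · exact Or.inl (Or.inl (Or.inl h5))
      · by_cases hp1 : p = u
        · subst hp1
          exact Or.inl (Or.inr (Or.inl ⟨rfl, by rw [← h5, hτu]⟩))
        by_cases hp2 : p = c
        · subst hp2
          exact Or.inl (Or.inr (Or.inr ⟨rfl, by rw [← h5, hτc]⟩))
        by_cases hp3 : p = v
        · subst hp3
          exact Or.inr (Or.inl ⟨rfl, by rw [← h5, hτv]⟩)
        by_cases hp4 : p = d
        · subst hp4
          exact Or.inr (Or.inr ⟨rfl, by rw [← h5, hτd]⟩)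
        rw [hτo p hp1 hp2 hp3 hp4] at h5
        refine Or.inl (Or.inl (Or.inr ⟨h5, h6, ⟨hp2, by rw [← h5]; exact hoc p hp4⟩, h7, ?_⟩))
        intro h9
        apply h8
        rw [← h5, h9, hσy]
    have hsubu : ∀ p q, G1u p q → G1 p q ∨ (p = u ∧ q = c) ∨ (p = c ∧ q = u) := fun p q h5 => h5
    -- part (B)
    have hB : ∀ a b : T, GrM N σ c a b → ∀ n1 n2, n1 + 1 + n2 ≤ L → Wk G1u a v n1 →
        Wk G1u d b n2 → False := by
      intro a b hab n1 n2 hn hav hdb
      have hdb' : Wk G1 d b n2 := by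
        rcases wk_edge hsubu hdb with h5 | ⟨m1, m2, h5, h6, h7⟩ | ⟨m1, m2, h5, h6, h7⟩
        · exact h5
        · exact absurd (wk_mono (wk_trans (wk_single hcd) (wk_imp hG1G h6)) (by omega)) hcu
        · exact absurd (wk_mono (wk_symm hG0 (wk_imp hG1G0 h6)) (by omega)) hfarc
      rcases wk_edge hsubu hav with h5 | ⟨m1, m2, h5, h6, h7⟩ | ⟨m1, m2, h5, h6, h7⟩
      · -- v → a – b → d – c
        have e1 := wk_symm hG (wk_imp hG1G h5)
        have e2 := wk_symm hG (wk_imp hG1G hdb')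
        have e3 := wk_trans (wk_trans (wk_trans e1 (wk_single (grM_le c _ _ hab))) e2)
          (wk_single (hG _ _ hcd))
        exact hcv' (wk_symm hG (wk_mono e3 (by omega)))
      · exact hcv' (wk_mono (wk_imp hG1G h7) (by omega))
      · have e1 := wk_symm hG0 (wk_imp hG1G0 h6)
        have e2 := wk_symm hG0 (wk_imp hG1G0 hdb')
        exact hfarc (wk_mono (wk_trans (wk_trans e1 (wk_single hab)) e2) (by omega))
    rcases wk_edge hsub hwk with h5 | ⟨n1, n2, h5, h6, h7⟩ | ⟨n1, n2, h5, h6, h7⟩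
    · rcases wk_edge hsubu h5 with h6 | ⟨n1, n2, h6, h7, h8⟩ | ⟨n1, n2, h6, h7, h8⟩
      · exact h.far x hx (wk_imp hG1x h6)
      · -- x → u, c → y
        have e1 := wk_symm hG (wk_imp hG1G h7)
        have e2 := wk_symm hG (wk_imp hG1G h8)
        exact hcu (wk_symm hG (wk_mono (wk_trans (wk_trans e1 (wk_single hxy)) e2) (by omega)))
      · -- x → c, u → y
        have e1 := wk_symm hG (wk_imp hG1G h7)
        have e2 := wk_symm hG (wk_imp hG1G h8)
        exact hcu (wk_mono (wk_trans (wk_trans e1 (wk_single hxy)) e2) (by omega))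
    · exact hB x y hxy0 n1 n2 h5 h6 h7
    · exact hB y x (hG0 _ _ hxy0) n2 n1 (by omega) (wk_symm hG1us h7) (wk_symm hG1us h6)
  · refine Finset.card_lt_card (Finset.ssubset_iff_of_subset ?_ |>.2 ⟨u, ?_, ?_⟩)
    · intro x hx
      rw [Finset.mem_filter] at hx ⊢
      refine ⟨Finset.mem_univ _, ?_⟩
      have h1 : x ≠ u := by
        rintro rfl
        rw [hτu] at hx
        exact hcu0 hx.2
      have h2 : x ≠ v := by
        rintro rfl
        rw [hτv] at hx
        exact hdv0 hx.2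
      have h3 : x ≠ c := by
        intro h4
        rw [h4, hτc] at hx
        exact hcu0 hx.2.symm
      have h4 : x ≠ d := by
        intro h4
        rw [h4, hτd] at hx
        exact hdv0 hx.2.symm
      rw [← hτo x h1 h3 h2 h4]
      exact hx.2
    · simp [hu]
    · simp [hτu, hcu0]

/-- another unmatched point of the right class -/
theorem exists_partner [DecidableEq K] (hι : ∀ κ, ι (ι κ) = κ)
    (hcard : ∀ κ, (univ.filter fun a => cls a = κ).card = (univ.filter fun a => cls a = ι κ).card)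
    (heven : ∀ κ, ι κ = κ → Even (univ.filter fun a => cls a = κ).card)
    (h : PM cls ι N L σ) {u : T} (hu : σ u = u) :
    ∃ v, v ≠ u ∧ σ v = v ∧ cls v = ι (cls u) := by
  have hs := h.inv
  have hcl : ∀ a, σ a ≠ a → σ (σ a) ≠ σ a := by
    intro a h1
    rw [hs]
    exact h1.symm
  -- matched and unmatched points of a class
  have hsplit : ∀ κ, (univ.filter fun a => cls a = κ).card =
      (univ.filter fun a => cls a = κ ∧ σ a = a).card +
      (univ.filter fun a => cls a = κ ∧ σ a ≠ a).card := by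
    intro κ
    have := Finset.card_filter_add_card_filter_not (s := univ.filter fun a => cls a = κ)
      (fun a => σ a = a)
    rw [Finset.filter_filter, Finset.filter_filter] at this
    exact this.symm
  by_cases hk : ι (cls u) = cls u
  · -- even
    have h1 : Even (univ.filter fun a => cls a = cls u ∧ σ a ≠ a).card := by
      rw [← ZMod.natCast_eq_zero_iff_even]
      have h2 : ∑ a ∈ univ.filter (fun a => cls a = cls u ∧ σ a ≠ a), (1 : ZMod 2) = 0 := by
        refine Finset.sum_involution (fun a _ => σ a) ?_ ?_ ?_ ?_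
        · intro a _
          decide
        · intro a ha _
          exact (Finset.mem_filter.1 ha).2.2
        · intro a ha
          have := (Finset.mem_filter.1 ha).2
          refine Finset.mem_filter.2 ⟨Finset.mem_univ _, ?_, hcl a this.2⟩
          rw [h.cl a this.2, this.1, hk]
        · intro a _
          exact hs a
      rw [Finset.sum_const, nsmul_eq_mul, mul_one] at h2
      exact h2
    have h3 := heven _ hk
    rw [hsplit, Nat.even_add] at h3
    have h4 : Even (univ.filter fun a => cls a = cls u ∧ σ a = a).card := h3.2 h1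
    have h5 : u ∈ univ.filter fun a => cls a = cls u ∧ σ a = a :=
      Finset.mem_filter.2 ⟨Finset.mem_univ _, rfl, hu⟩
    have h6 : 1 < (univ.filter fun a => cls a = cls u ∧ σ a = a).card := by
      have h7 : 0 < (univ.filter fun a => cls a = cls u ∧ σ a = a).card :=
        Finset.card_pos.2 ⟨u, h5⟩
      rcases h4 with ⟨r, hr⟩
      omega
    obtain ⟨v, hv, hvu⟩ := Finset.exists_mem_ne h6 u
    have := (Finset.mem_filter.1 hv).2
    exact ⟨v, hvu, this.2, by rw [this.1, hk]⟩
  · have h1 : (univ.filter fun a => cls a = cls u ∧ σ a ≠ a).card =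
        (univ.filter fun a => cls a = ι (cls u) ∧ σ a ≠ a).card := by
      refine Finset.card_bij (fun a _ => σ a) ?_ ?_ ?_
      · intro a ha
        have := (Finset.mem_filter.1 ha).2
        refine Finset.mem_filter.2 ⟨Finset.mem_univ _, ?_, hcl a this.2⟩
        rw [h.cl a this.2, this.1]
      · intro a _ b _ hab
        rw [← hs a, hab, hs]
      · intro b hb
        have := (Finset.mem_filter.1 hb).2
        refine ⟨σ b, Finset.mem_filter.2 ⟨Finset.mem_univ _, ?_, hcl b this.2⟩, hs b⟩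
        rw [h.cl b this.2, this.1, hι]
    have h2 := hcard (cls u)
    rw [hsplit, hsplit (ι (cls u)), h1] at h2
    have h5 : u ∈ univ.filter fun a => cls a = cls u ∧ σ a = a :=
      Finset.mem_filter.2 ⟨Finset.mem_univ _, rfl, hu⟩
    have h7 : 0 < (univ.filter fun a => cls a = cls u ∧ σ a = a).card :=
      Finset.card_pos.2 ⟨u, h5⟩
    have h8 : 0 < (univ.filter fun a => cls a = ι (cls u) ∧ σ a = a).card := by omega
    obtain ⟨v, hv⟩ := Finset.card_pos.1 h8
    have := (Finset.mem_filter.1 hv).2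
    refine ⟨v, ?_, this.2, this.1⟩
    rintro rfl
    exact hk this.1.symm

/-- fewer unmatched points -/
theorem improve [DecidableEq K] {Δ : ℕ} (hι : ∀ κ, ι (ι κ) = κ) (hN : ∀ a b, N a b → N b a)
    (hdeg : ∀ a, ∃ F : Finset T, F.card ≤ Δ ∧ ∀ b, N a b → b ∈ F)
    (hcard : ∀ κ, (univ.filter fun a => cls a = κ).card = (univ.filter fun a => cls a = ι κ).card)
    (heven : ∀ κ, ι κ = κ → Even (univ.filter fun a => cls a = κ).card)
    (hbig : ∀ a, 2 * (Δ + 2) ^ (L + 1) + 1 ≤ (univ.filter fun b => cls b = cls a).card)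
    (h : PM cls ι N L σ) {u : T} (hu : σ u = u) :
    ∃ σ', PM cls ι N L σ' ∧ (univ.filter fun a => σ' a = a).card <
      (univ.filter fun a => σ a = a).card := by
  have hG := gr_symm (N := N) h.inv hN
  obtain ⟨v, hvu, hv, hcv⟩ := exists_partner hι hcard heven h hu
  -- a point far from `u` and `v`
  obtain ⟨F1, hF1, hF1'⟩ := ball_card (σ := σ) hdeg (L + 1) u
  obtain ⟨F2, hF2, hF2'⟩ := ball_card (σ := σ) hdeg (L + 1) v
  have h1 : ((F1 ∪ F2)).card < (univ.filter fun b => cls b = cls v).card := by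
    have h2 := Finset.card_union_le F1 F2
    have h3 := hbig v
    omega
  obtain ⟨c, hc, hc2⟩ := Finset.exists_mem_notMem_of_card_lt_card h1
  have hcc : cls c = ι (cls u) := by rw [(Finset.mem_filter.1 hc).2, hcv]
  rw [Finset.mem_union, not_or] at hc2
  have hcu : ¬ Wk (Gr N σ) c u (L + 1) := fun h4 => hc2.1 (hF1' c (wk_symm hG h4))
  have hcv' : ¬ Wk (Gr N σ) c v (L + 1) := fun h4 => hc2.2 (hF2' c (wk_symm hG h4))
  by_cases hcm : σ c = c
  · refine add_pair hι hN h hu hcm ?_ hcc ?_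
    · rintro rfl
      exact hcu (Wk.nil _ _)
    · intro h4
      exact hcu (wk_mono (wk_symm hG h4) (by omega))
  · exact switch_pair hι hN h hu hv hvu hcv hcc hcu hcv' hcm

theorem exists_perfect [DecidableEq K] {Δ : ℕ} (hι : ∀ κ, ι (ι κ) = κ)
    (hN : ∀ a b, N a b → N b a)
    (hdeg : ∀ a, ∃ F : Finset T, F.card ≤ Δ ∧ ∀ b, N a b → b ∈ F)
    (hcard : ∀ κ, (univ.filter fun a => cls a = κ).card = (univ.filter fun a => cls a = ι κ).card)
    (heven : ∀ κ, ι κ = κ → Even (univ.filter fun a => cls a = κ).card)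
    (hbig : ∀ a, 2 * (Δ + 2) ^ (L + 1) + 1 ≤ (univ.filter fun b => cls b = cls a).card) (n : ℕ) :
    ∀ σ : T → T, PM cls ι N L σ → (univ.filter fun a => σ a = a).card = n →
      ∃ σ', PM cls ι N L σ' ∧ ∀ a, σ' a ≠ a := by
  induction n using Nat.strong_induction_on with
  | _ n ih =>
    intro σ h hn
    by_cases h0 : ∃ u, σ u = u
    · obtain ⟨u, hu⟩ := h0
      obtain ⟨σ', h1, h2⟩ := improve hι hN hdeg hcard heven hbig h hu
      exact ih _ (hn ▸ h2) σ' h1 rfl
    · exact ⟨σ, h, fun a ha => h0 ⟨a, ha⟩⟩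

end

end MATCHB

open MATCHB in
theorem stmt_MATCH : Stmt_MATCH := by
  intro Δ L
  refine ⟨2 * (Δ + 2) ^ (L + 1) + 1, ?_⟩
  intro T K _ _ _ cls ι N hι hN hdeg hcard heven hbig
  obtain ⟨σ, h, h0⟩ := exists_perfect (L := L) hι hN hdeg hcard heven hbig _ id
    ⟨fun _ => rfl, fun a ha => absurd rfl ha, fun a ha => absurd rfl ha⟩ rfl
  exact ⟨σ, h.inv, h0, fun a => h.cl a (h0 a), h.far⟩

end Pool.Agent.Work.MP_2183d4_lc_66
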