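import Pool.Agent.Work.MP_2183d4_lc_66.Interface

/-! # MP_2183d4_lc: MULT -/

set_option autoImplicit false

namespace Pool.Agent.Work.MP_2183d4_lc_66

open Finset

namespace MULT

theorem cut_compl {V E : Type} [Fintype V] [DecidableEq V] [Fintype E] (H : E → Finset V)
    (X : Finset V) : cut H Xᶜ = cut H X := by
  classical
  unfold cut
  congr 1
  ext e
  simp only [mem_filter, mem_univ, true_and, mem_compl, not_not]
  tauto

theorem gcut_compl {V : Type} [Fintype V] [DecidableEq V] {n : ℕ} (g : Fin n → V × V)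
    (X : Finset V) : gcut g Xᶜ = gcut g X := by
  unfold gcut
  congr 1
  ext i
  simp only [mem_filter, mem_univ, true_and, mem_compl]
  tauto

theorem card_fin_filter (M : ℕ) (p : ℕ → Prop) [DecidablePred p] :
    (univ.filter fun i : Fin M => p (i : ℕ)).card = ((range M).filter p).card := by
  rw [← Finset.card_map Fin.valEmbedding]
  congr 1
  ext i
  simp only [mem_map, mem_filter, mem_univ, true_and, Fin.valEmbedding_apply, mem_range]
  constructor
  · rintro ⟨j, hj, rfl⟩
    exact ⟨j.2, hj⟩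
  · rintro ⟨h1, h2⟩
    exact ⟨⟨i, h1⟩, h2, rfl⟩

theorem card_mem {V : Type} [DecidableEq V] (M : ℕ) (x : ℕ → V) (m : V → ℕ)
    (hx : ∀ v, ((range M).filter fun i => x i = v).card = m v) (Y : Finset V) :
    ((range M).filter fun i => x i ∈ Y).card = ∑ v ∈ Y, m v := by
  rw [Finset.card_eq_sum_card_fiberwise (f := x) (t := Y)
    (fun i hi => by simpa using (mem_filter.1 hi).2)]
  apply Finset.sum_congr rfl
  intro v hv
  rw [← hx v]
  congr 1
  ext i
  simp only [mem_filter, mem_range]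
  constructor
  · rintro ⟨⟨h1, _⟩, h2⟩
    exact ⟨h1, h2⟩
  · rintro ⟨h1, h2⟩
    exact ⟨⟨h1, h2 ▸ hv⟩, h2⟩

end MULT

theorem stmt_MULT (hIMP : Stmt_IMP) (hORD : Stmt_ORD) (hMATCH : Stmt_MATCH) (hMAC : Stmt_MAC)
    (hSMALL : Stmt_SMALL) (hCONV : Stmt_CONV) : Stmt_MULT := by
  classical
  intro k R0
  set J : ℕ := 2 * k * R0 with hJ
  set B : ℕ := 2 * (J + R0) + 1 with hB
  set C : ℕ := (J + 1) * B with hC
  set β : ℕ := C + R0 with hβ
  set Δ : ℕ := (k + 1) ^ (2 * β + 1) * β with hΔ
  obtain ⟨Z1, hZ1⟩ := hMATCH Δ C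
  have hB0 : 0 < B := by omega
  refine ⟨B, max Z1 (2 * C + 1), hB0, ?_⟩
  intro Z hZ hZe V E _ _ _ H m R hk hR hF hO hM
  have hZ1' : Z1 ≤ Z := le_trans (le_max_left _ _) hZ
  have hZ2' : 2 * C + 1 ≤ Z := le_trans (le_max_right _ _) hZ
  have hZ0 : 0 < Z := by omega
  have hZM : Z ≤ B * B * Z := Nat.le_mul_of_pos_left _ (Nat.mul_pos hB0 hB0)
  obtain ⟨x, hx, hxJ⟩ := hORD V E H m k hk hO (by rw [hM]; omega)
  rw [hM] at hx hxJ
  obtain ⟨hcls, hmac⟩ := hMAC B Z J R0 hZ0 hB0 (by omega)
  set M : ℕ := B * B * Z with hMdef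
  -- classes
  set cls : Fin M → ℕ × ℕ := fun i => ((i : ℕ) / (B * Z), (i : ℕ) % B) with hclsdef
  set ι : ℕ × ℕ → ℕ × ℕ := fun p => (p.2, p.1) with hι
  have hcl : ∀ κ : ℕ × ℕ, (univ.filter fun a : Fin M => cls a = κ).card
      = if κ.1 < B ∧ κ.2 < B then Z else 0 := by
    rintro ⟨a, b⟩
    rw [← hcls a b]
    congr 1
    ext i
    simp [hclsdef]
  obtain ⟨σ, hσσ, hσne, hσcls, hσfar⟩ := hZ1 (Fin M) (ℕ × ℕ) cls ι
    (CloseRel H m β (fun i : Fin M => x i)) (fun κ => rfl)
    (by
      rintro a b ⟨P, h1, h2, h3, h4⟩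
      exact ⟨P, h1, h3, h2, h4⟩)
    (by
      intro a
      obtain ⟨F, hFc, hFm, hFP⟩ := hIMP V E H m k β hk (x a)
      refine ⟨univ.filter fun b : Fin M => ∃ W ∈ F, x b ∈ W, ?_, ?_⟩
      · calc (univ.filter fun b : Fin M => ∃ W ∈ F, x b ∈ W).card
            ≤ (F.biUnion fun W => univ.filter fun b : Fin M => x b ∈ W).card := by
              apply Finset.card_le_card
              intro b hb
              simp only [mem_filter, mem_univ, true_and, mem_biUnion] at hb ⊢
              exact hb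
          _ ≤ ∑ W ∈ F, (univ.filter fun b : Fin M => x b ∈ W).card := Finset.card_biUnion_le
          _ ≤ ∑ W ∈ F, β := by
              apply Finset.sum_le_sum
              intro W hW
              rw [MULT.card_fin_filter M (fun i => x i ∈ W), MULT.card_mem M x m hx W]
              exact hFm W hW
          _ = F.card * β := by rw [Finset.sum_const, smul_eq_mul]
          _ ≤ Δ := Nat.mul_le_mul_right _ hFc
      · rintro b ⟨P, h1, h2, h3, h4⟩
        obtain ⟨W, hW, hPW⟩ := hFP P h2 h1 h4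
        simp only [mem_filter, mem_univ, true_and]
        exact ⟨W, hW, hPW h3⟩)
    (by
      rintro ⟨a, b⟩
      rw [hcl, hcl]
      simp only [hι]
      congr 1
      exact propext (and_comm))
    (by
      intro κ _
      rw [hcl]
      split_ifs
      · exact hZe
      · exact ⟨0, rfl⟩)
    (by
      intro a
      have h1 : 0 < (univ.filter fun b : Fin M => cls b = cls a).card :=
        Finset.card_pos.2 ⟨a, by simp⟩
      rw [hcl] at h1 ⊢
      split_ifs at h1 ⊢
      · exact hZ1'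
      · omega)
  obtain ⟨n, g, hn, hg⟩ := hCONV V M x σ hσσ hσne
  refine ⟨n, g, by rw [hn, hM], ?_⟩
  -- the inequality for sets with few half-edges
  have main : ∀ Y : Finset V, cut H Y < R0 → 2 * ∑ v ∈ Y, m v ≤ M → R Y ≤ cut H Y + gcut g Y := by
    intro Y hc hY
    rw [hg Y]
    by_cases hS : ∑ v ∈ Y, m v ≤ C
    · apply hSMALL V E H m R R0 C M x σ hR hF hO hx hσσ hσne hσfar Y hS
      by_contra hcon
      push Not at hcon
      have h1 : ∑ v, m v = ∑ v ∈ Y, m v + ∑ v ∈ Yᶜ, m v := (Finset.sum_add_sum_compl Y m).symm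
      have h2 : ∑ v ∈ Yᶜ, m v = 0 := Finset.sum_eq_zero fun v hv => by
        have := hcon v (by simpa using hv)
        omega
      omega
    · have hcard : (univ.filter fun i : Fin M => x (i : ℕ) ∈ Y).card = ∑ v ∈ Y, m v := by
        rw [MULT.card_fin_filter M (fun i => x i ∈ Y), MULT.card_mem M x m hx Y]
      have h1 := hmac σ (by
        intro i
        have := hσcls i
        simp only [hclsdef, hι, Prod.mk.injEq] at this
        exact this.1) (fun i => x i ∈ Y) (by
          refine le_trans (hxJ Y) ?_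
          rw [hJ]
          exact Nat.mul_le_mul_left _ hc.le) (by
          rw [hcard]
          omega) (by
          rw [hcard]
          exact hY)
      exact le_trans (hR.le Y) (le_trans h1 (Nat.le_add_left _ _))
  intro Y
  by_cases hc : R0 ≤ cut H Y
  · exact le_trans (hR.le Y) (le_trans hc (Nat.le_add_right _ _))
  · push Not at hc
    by_cases hY : 2 * ∑ v ∈ Y, m v ≤ M
    · exact main Y hc hY
    · have h1 : ∑ v, m v = ∑ v ∈ Y, m v + ∑ v ∈ Yᶜ, m v := (Finset.sum_add_sum_compl Y m).symm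
      have h2 := main Yᶜ (by rw [MULT.cut_compl]; exact hc) (by omega)
      rwa [hR.compl, MULT.cut_compl, MULT.gcut_compl] at h2

end Pool.Agent.Work.MP_2183d4_lc_66
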