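import Pool.Agent.Work.MP_2183d4_lc_66.Interface

/-!
# MP_2183d4_lc: block ORD (helper20). Listing of the half-edges with few changes.
-/

set_option autoImplicit false

namespace Pool.Agent.Work.MP_2183d4_lc_66

open Finset

namespace ORD

open Classical in
/-- number of changes in the sequence `s, t` -/
noncomputable def ch {V : Type} (Y : Finset V) : V → List V → ℕ
  | _, [] => 0
  | s, b :: t => (if (s ∈ Y ↔ b ∈ Y) then 0 else 1) + ch Y b t

open Classical in
/-- indicator of a crossing hyperedge -/
noncomputable def ind {V E : Type} (H : E → Finset V) (Y : Finset V) (e : E) : ℕ :=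
  if (∃ v ∈ H e, v ∈ Y) ∧ ∃ v ∈ H e, v ∉ Y then 1 else 0

section
variable {V E : Type}

theorem ch_nil (Y : Finset V) (s : V) : ch Y s [] = 0 := rfl

open Classical in
theorem ch_cons (Y : Finset V) (s b : V) (t : List V) :
    ch Y s (b :: t) = (if (s ∈ Y ↔ b ∈ Y) then 0 else 1) + ch Y b t := rfl

open Classical in
theorem ch_start (Y : Finset V) (a b : V) (t : List V) :
    ch Y b t ≤ (if (a ∈ Y ↔ b ∈ Y) then 0 else 1) + ch Y a t := by
  cases t with
  | nil => simp [ch]
  | cons c t =>
    unfold ch
    split_ifs <;> first | omega | (exfalso; tauto)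

open Classical in
theorem ins (t : List (V × E)) : ∀ (s u : V) (q : V × E), u ∈ s :: t.map Prod.fst →
    ∃ t' : List (V × E), t'.Perm (q :: t) ∧ ∀ Y : Finset V, ch Y s (t'.map Prod.fst) ≤
      ch Y s (t.map Prod.fst) + 2 * (if (u ∈ Y ↔ q.1 ∈ Y) then 0 else 1) := by
  have base : ∀ (t : List (V × E)) (s : V) (q : V × E), ∀ Y : Finset V,
      ch Y s ((q :: t).map Prod.fst) ≤
      ch Y s (t.map Prod.fst) + 2 * (if (s ∈ Y ↔ q.1 ∈ Y) then 0 else 1) := by
    intro t s q Y
    have h := ch_start Y s q.1 (t.map Prod.fst)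
    rw [List.map_cons, ch_cons]
    omega
  induction t with
  | nil =>
    intro s u q hu
    simp only [List.map_nil, List.mem_singleton] at hu
    subst hu
    exact ⟨[q], List.Perm.refl _, base [] u q⟩
  | cons p t ih =>
    intro s u q hu
    rw [List.mem_cons] at hu
    rcases hu with rfl | hu
    · exact ⟨q :: p :: t, List.Perm.refl _, base (p :: t) u q⟩
    · rw [List.map_cons] at hu
      obtain ⟨t', h1, h2⟩ := ih p.1 u q hu
      refine ⟨p :: t', (h1.cons p).trans (List.Perm.swap _ _ _), ?_⟩
      intro Y
      have h3 := h2 Y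
      rw [List.map_cons, List.map_cons, ch_cons, ch_cons]
      omega

/-- state of the growth -/
structure Good (H : E → Finset V) (v0 : V) (t : List (V × E)) : Prop where
  nd : (v0 :: t.map Prod.fst).Nodup
  mem : ∀ p ∈ t, p.1 ∈ H p.2
  le : ∀ Y : Finset V, ch Y v0 (t.map Prod.fst) ≤ 2 * (t.map fun p => ind H Y p.2).sum

theorem step {H : E → Finset V} {v0 : V} {t : List (V × E)} (h : Good H v0 t) (e : E) (u v : V)
    (hu : u ∈ H e) (hv : v ∈ H e) (hut : u ∈ v0 :: t.map Prod.fst)
    (hvt : v ∉ v0 :: t.map Prod.fst) :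
    ∃ t', Good H v0 t' ∧ t'.length = t.length + 1 := by
  classical
  obtain ⟨t', h1, h2⟩ := ins t v0 u (v, e) hut
  refine ⟨t', ⟨?_, ?_, ?_⟩, by rw [h1.length_eq, List.length_cons]⟩
  · have h3 : (v0 :: t'.map Prod.fst).Perm (v :: v0 :: t.map Prod.fst) := by
      have h4 : (t'.map Prod.fst).Perm (v :: t.map Prod.fst) := by
        have := h1.map Prod.fst
        rwa [List.map_cons] at this
      exact (h4.cons v0).trans (List.Perm.swap _ _ _)
    rw [h3.nodup_iff, List.nodup_cons]
    exact ⟨hvt, h.nd⟩
  · intro p hp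
    rw [h1.mem_iff, List.mem_cons] at hp
    rcases hp with rfl | hp
    · exact hv
    · exact h.mem p hp
  · intro Y
    have h3 : (t'.map fun p => ind H Y p.2).sum = ind H Y e + (t.map fun p => ind H Y p.2).sum := by
      rw [(h1.map _).sum_eq, List.map_cons, List.sum_cons]
    rw [h3]
    have h4 := h2 Y
    have h5 := h.le Y
    have h6 : (if (u ∈ Y ↔ v ∈ Y) then 0 else 1) ≤ ind H Y e := by
      by_cases h7 : (u ∈ Y ↔ v ∈ Y)
      · rw [if_pos h7]; exact Nat.zero_le _
      · rw [if_neg h7]
        unfold ind
        rw [if_pos]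
        by_cases h8 : u ∈ Y
        · exact ⟨⟨u, hu, h8⟩, ⟨v, hv, fun h9 => h7 ⟨fun _ => h9, fun _ => h8⟩⟩⟩
        · refine ⟨⟨v, hv, ?_⟩, ⟨u, hu, h8⟩⟩
          by_contra h9
          exact h7 ⟨fun h => absurd h h8, fun h => absurd h h9⟩
    dsimp only at h4
    omega

variable [Fintype V]

theorem grow {H : E → Finset V} {v0 : V} (n : ℕ) : ∀ t : List (V × E), Good H v0 t →
    Fintype.card V ≤ t.length + 1 + n →
    ∃ t', Good H v0 t' ∧ ∀ e, ∀ u ∈ H e, ∀ v ∈ H e, u ∈ v0 :: t'.map Prod.fst →
      v ∈ v0 :: t'.map Prod.fst := by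
  classical
  induction n with
  | zero =>
    intro t h hl
    refine ⟨t, h, ?_⟩
    intro e u _ v _ _
    have h1 : (v0 :: t.map Prod.fst).toFinset = univ := by
      rw [← card_eq_iff_eq_univ, List.toFinset_card_of_nodup h.nd]
      have h2 := h.nd.length_le_card
      rw [List.length_cons, List.length_map] at h2 ⊢
      omega
    rw [← List.mem_toFinset, h1]
    exact mem_univ _
  | succ n ih =>
    intro t h hl
    by_cases hc : ∀ e, ∀ u ∈ H e, ∀ v ∈ H e, u ∈ v0 :: t.map Prod.fst →
      v ∈ v0 :: t.map Prod.fst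
    · exact ⟨t, h, hc⟩
    · push Not at hc
      obtain ⟨e, u, hu, v, hv, hut, hvt⟩ := hc
      obtain ⟨t', h1, h2⟩ := step h e u v hu hv hut hvt
      exact ih t' h1 (by omega)

end

section
variable {V : Type}

/-- copies -/
def cop (m : V → ℕ) (l : List V) : List V := l.flatMap fun v => List.replicate (m v) v

theorem ch_rep (Y : Finset V) (s : V) (n : ℕ) (w : List V) :
    ch Y s (List.replicate n s ++ w) = ch Y s w := by
  induction n with
  | zero => simp
  | succ n ih =>
    rw [List.replicate_succ, List.cons_append]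
    conv_lhs => unfold ch
    rw [if_pos Iff.rfl, zero_add, ih]

open Classical in
theorem ch_rep_le (Y : Finset V) (s v : V) (n : ℕ) (w : List V) :
    ch Y s (List.replicate n v ++ w) ≤ (if (s ∈ Y ↔ v ∈ Y) then 0 else 1) + ch Y v w := by
  have h := ch_start Y v s (List.replicate n v ++ w)
  rw [ch_rep] at h
  refine h.trans (le_of_eq ?_)
  congr 1
  split_ifs <;> first | rfl | (exfalso; tauto)

theorem ch_cop (Y : Finset V) (m : V → ℕ) (t : List V) : ∀ s, ch Y s (cop m t) ≤ ch Y s t := by
  classical
  induction t with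
  | nil => intro s; exact le_refl _
  | cons v t ih =>
    intro s
    have h1 : cop m (v :: t) = List.replicate (m v) v ++ cop m t := by
      unfold cop; rw [List.flatMap_cons]
    rw [h1]
    refine (ch_rep_le Y s v (m v) (cop m t)).trans ?_
    conv_rhs => unfold ch
    have h2 := ih v
    omega

theorem count_cop [DecidableEq V] (m : V → ℕ) (l : List V) (hl : l.Nodup) (v : V) :
    (cop m l).count v = if v ∈ l then m v else 0 := by
  induction l with
  | nil => simp [cop]
  | cons a l ih =>
    have h1 : cop m (a :: l) = List.replicate (m a) a ++ cop m l := by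
      unfold cop; rw [List.flatMap_cons]
    rw [h1, List.count_append, ih (List.nodup_cons.1 hl).2, List.count_replicate]
    have h2 := (List.nodup_cons.1 hl).1
    by_cases hav : a = v
    · subst hav
      simp [h2]
    · have hva : ¬ v = a := fun h => hav h.symm
      simp [hav, hva]

/-- positions with value `v` -/
theorem count_pos [DecidableEq V] (l : List V) (d v : V) :
    ((range l.length).filter fun i => l.getD i d = v).card = l.count v := by
  induction l with
  | nil => simp
  | cons a l ih =>
    rw [card_filter, List.length_cons, sum_range_succ', List.count_cons, ← ih, card_filter]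
    simp

/-- number of changes in terms of positions -/
theorem chg_pos [DecidableEq V] (Y : Finset V) (l : List V) (d : V) : ∀ s,
    ((range l.length).filter fun i => ¬((s :: l).getD i d ∈ Y ↔ (s :: l).getD (i + 1) d ∈ Y)).card =
      ch Y s l := by
  induction l with
  | nil => intro s; simp [ch]
  | cons a l ih =>
    intro s
    rw [card_filter, List.length_cons, sum_range_succ', ← card_filter]
    have h1 : ((range l.length).filter fun i => ¬((s :: a :: l).getD (i + 1) d ∈ Y ↔
        (s :: a :: l).getD (i + 1 + 1) d ∈ Y)).card = ch Y a l := by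
      rw [← ih a]
      congr 1
    rw [h1]
    conv_rhs => unfold ch
    rw [add_comm]
    congr 1
    simp only [List.getD_cons_zero, List.getD_cons_succ]
    split_ifs <;> first | rfl | (exfalso; tauto)

end

end ORD

open ORD in
theorem stmt_ORD : Stmt_ORD := by
  classical
  intro V E _ _ _ H m k hk hone hpos
  obtain ⟨v0, hv0⟩ : ∃ v, 0 < m v := by
    by_contra hcon
    push Not at hcon
    have : ∑ v, m v = 0 := sum_eq_zero fun v _ => Nat.le_zero.1 (hcon v)
    omega
  have h0 : Good H v0 [] := ⟨by simp, by simp, by intro Y; simp [ch]⟩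
  obtain ⟨t, ht, hcl⟩ := grow (Fintype.card V) [] h0 (by simp)
  set l : List V := v0 :: t.map Prod.fst with hl
  have hall : ∀ v, 0 < m v → v ∈ l := by
    intro v hv
    by_contra hvl
    have h1 := hone l.toFinset ⟨v0, by simp [hl], hv0⟩ ⟨v, by simpa using hvl, hv⟩
    have h2 : cut H l.toFinset = 0 := by
      unfold cut
      rw [card_eq_zero, filter_eq_empty_iff]
      rintro e _ ⟨⟨u, hu, hul⟩, ⟨w, hw, hwl⟩⟩
      rw [List.mem_toFinset] at hul hwl
      exact hwl (hcl e u hu w hw hul)
    omega
  have hbd : ∀ Y : Finset V, ch Y v0 (t.map Prod.fst) ≤ 2 * k * cut H Y := by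
    intro Y
    have hndm : (t.map Prod.fst).Nodup := (List.nodup_cons.1 ht.nd).2
    have hnt : t.Nodup := List.Nodup.of_map _ hndm
    have h1 : (t.map fun p => ind H Y p.2).sum ≤ k * cut H Y := by
      rw [← List.sum_toFinset _ hnt]
      have e1 : ∑ p ∈ t.toFinset, ind H Y p.2 = (t.toFinset.filter fun p =>
          (∃ v ∈ H p.2, v ∈ Y) ∧ ∃ v ∈ H p.2, v ∉ Y).card := by
        rw [card_filter]
        apply sum_congr rfl
        intro p _
        unfold ind
        split_ifs <;> rfl
      rw [e1]
      unfold cut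
      apply card_le_mul_card_image_of_maps_to (f := Prod.snd)
      · intro p hp
        rw [mem_filter] at hp ⊢
        exact ⟨mem_univ _, hp.2⟩
      · intro e _
        refine le_trans ?_ (hk e)
        apply card_le_card_of_injOn Prod.fst
        · intro p hp
          rw [mem_coe, mem_filter, mem_filter, List.mem_toFinset] at hp
          have := ht.mem p hp.1.1
          rw [hp.2] at this
          exact this
        · intro p hp q hq hpq
          rw [mem_coe, mem_filter, mem_filter, List.mem_toFinset] at hp hq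
          exact List.inj_on_of_nodup_map hndm hp.1.1 hq.1.1 hpq
    have h2 := ht.le Y
    have h3 : 2 * k * cut H Y = 2 * (k * cut H Y) := by ring
    omega
  -- the sequence
  obtain ⟨n, hn⟩ : ∃ n, m v0 = n + 1 := ⟨m v0 - 1, by omega⟩
  have hcop : cop m l = v0 :: (List.replicate n v0 ++ cop m (t.map Prod.fst)) := by
    rw [hl]
    unfold cop
    rw [List.flatMap_cons, hn, List.replicate_succ, List.cons_append]
  have hcount : ∀ v, (cop m l).count v = m v := by
    intro v
    rw [count_cop m l ht.nd v]
    split_ifs with h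
    · rfl
    · by_contra h1
      exact h (hall v (by omega))
  have hlen : (cop m l).length = ∑ v, m v := by
    rw [← Multiset.coe_card, ← Multiset.sum_count_eq_card (s := univ) (fun a _ => mem_univ a)]
    apply sum_congr rfl
    intro v _
    rw [Multiset.coe_count, hcount]
  refine ⟨fun i => (cop m l).getD i v0, ?_, ?_⟩
  · intro v
    rw [← hlen, count_pos, hcount]
  · intro Y
    have h1 : (∑ v, m v) - 1 = (List.replicate n v0 ++ cop m (t.map Prod.fst)).length := by
      rw [← hlen, hcop, List.length_cons, Nat.add_sub_cancel]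
    rw [h1, hcop]
    refine (chg_pos Y (List.replicate n v0 ++ cop m (t.map Prod.fst)) v0 v0).le.trans ?_
    rw [ch_rep]
    exact (ch_cop Y m _ v0).trans (hbd Y)

end Pool.Agent.Work.MP_2183d4_lc_66
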