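import Pool.Agent.Work.MP_2183d4_lc_66.Interface

/-!
# MP_2183d4_lc: block PIECES
-/

set_option autoImplicit false
set_option linter.unusedSectionVars false

namespace Pool.Agent.Work.MP_2183d4_lc_66

open Finset

namespace PIECES

section
variable {V E : Type} [Fintype V] [DecidableEq V] [Fintype E]

/-- Two vertices of `Y` in a common hyperedge. -/
def adj (H : E → Finset V) (Y : Finset V) (u v : V) : Prop :=
  u ∈ Y ∧ v ∈ Y ∧ ∃ e, u ∈ H e ∧ v ∈ H e

open Classical in
/-- The piece of `Y` containing `v`. -/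
noncomputable def piece (H : E → Finset V) (Y : Finset V) (v : V) : Finset V :=
  Y.filter fun w => Relation.EqvGen (adj H Y) v w

theorem mem_piece {H : E → Finset V} {Y : Finset V} {v w : V} :
    w ∈ piece H Y v ↔ w ∈ Y ∧ Relation.EqvGen (adj H Y) v w := by
  classical
  simp [piece]

theorem piece_eq {H : E → Finset V} {Y : Finset V} {v w : V}
    (h : Relation.EqvGen (adj H Y) v w) : piece H Y v = piece H Y w := by
  ext z
  rw [mem_piece, mem_piece]
  constructor
  · rintro ⟨h1, h2⟩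
    exact ⟨h1, Relation.EqvGen.trans _ _ _ (Relation.EqvGen.symm _ _ h) h2⟩
  · rintro ⟨h1, h2⟩
    exact ⟨h1, Relation.EqvGen.trans _ _ _ h h2⟩

theorem piece_sub (H : E → Finset V) (Y : Finset V) (v : V) : piece H Y v ⊆ Y :=
  fun _ h => (mem_piece.1 h).1

theorem self_mem {H : E → Finset V} {Y : Finset V} {v : V} (hv : v ∈ Y) : v ∈ piece H Y v :=
  mem_piece.2 ⟨hv, Relation.EqvGen.refl _⟩

theorem piece_eq_of_mem {H : E → Finset V} {Y : Finset V} {v w : V} (h : w ∈ piece H Y v) :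
    piece H Y v = piece H Y w := piece_eq (mem_piece.1 h).2

theorem closed {H : E → Finset V} {Y A : Finset V}
    (hA : ∀ u w, u ∈ A → w ∉ A → adj H Y u w → False)
    {u w : V} (h : Relation.EqvGen (adj H Y) u w) : u ∈ A ↔ w ∈ A := by
  have hs : ∀ a b, adj H Y a b → adj H Y b a := fun a b ⟨h1, h2, e, h3, h4⟩ => ⟨h2, h1, e, h4, h3⟩
  induction h with
  | rel a b hab =>
    constructor
    · intro ha
      by_contra hb
      exact hA a b ha hb hab
    · intro hb
      by_contra ha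
      exact hA b a hb ha (hs _ _ hab)
  | refl a => exact Iff.rfl
  | symm a b _ ih => exact ih.symm
  | trans a b c _ _ ih1 ih2 => exact ih1.trans ih2

theorem conn_piece (H : E → Finset V) (Y : Finset V) {v : V} (_hv : v ∈ Y) :
    Conn H (piece H Y v) := by
  intro A hA hne hAne
  by_contra hcon
  push Not at hcon
  apply hAne
  apply Subset.antisymm hA
  obtain ⟨u, hu⟩ := hne
  have hcl : ∀ a b, a ∈ A → b ∉ A → adj H Y a b → False := by
    rintro a b ha hb ⟨ha1, hb1, e, he1, he2⟩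
    have hbp : b ∈ piece H Y v := by
      have h1 := hA ha
      rw [mem_piece] at h1 ⊢
      exact ⟨hb1, Relation.EqvGen.trans _ _ _ h1.2 (Relation.EqvGen.rel _ _ ⟨ha1, hb1, e, he1, he2⟩)⟩
    exact hb (hcon e ⟨a, he1, ha⟩ b he2 hbp)
  intro w hw
  have h1 := (mem_piece.1 (hA hu)).2
  have h2 := (mem_piece.1 hw).2
  exact (closed hcl (Relation.EqvGen.trans _ _ _ (Relation.EqvGen.symm _ _ h1) h2)).1 hu

open Classical in
/-- All the pieces. -/
noncomputable def pieces (H : E → Finset V) (Y : Finset V) : Finset (Finset V) :=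
  Y.image (piece H Y)

theorem mem_pieces {H : E → Finset V} {Y A : Finset V} :
    A ∈ pieces H Y ↔ ∃ v ∈ Y, piece H Y v = A := by
  classical
  simp [pieces]

theorem same_of_edge {H : E → Finset V} {Y A B : Finset V} (hA : A ∈ pieces H Y)
    (hB : B ∈ pieces H Y) (e : E) (h1 : ∃ v ∈ H e, v ∈ A) (h2 : ∃ v ∈ H e, v ∈ B) : A = B := by
  obtain ⟨a, ha, rfl⟩ := mem_pieces.1 hA
  obtain ⟨b, hb, rfl⟩ := mem_pieces.1 hB
  obtain ⟨u, hu, huA⟩ := h1
  obtain ⟨w, hw, hwB⟩ := h2
  rw [piece_eq_of_mem huA, piece_eq_of_mem hwB]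
  exact piece_eq (Relation.EqvGen.rel _ _
    ⟨piece_sub _ _ _ huA, piece_sub _ _ _ hwB, e, hu, hw⟩)

theorem disj {H : E → Finset V} {Y A B : Finset V} (hA : A ∈ pieces H Y)
    (hB : B ∈ pieces H Y) (hne : A ≠ B) : Disjoint A B := by
  rw [Finset.disjoint_left]
  intro v hvA hvB
  apply hne
  obtain ⟨a, ha, rfl⟩ := mem_pieces.1 hA
  obtain ⟨b, hb, rfl⟩ := mem_pieces.1 hB
  rw [piece_eq_of_mem hvA, piece_eq_of_mem hvB]

theorem cut_add (H : E → Finset V) (Y : Finset V) :
    cut H Y = ∑ A ∈ pieces H Y, cut H A := by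
  classical
  have h1 : (univ.filter fun e => (∃ v ∈ H e, v ∈ Y) ∧ ∃ v ∈ H e, v ∉ Y) =
      (pieces H Y).biUnion fun A => univ.filter fun e => (∃ v ∈ H e, v ∈ A) ∧ ∃ v ∈ H e, v ∉ A := by
    ext e
    simp only [mem_filter, mem_univ, true_and, mem_biUnion]
    constructor
    · rintro ⟨⟨v, hv, hvY⟩, ⟨w, hw, hwY⟩⟩
      exact ⟨piece H Y v, mem_pieces.2 ⟨v, hvY, rfl⟩, ⟨v, hv, self_mem hvY⟩,
        ⟨w, hw, fun h => hwY (piece_sub _ _ _ h)⟩⟩
    · rintro ⟨A, hA, ⟨v, hv, hvA⟩, ⟨w, hw, hwA⟩⟩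
      obtain ⟨a, ha, rfl⟩ := mem_pieces.1 hA
      refine ⟨⟨v, hv, piece_sub _ _ _ hvA⟩, ⟨w, hw, fun hwY => ?_⟩⟩
      have h3 : piece H Y a = piece H Y w := same_of_edge hA (mem_pieces.2 ⟨w, hwY, rfl⟩) e
        ⟨v, hv, hvA⟩ ⟨w, hw, self_mem hwY⟩
      rw [h3] at hwA
      exact hwA (self_mem hwY)
  unfold cut
  rw [show (univ.filter fun e => (∃ v ∈ H e, v ∈ Y) ∧ ∃ v ∈ H e, v ∉ Y).card =
      ((pieces H Y).biUnion fun A => univ.filter fun e =>
        (∃ v ∈ H e, v ∈ A) ∧ ∃ v ∈ H e, v ∉ A).card by rw [h1]]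
  rw [card_biUnion]
  intro A hA B hB hne
  rw [Function.onFun, Finset.disjoint_left]
  intro e he1 he2
  simp only [mem_filter, mem_univ, true_and] at he1 he2
  exact hne (same_of_edge hA hB e he1.1 he2.1)

theorem sum_add (H : E → Finset V) (Y : Finset V) (m : V → ℕ) :
    ∑ v ∈ Y, m v = ∑ A ∈ pieces H Y, ∑ v ∈ A, m v := by
  classical
  have h1 : Y = (pieces H Y).biUnion id := by
    ext v
    simp only [mem_biUnion, id]
    constructor
    · intro hv
      exact ⟨piece H Y v, mem_pieces.2 ⟨v, hv, rfl⟩, self_mem hv⟩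
    · rintro ⟨A, hA, hvA⟩
      obtain ⟨a, ha, rfl⟩ := mem_pieces.1 hA
      exact piece_sub _ _ _ hvA
  calc ∑ v ∈ Y, m v = ∑ v ∈ (pieces H Y).biUnion id, m v := by rw [← h1]
    _ = _ := by
      rw [sum_biUnion]
      · rfl
      · intro A hA B hB hne
        exact disj hA hB hne

theorem sup_le {R : Finset V → ℕ} (h0 : R ∅ = 0)
    (hun : ∀ A B, R (A ∪ B) ≤ max (R A) (R B)) (P : Finset (Finset V)) :
    R (P.sup id) ≤ P.sup R := by
  classical
  induction P using Finset.induction_on with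
  | empty => simp [h0]
  | insert A P _ ih =>
    rw [sup_insert, sup_insert]
    exact (hun _ _).trans (max_le_max le_rfl ih)

end

end PIECES

open PIECES in
theorem stmt_PIECES : Stmt_PIECES := by
  intro V E _ _ _ H Y
  classical
  have hY : Y = (pieces H Y).sup id := by
    apply le_antisymm
    · intro v hv
      rw [Finset.mem_sup]
      exact ⟨piece H Y v, mem_pieces.2 ⟨v, hv, rfl⟩, self_mem hv⟩
    · apply Finset.sup_le
      intro A hA
      obtain ⟨a, ha, rfl⟩ := mem_pieces.1 hA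
      exact piece_sub _ _ _
  have hsup : ∀ R : Finset V → ℕ, R ∅ = 0 → (∀ A B, R (A ∪ B) ≤ max (R A) (R B)) →
      R Y ≤ (pieces H Y).sup R := by
    intro R h0 hun
    conv_lhs => rw [hY]
    exact PIECES.sup_le h0 hun _
  refine ⟨pieces H Y, ?_, ?_, fun A hA B hB => disj hA hB, ?_, cut_add H Y, sum_add H Y, hsup, ?_⟩
  · intro A hA
    obtain ⟨a, ha, rfl⟩ := mem_pieces.1 hA
    exact ⟨⟨a, self_mem ha⟩, piece_sub _ _ _, conn_piece H Y ha⟩
  · intro v hv
    exact ⟨piece H Y v, mem_pieces.2 ⟨v, hv, rfl⟩, self_mem hv⟩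
  · intro A hA B hB hne e h1 h2
    exact hne (same_of_edge hA hB e h1 h2)
  · intro m R R0 hR hF hcost
    rcases (pieces H Y).eq_empty_or_nonempty with hP | hP
    · have h1 := hsup R hR.empty hR.union
      rw [hP] at h1 ⊢
      simp only [sup_empty, bot_eq_zero', Nat.le_zero_eq] at h1
      simp [h1]
    · obtain ⟨P0, hP0, hP0R⟩ := Finset.exists_mem_eq_sup (pieces H Y) hP R
      have h1 : R Y ≤ R P0 := by
        rw [← hP0R]
        exact hsup R hR.empty hR.union
      have h2 : cut H Y + ∑ v ∈ Y, m v = ∑ A ∈ pieces H Y, (cut H A + ∑ v ∈ A, m v) := by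
        rw [cut_add, sum_add H Y m, sum_add_distrib]
      have h3 : ∑ A ∈ pieces H Y, (cut H A + ∑ v ∈ A, m v) =
          (cut H P0 + ∑ v ∈ P0, m v) + ∑ A ∈ (pieces H Y).erase P0, (cut H A + ∑ v ∈ A, m v) :=
        (add_sum_erase _ _ hP0).symm
      have h4 : 2 * (((pieces H Y).erase P0).filter fun A => 0 < ∑ v ∈ A, m v).card ≤
          ∑ A ∈ (pieces H Y).erase P0, (cut H A + ∑ v ∈ A, m v) := by
        calc 2 * (((pieces H Y).erase P0).filter fun A => 0 < ∑ v ∈ A, m v).card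
            = ∑ A ∈ ((pieces H Y).erase P0).filter fun A => 0 < ∑ v ∈ A, m v, 2 := by
              rw [sum_const, smul_eq_mul, mul_comm]
          _ ≤ ∑ A ∈ ((pieces H Y).erase P0).filter fun A => 0 < ∑ v ∈ A, m v,
                (cut H A + ∑ v ∈ A, m v) := by
              apply sum_le_sum
              intro A hA
              rw [mem_filter, mem_erase] at hA
              exact hcost A hA.1.2 hA.2
          _ ≤ _ := sum_le_sum_of_subset (filter_subset _ _)
      have h5 : ((pieces H Y).filter fun A => 0 < ∑ v ∈ A, m v).card ≤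
          (((pieces H Y).erase P0).filter fun A => 0 < ∑ v ∈ A, m v).card + 1 := by
        have h6 : ((pieces H Y).filter fun A => 0 < ∑ v ∈ A, m v) ⊆
            insert P0 (((pieces H Y).erase P0).filter fun A => 0 < ∑ v ∈ A, m v) := by
          intro A hA
          rw [mem_filter] at hA
          rw [mem_insert, mem_filter, mem_erase]
          by_cases h : A = P0
          · exact Or.inl h
          · exact Or.inr ⟨⟨h, hA.1⟩, hA.2⟩
        exact (card_le_card h6).trans (card_insert_le _ _)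
      have h7 := hF P0
      omega

end Pool.Agent.Work.MP_2183d4_lc_66
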