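import Pool.Agent.Work.MP_2183d4_lc_66.Interface

/-!
# MP_2183d4_lc: block SMALL
-/

set_option autoImplicit false
set_option linter.unusedSectionVars false

namespace Pool.Agent.Work.MP_2183d4_lc_66

open Finset

namespace SMALL

section forest
variable {S K : Type} [Fintype S] [DecidableEq S] [DecidableEq K]

/-- Same piece, or matched inside `W`. -/
def G (pc : S → K) (τ : S → S) (W : Finset S) : SimpleGraph S :=
  SimpleGraph.fromRel fun a b => pc a = pc b ∨ (τ a = b ∧ a ∈ W)

theorem G_mono (pc : S → K) (τ : S → S) {W W' : Finset S} (h : W' ⊆ W) :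
    G pc τ W' ≤ G pc τ W := by
  intro a b hab
  simp only [G, SimpleGraph.fromRel_adj] at hab ⊢
  obtain ⟨hne, hab⟩ := hab
  refine ⟨hne, ?_⟩
  rcases hab with (h1 | ⟨h1, h2⟩) | (h1 | ⟨h1, h2⟩)
  · exact Or.inl (Or.inl h1)
  · exact Or.inl (Or.inr ⟨h1, h h2⟩)
  · exact Or.inr (Or.inl h1)
  · exact Or.inr (Or.inr ⟨h1, h h2⟩)

theorem cc_lt (G1 G2 : SimpleGraph S) (hle : G1 ≤ G2) {a b : S} (h2 : G2.Reachable a b)
    (h1 : ¬ G1.Reachable a b) :
    Nat.card G2.ConnectedComponent < Nat.card G1.ConnectedComponent := by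
  classical
  rw [Nat.card_eq_fintype_card, Nat.card_eq_fintype_card]
  apply Fintype.card_lt_of_surjective_not_injective
    (SimpleGraph.ConnectedComponent.map (SimpleGraph.Hom.ofLE hle))
  · intro c
    induction c using SimpleGraph.ConnectedComponent.ind with
    | h v => exact ⟨G1.connectedComponentMk v, rfl⟩
  · intro hinj
    apply h1
    apply SimpleGraph.ConnectedComponent.exact
    apply hinj
    change G2.connectedComponentMk a = G2.connectedComponentMk b
    exact SimpleGraph.ConnectedComponent.sound h2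

theorem forest_aux (pc : S → K) (τ : S → S) (hτ : ∀ a, τ (τ a) = a)
    (hfar : ∀ a, τ a ≠ a → ∀ W : Finset S, a ∉ W → τ a ∉ W → ¬ (G pc τ W).Reachable a (τ a)) :
    ∀ (n : ℕ) (W : Finset S), W.card = n → (∀ a ∈ W, τ a ∈ W ∧ τ a ≠ a) →
      W.card + 2 * Nat.card (G pc τ W).ConnectedComponent ≤
        2 * Nat.card (G pc τ ∅).ConnectedComponent := by
  intro n
  induction n using Nat.strong_induction_on with
  | _ n ih =>
    intro W hWn hW
    rcases W.eq_empty_or_nonempty with h | ⟨a, ha⟩
    · subst h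
      simp
    · obtain ⟨h1, h2⟩ := hW a ha
      have hmem : τ a ∈ W.erase a := mem_erase.2 ⟨h2, h1⟩
      have hc1 : (W.erase a).card + 1 = W.card := card_erase_add_one ha
      have hc2 : ((W.erase a).erase (τ a)).card + 1 = (W.erase a).card := card_erase_add_one hmem
      have hcl : ∀ b ∈ (W.erase a).erase (τ a), τ b ∈ (W.erase a).erase (τ a) ∧ τ b ≠ b := by
        intro b hb
        rw [mem_erase, mem_erase] at hb
        obtain ⟨hb1, hb2, hb3⟩ := hb
        obtain ⟨hb4, hb5⟩ := hW b hb3
        refine ⟨?_, hb5⟩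
        rw [mem_erase, mem_erase]
        refine ⟨?_, ?_, hb4⟩
        · intro h
          apply hb2
          rw [← hτ b, h, hτ]
        · intro h
          apply hb1
          rw [← h, hτ]
      have h3 := ih _ (by omega) ((W.erase a).erase (τ a)) rfl hcl
      have h4 : Nat.card (G pc τ W).ConnectedComponent <
          Nat.card (G pc τ ((W.erase a).erase (τ a))).ConnectedComponent := by
        apply cc_lt _ _ (G_mono pc τ ((erase_subset _ _).trans (erase_subset _ _)))
          (a := a) (b := τ a)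
        · apply SimpleGraph.Adj.reachable
          rw [G, SimpleGraph.fromRel_adj]
          exact ⟨h2.symm, Or.inl (Or.inr ⟨rfl, ha⟩)⟩
        · apply hfar a h2
          · simp
          · simp
      omega

theorem cc_le (pc : S → K) (τ : S → S) (W : Finset S) :
    Nat.card (G pc τ W).ConnectedComponent ≤ (univ.image pc).card := by
  classical
  rw [Nat.card_eq_fintype_card, ← card_univ]
  apply card_le_card_of_injOn (fun c => pc (Quot.out c))
  · intro c _
    simp
  · intro c _ c' _ h
    have h2 : (G pc τ W).Reachable (Quot.out c) (Quot.out c') := by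
      by_cases he : Quot.out c = Quot.out c'
      · rw [he]
      · apply SimpleGraph.Adj.reachable
        simp only [G, SimpleGraph.fromRel_adj]
        exact ⟨he, Or.inl (Or.inl h)⟩
    have h3 : (G pc τ W).connectedComponentMk (Quot.out c) =
        (G pc τ W).connectedComponentMk (Quot.out c') := SimpleGraph.ConnectedComponent.sound h2
    have h4 : ∀ d : (G pc τ W).ConnectedComponent,
        (G pc τ W).connectedComponentMk (Quot.out d) = d := fun d => Quot.out_eq d
    exact (h4 c).symm.trans (h3.trans (h4 c'))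

/-- The number of matched points in a forest-like structure. -/
theorem forest [Nonempty S] (pc : S → K) (τ : S → S) (hτ : ∀ a, τ (τ a) = a)
    (hfar : ∀ a, τ a ≠ a → ∀ W : Finset S, a ∉ W → τ a ∉ W → ¬ (G pc τ W).Reachable a (τ a)) :
    (univ.filter fun a => τ a ≠ a).card + 2 ≤ 2 * (univ.image pc).card := by
  classical
  have h1 := forest_aux pc τ hτ hfar _ (univ.filter fun a => τ a ≠ a) rfl (by
    intro a ha
    rw [mem_filter] at ha
    refine ⟨?_, ha.2⟩
    rw [mem_filter, hτ]
    exact ⟨mem_univ _, ha.2.symm⟩)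
  have h2 := cc_le pc τ ∅
  have h3 : 0 < Nat.card (G pc τ (univ.filter fun a => τ a ≠ a)).ConnectedComponent := by
    rw [Nat.card_eq_fintype_card, Fintype.card_pos_iff]
    exact ⟨(G pc τ _).connectedComponentMk (Classical.arbitrary S)⟩
  omega

end forest

section walks
variable {T : Type}

theorem wk_mono {A : T → T → Prop} {a b : T} {n : ℕ} (h : Wk A a b n) :
    ∀ k, n ≤ k → Wk A a b k := by
  induction h with
  | nil a n => intro k _; exact Wk.nil a k
  | cons hab _ ih =>
    intro k hk
    obtain ⟨j, rfl⟩ : ∃ j, k = j + 1 := ⟨k - 1, by omega⟩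
    exact Wk.cons hab (ih j (by omega))

theorem wk_of_walk {S : Type} {Gr' : SimpleGraph S} (f : S → T) {A : T → T → Prop}
    (hA : ∀ u v, Gr'.Adj u v → A (f u) (f v)) {a b : S} (p : Gr'.Walk a b) :
    Wk A (f a) (f b) p.length := by
  induction p with
  | nil => exact Wk.nil _ _
  | cons h p ih =>
    rw [SimpleGraph.Walk.length_cons]
    exact Wk.cons (hA _ _ h) ih

end walks

theorem card_fin_eq {V : Type} [DecidableEq V] {m : V → ℕ} {M : ℕ} {x : ℕ → V}
    (hx : ∀ v, ((range M).filter fun i => x i = v).card = m v) (Y : Finset V) :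
    (univ.filter fun i : Fin M => x i ∈ Y).card = ∑ v ∈ Y, m v := by
  have h1 : (univ.filter fun i : Fin M => x i ∈ Y).card =
      ((range M).filter fun i => x i ∈ Y).card := by
    rw [card_filter, card_filter, sum_range]
  rw [h1, card_eq_sum_card_fiberwise (f := x) (t := Y) (s := (range M).filter fun i => x i ∈ Y)]
  · apply sum_congr rfl
    intro v hv
    rw [← hx v]
    congr 1
    ext i
    simp only [mem_filter]
    constructor
    · rintro ⟨⟨h2, _⟩, h4⟩
      exact ⟨h2, h4⟩
    · rintro ⟨h2, h4⟩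
      exact ⟨⟨h2, by rw [h4]; exact hv⟩, h4⟩
  · intro i hi
    have := (mem_filter.1 (mem_coe.1 hi)).2
    exact mem_coe.2 this

end SMALL

open SMALL in
theorem stmt_SMALL : Stmt_PIECES → Stmt_SMALL := by
  intro hPI V E _ _ _ H m R R0 C M x σ hR hF hone hx hσ hσne hfar Y hYC hout
  classical
  by_cases hbig : R0 ≤ cut H Y
  · exact (hR.le Y).trans (hbig.trans (Nat.le_add_right _ _))
  rw [not_le] at hbig
  obtain ⟨P, hP1, hP2, hP3, hP4, hP5, hP6, _, hP8⟩ := hPI V E H Y
  by_cases hne : Nonempty {i : Fin M // x i ∈ Y}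
  swap
  · have h0 : ∑ v ∈ Y, m v = 0 := by
      rw [← card_fin_eq hx Y, card_eq_zero, filter_eq_empty_iff]
      intro i _ hi
      exact hne ⟨⟨i, hi⟩⟩
    have := hF Y
    omega
  -- the piece of a position
  have hpc : ∀ i : {i : Fin M // x i ∈ Y}, ∃ A ∈ P, x i.1 ∈ A := fun i => hP2 _ i.2
  choose pc hpcP hpcx using hpc
  -- the inner matching
  let τ : {i : Fin M // x i ∈ Y} → {i : Fin M // x i ∈ Y} :=
    fun i => if h : x (σ i.1) ∈ Y then ⟨σ i.1, h⟩ else i
  have hτin : ∀ i, x (σ i.1) ∈ Y → (τ i).1 = σ i.1 := by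
    intro i h
    simp only [τ, dif_pos h]
  have hτout : ∀ i, x (σ i.1) ∉ Y → τ i = i := by
    intro i h
    simp only [τ, dif_neg h]
  have hττ : ∀ i, τ (τ i) = i := by
    intro i
    by_cases h : x (σ i.1) ∈ Y
    · apply Subtype.ext
      rw [hτin (τ i) (by rw [hτin i h, hσ]; exact i.2), hτin i h, hσ]
    · rw [hτout i h, hτout i h]
  have hτne : ∀ i, τ i ≠ i ↔ x (σ i.1) ∈ Y := by
    intro i
    constructor
    · intro h
      by_contra h2
      exact h (hτout i h2)
    · intro h h2
      apply hσne i.1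
      rw [← hτin i h, h2]
  have hcardS : Fintype.card {i : Fin M // x i ∈ Y} = ∑ v ∈ Y, m v := by
    rw [← card_fin_eq hx Y, Fintype.card_subtype]
  have hcost : ∀ A ∈ P, cut H A + ∑ v ∈ A, m v ≤ C + R0 := by
    intro A hA
    have h1 : cut H A ≤ cut H Y := by
      rw [hP5]
      exact single_le_sum (f := fun A => cut H A) (fun _ _ => Nat.zero_le _) hA
    have h2 : ∑ v ∈ A, m v ≤ ∑ v ∈ Y, m v := sum_le_sum_of_subset (hP1 A hA).2.1
    omega
  have hfar' : ∀ a, τ a ≠ a → ∀ W : Finset {i : Fin M // x i ∈ Y}, a ∉ W → τ a ∉ W →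
      ¬ (G pc τ W).Reachable a (τ a) := by
    intro a ha W haW hτW hreach
    obtain ⟨p, hp⟩ := hreach.exists_isPath
    have hlen : p.length < Fintype.card {i : Fin M // x i ∈ Y} := hp.length_lt
    have hin : x (σ a.1) ∈ Y := (hτne a).1 ha
    apply hfar a.1 (hσne a.1)
    have h1 := wk_of_walk (T := Fin M) (fun i => i.1)
      (A := GrM (CloseRel H m (C + R0) (fun i : Fin M => x i)) σ a.1) (by
        intro u v huv
        simp only [G, SimpleGraph.fromRel_adj] at huv
        obtain ⟨hne', huv⟩ := huv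
        have hclose : ∀ u v : {i : Fin M // x i ∈ Y}, pc u = pc v →
            CloseRel H m (C + R0) (fun i : Fin M => x i) u.1 v.1 := by
          intro u v h
          refine ⟨pc u, (hP1 _ (hpcP u)).2.2, hpcx u, ?_, hcost _ (hpcP u)⟩
          rw [h]
          exact hpcx v
        have hin' : ∀ u v : {i : Fin M // x i ∈ Y}, τ u = v → u ≠ v → u ∈ W →
            σ u.1 = v.1 ∧ u.1 ≠ v.1 ∧ u.1 ≠ a.1 ∧ v.1 ≠ a.1 := by
          intro u v h1 h2 h3
          have h4 : τ u ≠ u := by rw [h1]; exact h2.symm
          refine ⟨?_, fun h => h2 (Subtype.ext h), ?_, ?_⟩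
          · rw [← hτin u ((hτne u).1 h4), h1]
          · intro h
            rw [Subtype.ext h] at h3
            exact haW h3
          · intro h
            have h5 : v = a := Subtype.ext h
            rw [h5] at h1
            apply hτW
            rw [← h1, hττ]
            exact h3
        rcases huv with (h | ⟨h, hW⟩) | (h | ⟨h, hW⟩)
        · exact Or.inl (hclose u v h)
        · exact Or.inr (hin' u v h hne' hW)
        · exact Or.inl (hclose u v h.symm)
        · obtain ⟨h5, h6, h7, h8⟩ := hin' v u h hne'.symm hW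
          refine Or.inr ⟨?_, h6.symm, h8, h7⟩
          rw [← h5, hσ]) p
    have h2 : ((τ a).1 : Fin M) = σ a.1 := hτin a hin
    change Wk _ a.1 (τ a).1 p.length at h1
    rw [h2] at h1
    exact wk_mono h1 C (by omega)
  have hmain := forest pc τ hττ hfar'
  -- number of pieces with positions
  have hq : (univ.image pc).card ≤ (P.filter fun A => 0 < ∑ v ∈ A, m v).card := by
    apply card_le_card
    intro A hA
    rw [mem_image] at hA
    obtain ⟨i, _, rfl⟩ := hA
    rw [mem_filter]
    refine ⟨hpcP i, ?_⟩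
    have h1 : 0 < m (x i.1) := by
      rw [← hx, card_pos]
      exact ⟨i.1, mem_filter.2 ⟨mem_range.2 i.1.2, rfl⟩⟩
    exact lt_of_lt_of_le h1 (single_le_sum (f := m) (fun _ _ => Nat.zero_le _) (hpcx i))
  have h8 := hP8 m R R0 hR hF (by
    intro A hA hmA
    obtain ⟨u, hu, hmu⟩ : ∃ u ∈ A, 0 < m u := by
      by_contra hcon
      push Not at hcon
      have : ∑ v ∈ A, m v = 0 := sum_eq_zero fun v hv => Nat.le_zero.1 (hcon v hv)
      omega
    obtain ⟨w, hw, hmw⟩ := hout
    have h1 : 1 ≤ cut H A := hone A ⟨u, hu, hmu⟩ ⟨w, fun h => hw ((hP1 A hA).2.1 h), hmw⟩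
    omega)
  -- split the positions
  have hsplit : (univ.filter fun a => τ a ≠ a).card +
      (univ.filter fun i : Fin M => x i ∈ Y ∧ x (σ i) ∉ Y).card = ∑ v ∈ Y, m v := by
    rw [← card_fin_eq hx Y]
    have h1 : (univ.filter fun a => τ a ≠ a).card =
        (univ.filter fun i : Fin M => x i ∈ Y ∧ x (σ i) ∈ Y).card := by
      rw [← card_map (Function.Embedding.subtype (fun i : Fin M => x i ∈ Y))]
      congr 1
      ext i
      simp only [mem_map, mem_filter, mem_univ, true_and, Function.Embedding.subtype_apply]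
      constructor
      · rintro ⟨a, ha, rfl⟩
        exact ⟨a.2, (hτne a).1 ha⟩
      · rintro ⟨h1, h2⟩
        exact ⟨⟨i, h1⟩, (hτne ⟨i, h1⟩).2 h2, rfl⟩
    rw [h1, ← card_union_of_disjoint]
    · congr 1
      ext i
      simp only [mem_union, mem_filter, mem_univ, true_and]
      tauto
    · rw [Finset.disjoint_left]
      intro i h1 h2
      exact (mem_filter.1 h2).2.2 (mem_filter.1 h1).2.2
  omega

end Pool.Agent.Work.MP_2183d4_lc_66
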