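import Pool.Agent.Work.MP_2183d4_lc_66.ADM
import Pool.Agent.Work.MP_2183d4_lc_66.CONV
import Pool.Agent.Work.MP_2183d4_lc_66.CORE
import Pool.Agent.Work.MP_2183d4_lc_66.DEG
import Pool.Agent.Work.MP_2183d4_lc_66.IMP
import Pool.Agent.Work.MP_2183d4_lc_66.LINK
import Pool.Agent.Work.MP_2183d4_lc_66.MAC
import Pool.Agent.Work.MP_2183d4_lc_66.MATCH
import Pool.Agent.Work.MP_2183d4_lc_66.MULT
import Pool.Agent.Work.MP_2183d4_lc_66.ORD
import Pool.Agent.Work.MP_2183d4_lc_66.PIECES
import Pool.Agent.Work.MP_2183d4_lc_66.REQ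
import Pool.Agent.Work.MP_2183d4_lc_66.SMALL

/-! # MP_2183d4_lc: the final theorem -/

set_option autoImplicit false

namespace Pool.Agent.Work.MP_2183d4_lc_66

open Finset

/-- The blocks together. -/
theorem core : Stmt_CORE :=
  stmt_CORE (stmt_MULT stmt_IMP stmt_ORD stmt_MATCH stmt_MAC (stmt_SMALL stmt_PIECES) stmt_CONV)
    (stmt_ADM stmt_IMP stmt_PIECES)

section
variable {V E : Type} [Fintype V] [DecidableEq V] [Fintype E]

/-- `C` is a connected component of the hypergraph. -/
def IsComponent (H : E → Finset V) (C : Finset V) : Prop :=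
  C.Nonempty ∧ cut H C = 0 ∧ ∀ D : Finset V, D ⊂ C → D.Nonempty → cut H D ≠ 0

open Classical in
/-- The number of components containing a set `X` with `d_H(X) < R(X)`. -/
noncomputable def numDem (H : E → Finset V) (r : V → V → ℕ) : ℕ :=
  ((univ : Finset (Finset V)).filter fun C =>
    IsComponent H C ∧ ∃ X : Finset V, X ⊆ C ∧ cut H X < req r X).card

/-- The local edge-connectivity. -/
noncomputable def lam (H : E → Finset V) (x y : V) : ℕ :=
  sInf {d | ∃ X : Finset V, x ∈ X ∧ y ∉ X ∧ d = cut H X}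

theorem lam_le (H : E → Finset V) {x y : V} {X : Finset V} (hx : x ∈ X) (hy : y ∉ X) :
    lam H x y ≤ cut H X := Nat.sInf_le ⟨X, hx, hy, rfl⟩

theorem le_lam (H : E → Finset V) {x y : V} (hxy : x ≠ y) {d : ℕ}
    (h : ∀ X : Finset V, x ∈ X → y ∉ X → d ≤ cut H X) : d ≤ lam H x y := by
  unfold lam
  apply le_csInf
  · exact ⟨cut H {x}, {x}, by simp, by simpa using hxy.symm, rfl⟩
  · rintro b ⟨X, hx, hy, rfl⟩
    exact h X hx hy

/-- The requirements on pairs and on sets. -/
theorem feas_iff (H : E → Finset V) (r : V → V → ℕ) :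
    (∀ x y, x ≠ y → r x y ≤ lam H x y) ↔ ∀ X : Finset V, req r X ≤ cut H X := by
  constructor
  · intro h X
    apply REQ.req_le
    intro x hx y hy
    exact le_trans (h x y (by rintro rfl; exact hy hx)) (lam_le H hx hy)
  · intro h x y hxy
    apply le_lam H hxy
    intro X hx hy
    exact le_trans (REQ.le_req r hx hy) (h X)

theorem comp_exists (H : E → Finset V) (X : Finset V) (hX : cut H X = 0) (v : V) (hv : v ∈ X) :
    ∃ C, IsComponent H C ∧ v ∈ C ∧ C ⊆ X := by
  classical
  have hne : (X.powerset.filter fun D => v ∈ D ∧ cut H D = 0).Nonempty :=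
    ⟨X, by simp [hv, hX]⟩
  obtain ⟨C, hC, hmin⟩ := Finset.exists_min_image _ Finset.card hne
  simp only [mem_filter, mem_powerset] at hC hmin
  obtain ⟨hCX, hvC, hC0⟩ := hC
  refine ⟨C, ⟨⟨v, hvC⟩, hC0, ?_⟩, hvC, hCX⟩
  intro D hDC hDne hD0
  by_cases hvD : v ∈ D
  · have h1 := hmin D ⟨hDC.1.trans hCX, hvD, hD0⟩
    have h2 := Finset.card_lt_card hDC
    omega
  · have h0 := REQ.cut_split H D C hD0
    have h3 : cut H (C \ D) = 0 := by omega
    have h1 := hmin (C \ D) ⟨Finset.sdiff_subset.trans hCX, mem_sdiff.2 ⟨hvC, hvD⟩, h3⟩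
    have h2 : (C \ D).card < C.card := by
      apply Finset.card_lt_card
      refine ⟨Finset.sdiff_subset, fun h => ?_⟩
      obtain ⟨w, hw⟩ := hDne
      exact (mem_sdiff.1 (h (hDC.1 hw))).2 hw
    omega

/-- The part of a tight set in a union of components is tight. -/
theorem tight_part (H : E → Finset V) (r : V → V → ℕ) (m : V → ℕ) (hfeas : Feas H m (req r))
    (X Y : Finset V) (hX : cut H X = 0) (v : V) (hvX : v ∈ X) (hvY : v ∈ Y) (hv : 0 < m v)
    (hY : cut H Y + ∑ w ∈ Y, m w = req r Y) :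
    req r (Y ∩ X) = cut H (Y ∩ X) + ∑ w ∈ Y ∩ X, m w ∧ 1 ≤ ∑ w ∈ Y ∩ X, m w := by
  have hsplit := REQ.cut_split H X Y hX
  have hmsplit : ∑ w ∈ Y, m w = ∑ w ∈ Y ∩ X, m w + ∑ w ∈ Y \ X, m w :=
    (Finset.sum_inter_add_sum_sdiff Y X m).symm
  have hu := REQ.req_union r (Y ∩ X) (Y \ X)
  rw [show (Y ∩ X) ∪ (Y \ X) = Y by
    ext w; simp only [mem_union, mem_inter, mem_sdiff]; tauto] at hu
  have fA := hfeas (Y ∩ X)
  have fB := hfeas (Y \ X)
  have hA1 : 1 ≤ ∑ w ∈ Y ∩ X, m w :=
    le_trans hv (Finset.single_le_sum (f := m) (fun _ _ => Nat.zero_le _) (mem_inter.2 ⟨hvY, hvX⟩))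
  refine ⟨?_, hA1⟩
  rcases le_total (req r (Y ∩ X)) (req r (Y \ X)) with h | h
  · rw [max_eq_right h] at hu
    omega
  · rw [max_eq_left h] at hu
    omega

/-- A proper subset of a component with the only half-edge is not deficient. -/
theorem one_aux (H : E → Finset V) (r : V → V → ℕ) (m : V → ℕ) (hs : ∀ x y, r x y = r y x)
    (hfeas : Feas H m (req r)) (C Z : Finset V) (hC : IsComponent H C) (hZC : Z ⊂ C)
    (hone : ∑ v ∈ C, m v = 1) (hZ : 1 ≤ ∑ v ∈ Z, m v) : req r Z ≤ cut H Z := by
  classical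
  by_contra hcon
  push Not at hcon
  have hZne : Z.Nonempty := by
    rw [Finset.nonempty_iff_ne_empty]
    rintro rfl
    simp at hZ
  have hZ0 := hC.2.2 Z hZC hZne
  have hle : req r Z ≤ max (req r (C \ Z)) (req r C) := by
    apply REQ.req_le
    intro x hx y hy
    by_cases hyC : y ∈ C
    · refine le_trans ?_ (le_max_left _ _)
      rw [hs]
      exact REQ.le_req r (mem_sdiff.2 ⟨hyC, hy⟩) (fun h => (mem_sdiff.1 h).2 hx)
    · exact le_trans (REQ.le_req r (hZC.1 hx) hyC) (le_max_right _ _)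
  have hCs : ∑ w ∈ C, m w = ∑ w ∈ C ∩ Z, m w + ∑ w ∈ C \ Z, m w :=
    (Finset.sum_inter_add_sum_sdiff C Z m).symm
  rw [Finset.inter_eq_right.2 hZC.1] at hCs
  have hcutc : cut H (C \ Z) ≤ cut H Z := by
    have hX := hC.2.1
    unfold cut at *
    rw [Finset.card_eq_zero, Finset.filter_eq_empty_iff] at hX
    apply Finset.card_le_card
    intro e he'
    have he := hX (mem_univ e)
    push Not at he
    simp only [mem_filter, mem_univ, true_and, mem_sdiff] at he' ⊢
    obtain ⟨⟨a, ha, haX, haY⟩, b, hb, hbn⟩ := he'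
    have hbX : b ∈ C := he ⟨a, ha, haX⟩ b hb
    have hbY : b ∈ Z := by
      by_contra h
      exact hbn ⟨hbX, h⟩
    exact ⟨⟨b, hb, hbY⟩, a, ha, fun h => haY h⟩
  have f1 := hfeas (C \ Z)
  have f2 := hfeas C
  have hC0 := hC.2.1
  rcases le_max_iff.1 hle with h | h
  · omega
  · omega

/-- Without marginal components no union of components has exactly one half-edge. -/
theorem two (H : E → Finset V) (r : V → V → ℕ) (m : V → ℕ) (hs : ∀ x y, r x y = r y x)
    (hmar : ∀ C, IsComponent H C → req r C = 1 → ∃ X, X ⊂ C ∧ cut H X < req r X)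
    (hfeas : Feas H m (req r))
    (htight : ∀ v, 0 < m v → ∃ X : Finset V, v ∈ X ∧ cut H X + ∑ w ∈ X, m w = req r X)
    (X : Finset V) (hX : cut H X = 0) : ∑ v ∈ X, m v ≠ 1 := by
  classical
  intro hone
  obtain ⟨v, hvX, hv⟩ : ∃ v ∈ X, 0 < m v := by
    by_contra hcon
    push Not at hcon
    have : ∑ v ∈ X, m v = 0 := Finset.sum_eq_zero fun v hv => by have := hcon v hv; omega
    omega
  obtain ⟨C, hC, hvC, hCX⟩ := comp_exists H X hX v hvX
  have hC1 : ∑ w ∈ C, m w = 1 := by
    have h1 : ∑ w ∈ C, m w ≤ ∑ w ∈ X, m w := Finset.sum_le_sum_of_subset hCX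
    have h2 : m v ≤ ∑ w ∈ C, m w :=
      Finset.single_le_sum (f := m) (fun _ _ => Nat.zero_le _) hvC
    omega
  obtain ⟨Y, hvY, hY⟩ := htight v hv
  obtain ⟨h1, h2⟩ := tight_part H r m hfeas C Y hC.2.1 v hvC hvY hv hY
  by_cases hPC : Y ∩ C = C
  · rw [hPC, hC.2.1, hC1] at h1
    obtain ⟨Z, hZ, hZd⟩ := hmar C hC (by omega)
    have h3 := hfeas Z
    have h4 := one_aux H r m hs hfeas C Z hC hZ hC1 (by omega)
    omega
  · have h3 : Y ∩ C ⊂ C := Finset.ssubset_iff_subset_ne.2 ⟨Finset.inter_subset_right, hPC⟩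
    have h4 := one_aux H r m hs hfeas C (Y ∩ C) hC h3 hC1 h2
    omega

theorem numPos_le (H : E → Finset V) (r : V → V → ℕ) (m : V → ℕ) (hfeas : Feas H m (req r))
    (htight : ∀ v, 0 < m v → ∃ X : Finset V, v ∈ X ∧ cut H X + ∑ w ∈ X, m w = req r X) :
    numPos H m ≤ numDem H r := by
  classical
  have : Fintype (adjGraph H).ConnectedComponent := Fintype.ofFinite _
  unfold numPos numDem
  rw [Nat.card_eq_fintype_card, Fintype.card_subtype]
  have hI := LINK.isComp H
  apply Finset.card_le_card_of_injOn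
    (fun C => univ.filter fun v => (adjGraph H).connectedComponentMk v = C)
  · intro C hC
    have hC' := (mem_filter.1 (Finset.mem_coe.1 hC)).2
    obtain ⟨v, rfl, hv⟩ := hC'
    set D : Finset V := univ.filter fun w => (adjGraph H).connectedComponentMk w =
      (adjGraph H).connectedComponentMk v with hD
    have hD0 : cut H D = 0 := by
      apply LINK.cut_zero
      intro e u hu w hw huD
      rw [hD, mem_filter] at huD ⊢
      exact ⟨mem_univ _, by rw [← huD.2]; exact hI.same e w hw u hu⟩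
    have hvD : v ∈ D := by rw [hD, mem_filter]; exact ⟨mem_univ _, rfl⟩
    have hDc : IsComponent H D := by
      refine ⟨⟨v, hvD⟩, hD0, ?_⟩
      rintro F hFD ⟨w, hw⟩ hF0
      apply hFD.2
      intro u hu
      have h1 := (mem_filter.1 (hFD.1 hw)).2
      have h2 := (mem_filter.1 hu).2
      exact hI.clo F hF0 w u (h1.trans h2.symm) hw
    obtain ⟨Y, hvY, hY⟩ := htight v hv
    obtain ⟨h1, h2⟩ := tight_part H r m hfeas D Y hD0 v hvD hvY hv hY
    exact Finset.mem_coe.2 (mem_filter.2 ⟨mem_univ _, hDc, Y ∩ D, Finset.inter_subset_right,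
      by omega⟩)
  · intro C hC C' hC' hCC
    obtain ⟨v, rfl, _⟩ := (mem_filter.1 (Finset.mem_coe.1 hC)).2
    have h1 : v ∈ univ.filter fun w => (adjGraph H).connectedComponentMk w =
        (adjGraph H).connectedComponentMk v := by simp
    have hCC' : (univ.filter fun w => (adjGraph H).connectedComponentMk w =
        (adjGraph H).connectedComponentMk v) =
        univ.filter fun w => (adjGraph H).connectedComponentMk w = C' := hCC
    rw [hCC'] at h1
    exact (mem_filter.1 h1).2

/-- Loops may be dropped. -/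
theorem drop_loops {n : ℕ} (g : Fin n → V × V) :
    ∃ (n' : ℕ) (g' : Fin n' → V × V), n' ≤ n ∧ (∀ i, (g' i).1 ≠ (g' i).2) ∧
      ∀ X : Finset V, gcut g' X = gcut g X := by
  classical
  set S : Finset (Fin n) := univ.filter fun i => (g i).1 ≠ (g i).2 with hS
  let e : Fin S.card ≃ S := S.equivFin.symm
  refine ⟨S.card, fun j => g (e j).1, ?_, ?_, ?_⟩
  · exact (Finset.card_le_univ S).trans (by simp)
  · intro j
    exact (mem_filter.1 (e j).2).2
  · intro X
    unfold gcut
    apply Finset.card_bij (fun j _ => (e j).1)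
    · intro j hj
      simp only [mem_filter, mem_univ, true_and] at hj ⊢
      exact hj
    · intro a _ b _ hab
      exact e.injective (Subtype.ext hab)
    · intro i hi
      simp only [mem_filter, mem_univ, true_and] at hi
      have hiS : i ∈ S := by
        rw [hS, mem_filter]
        refine ⟨mem_univ _, fun h => hi ?_⟩
        rw [h]
      refine ⟨e.symm ⟨i, hiS⟩, ?_, by simp⟩
      simp only [mem_filter, mem_univ, true_and, Equiv.apply_symm_apply]
      exact hi

end

/-- The set of sizes of the graphs satisfying the requirements. -/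
def Sizes {V E : Type} [Fintype V] [DecidableEq V] [Fintype E] (H : E → Finset V)
    (r : V → V → ℕ) : Set ℕ :=
  {n | ∃ g : Fin n → V × V, (∀ i, (g i).1 ≠ (g i).2) ∧
    ∀ x y, x ≠ y → r x y ≤ lam (addG H g) x y}

section
variable {V E : Type} [Fintype V] [DecidableEq V] [Fintype E]

theorem mem_sizes_of (H : E → Finset V) (r : V → V → ℕ) {n : ℕ} (g : Fin n → V × V)
    (hg : ∀ X : Finset V, req r X ≤ cut H X + gcut g X) : ∃ n' ≤ n, n' ∈ Sizes H r := by
  obtain ⟨n', g', hn, hne, hg'⟩ := drop_loops g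
  refine ⟨n', hn, g', hne, ?_⟩
  rw [feas_iff]
  intro X
  rw [cut_addG, hg']
  exact hg X

theorem lb (H : E → Finset V) (r : V → V → ℕ) {n : ℕ} (hn : n ∈ Sizes H r) :
    alpha H r ≤ 2 * n := by
  obtain ⟨g, _, hg⟩ := hn
  rw [feas_iff] at hg
  apply stmt_LB V E H r n g
  intro X
  rw [← cut_addG]
  exact hg X

theorem star (H : E → Finset V) (r : V → V → ℕ) (hs : ∀ x y, r x y = r y x) :
    ∃ n ≤ alpha H r, n ∈ Sizes H r := by
  classical
  obtain ⟨m, hm, hsum, _⟩ := stmt_DEG V E H r hs
  by_cases h0 : alpha H r = 0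
  · have := mem_sizes_of H r (n := 0) (fun i => i.elim0) (by
      intro X
      have h1 := hm X
      have h2 : ∑ v ∈ X, m v ≤ ∑ v, m v := Finset.sum_le_sum_of_subset (subset_univ X)
      have h3 : gcut (fun i : Fin 0 => (i.elim0 : V × V)) X = 0 := by
        unfold gcut
        simp
      omega)
    obtain ⟨n', hn', h⟩ := this
    exact ⟨n', by omega, h⟩
  · obtain ⟨w, _⟩ : ∃ w : V, 0 < m w := by
      by_contra hcon
      push Not at hcon
      have : ∑ v, m v = 0 := Finset.sum_eq_zero fun v _ => by have := hcon v; omega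
      omega
    -- the list of the half-edges
    have hcard : Fintype.card (Σ v, Fin (m v)) = alpha H r := by
      rw [Fintype.card_sigma]
      simp [hsum]
    let e : Fin (alpha H r) ≃ (Σ v, Fin (m v)) := (Fintype.equivFinOfCardEq hcard).symm
    have hcnt : ∀ X : Finset V, (univ.filter fun i => (e i).1 ∈ X).card = ∑ v ∈ X, m v := by
      intro X
      have h1 : (univ.filter fun i => (e i).1 ∈ X).card =
          ((univ : Finset (Σ v, Fin (m v))).filter fun p => p.1 ∈ X).card := by
        apply Finset.card_bij (fun i _ => e i)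
        · intro i hi
          simpa using hi
        · intro a _ b _ hab
          exact e.injective hab
        · intro p hp
          exact ⟨e.symm p, by simpa using hp, by simp⟩
      rw [h1, Finset.card_filter, Fintype.sum_sigma]
      have h2 : ∀ v : V, (∑ _x : Fin (m v), if v ∈ X then 1 else 0) = if v ∈ X then m v else 0 := by
        intro v
        split_ifs <;> simp
      rw [Finset.sum_congr rfl (fun v _ => h2 v), ← Finset.sum_filter]
      congr 1
      ext v
      simp
    have key : ∀ X : Finset V, w ∉ X →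
        req r X ≤ cut H X + gcut (fun i => ((e i).1, w)) X := by
      intro X hw
      have h1 : gcut (fun i => ((e i).1, w)) X = ∑ v ∈ X, m v := by
        rw [← hcnt X]
        unfold gcut
        congr 1
        ext i
        simp [hw]
      rw [h1]
      exact hm X
    obtain ⟨n', hn', h⟩ := mem_sizes_of H r (fun i => ((e i).1, w)) (by
      intro X
      by_cases hw : w ∈ X
      · have := key Xᶜ (by simpa using hw)
        rwa [REQ.req_compl r hs, MULT.cut_compl, MULT.gcut_compl] at this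
      · exact key X hw)
    exact ⟨n', hn', h⟩

theorem upper (k R0 : ℕ) : ∃ M0 : ℕ, ∀ (V E : Type) [Fintype V] [DecidableEq V] [Fintype E]
    (H : E → Finset V) (r : V → V → ℕ), (∀ e, (H e).card ≤ k) → (∀ x y, r x y = r y x) →
    (∀ x y, x ≠ y → r x y ≤ R0) →
    (∀ C, IsComponent H C → req r C = 1 → ∃ X, X ⊂ C ∧ cut H X < req r X) →
    2 * numDem H r + M0 ≤ alpha H r →
    ∃ g : Fin ((alpha H r + 1) / 2) → V × V, ∀ X : Finset V, req r X ≤ cut H X + gcut g X := by
  classical
  obtain ⟨M1, hM1⟩ := core (max k 2) R0 (le_max_right _ _)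
  obtain ⟨M2, hM2⟩ := stmt_LINK stmt_IMP stmt_PIECES k R0
  refine ⟨M1 + M2 + 1, ?_⟩
  intro V E _ _ _ H r hk hs hr hmar hal
  obtain ⟨m, hm, hsum, htight⟩ := stmt_DEG V E H r hs
  have hR := stmt_REQ V r R0 hs hr
  have hnp := numPos_le H r m hm htight
  have htwo := two H r m hs hmar hm htight
  -- make the sum even
  obtain ⟨m1, hm1, hpos, hge, hsum1, hone1⟩ : ∃ m1 : V → ℕ, Feas H m1 (req r) ∧
      (∀ v, 0 < m1 v ↔ 0 < m v) ∧ (∀ v, m v ≤ m1 v) ∧
      ∑ v, m1 v = 2 * ((alpha H r + 1) / 2) ∧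
      ∀ X : Finset V, cut H X = 0 → ∑ v ∈ X, m1 v ≠ 1 := by
    rcases Nat.even_or_odd' (alpha H r) with ⟨t, ht | ht⟩
    · exact ⟨m, hm, fun v => Iff.rfl, fun v => le_rfl, by omega, htwo⟩
    · obtain ⟨w, hw⟩ : ∃ w : V, 0 < m w := by
        by_contra hcon
        push Not at hcon
        have : ∑ v, m v = 0 := Finset.sum_eq_zero fun v _ => by have := hcon v; omega
        omega
      have hge : ∀ v, m v ≤ m v + (if v = w then 1 else 0) := fun v => Nat.le_add_right _ _
      refine ⟨fun v => m v + (if v = w then 1 else 0), ?_, ?_, hge, ?_, ?_⟩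
      · intro X
        refine le_trans (hm X) (Nat.add_le_add_left (Finset.sum_le_sum fun v _ => hge v) _)
      · intro v
        by_cases hvw : v = w
        · subst hvw
          simp [hw]
        · simp [hvw]
      · rw [Finset.sum_add_distrib, Finset.sum_ite_eq']
        simp
        omega
      · intro X hX
        rw [Finset.sum_add_distrib, Finset.sum_ite_eq']
        have h1 := htwo X hX
        split_ifs with hwX
        · have h2 : m w ≤ ∑ v ∈ X, m v :=
            Finset.single_le_sum (f := m) (fun _ _ => Nat.zero_le _) hwX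
          omega
        · omega
  have hnp1 : numPos H m1 = numPos H m := by
    unfold numPos
    simp only [hpos]
  obtain ⟨c, g, m', hc, hmm, hfe, hone⟩ := hM2 V E H m1 (req r) hk hR hm1 hone1 (by
    rw [hnp1, hsum1]
    omega)
  have hsum' : ∑ v, m1 v = ∑ v, m' v + 2 * c := by
    rw [Finset.sum_congr rfl (fun v _ => hmm v), Finset.sum_add_distrib, Finset.sum_add_distrib]
    have e1 : ∑ v, (univ.filter fun i : Fin c => (g i).1 = v).card = c := by
      rw [← Finset.card_eq_sum_card_fiberwise (s := (univ : Finset (Fin c))) (t := univ)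
        (f := fun i => (g i).1) (fun i _ => by simp)]
      simp
    have e2 : ∑ v, (univ.filter fun i : Fin c => (g i).2 = v).card = c := by
      rw [← Finset.card_eq_sum_card_fiberwise (s := (univ : Finset (Fin c))) (t := univ)
        (f := fun i => (g i).2) (fun i _ => by simp)]
      simp
    rw [e1, e2]
    ring
  obtain ⟨n, g2, hn, hg2⟩ := hM1 V (E ⊕ Fin c) (addG H g) m' (req r)
    (card_addG H g (le_max_right _ _) (fun e => (hk e).trans (le_max_left _ _))) hR
    (by
      intro X
      rw [cut_addG]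
      exact hfe X)
    (by
      intro X h1 h2
      rw [cut_addG]
      exact hone X h1 h2)
    (by
      rw [Nat.even_iff]
      omega)
    (by
      rw [hnp1] at hc
      omega)
  have hcn : c + n = (alpha H r + 1) / 2 := by omega
  rw [← hcn]
  refine ⟨Fin.append g g2, ?_⟩
  intro X
  have h1 := hg2 X
  rw [cut_addG] at h1
  rw [gcut_append]
  omega

end

theorem final0 (k R0 : ℕ) : ∃ M0 : ℕ, ∀ (V E : Type) [Fintype V] [DecidableEq V] [Fintype E]
    (H : E → Finset V) (r : V → V → ℕ), (∀ e, (H e).card ≤ k) → (∀ x y, r x y = r y x) →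
    (∀ x y, x ≠ y → r x y ≤ R0) →
    ∃ N, IsLeast (Sizes H r) N ∧ N ≤ alpha H r ∧
      ((∀ C, IsComponent H C → req r C = 1 → ∃ X, X ⊂ C ∧ cut H X < req r X) →
        2 * numDem H r + M0 ≤ alpha H r → N = (alpha H r + 1) / 2) := by
  classical
  obtain ⟨M0, hM0⟩ := upper k R0
  refine ⟨M0, ?_⟩
  intro V E _ _ _ H r hk hs hr
  obtain ⟨n0, hn0, hn0'⟩ := star H r hs
  have hne : (Sizes H r).Nonempty := ⟨n0, hn0'⟩
  refine ⟨sInf (Sizes H r), ⟨Nat.sInf_mem hne, fun n hn => Nat.sInf_le hn⟩,
    (Nat.sInf_le hn0').trans hn0, ?_⟩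
  intro hmar hal
  have h1 := lb H r (Nat.sInf_mem hne)
  obtain ⟨g, hg⟩ := hM0 V E H r hk hs hr hmar hal
  obtain ⟨n', hn', h2⟩ := mem_sizes_of H r g hg
  have h3 := Nat.sInf_le h2
  omega

section
variable {V E : Type} [Fintype V] [DecidableEq V] [Fintype E]

theorem lam_comm (H : E → Finset V) (x y : V) : lam H x y = lam H y x := by
  unfold lam
  congr 1
  ext d
  constructor
  · rintro ⟨X, hx, hy, rfl⟩
    exact ⟨Xᶜ, by simpa using hy, by simpa using hx, (MULT.cut_compl H X).symm⟩
  · rintro ⟨X, hx, hy, rfl⟩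
    exact ⟨Xᶜ, by simpa using hy, by simpa using hx, (MULT.cut_compl H X).symm⟩

/-- The requirements that are not yet satisfied. -/
noncomputable def unsat (H : E → Finset V) (r : V → V → ℕ) (x y : V) : ℕ :=
  if r x y ≤ lam H x y then 0 else r x y

theorem unsat_le (H : E → Finset V) (r : V → V → ℕ) (x y : V) : unsat H r x y ≤ r x y := by
  unfold unsat
  split_ifs
  · exact Nat.zero_le _
  · exact le_rfl

theorem unsat_symm (H : E → Finset V) (r : V → V → ℕ) (hs : ∀ x y, r x y = r y x) (x y : V) :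
    unsat H r x y = unsat H r y x := by
  unfold unsat
  rw [hs x y, lam_comm H x y]

theorem req_unsat (H : E → Finset V) (r : V → V → ℕ) (X : Finset V) :
    req (unsat H r) X - cut H X = req r X - cut H X := by
  have h1 : req (unsat H r) X ≤ req r X := by
    apply REQ.req_le
    intro x hx y hy
    exact (unsat_le H r x y).trans (REQ.le_req r hx hy)
  by_cases h : req r X ≤ cut H X
  · omega
  · push Not at h
    obtain ⟨x, hx, y, hy, hxy⟩ := DEG.req_att r X (by omega)
    have h2 : unsat H r x y = r x y := by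
      unfold unsat
      rw [if_neg]
      have := lam_le H hx hy
      omega
    have h3 := REQ.le_req (unsat H r) hx hy
    rw [h2] at h3
    omega

theorem lt_unsat (H : E → Finset V) (r : V → V → ℕ) (X : Finset V) :
    cut H X < req (unsat H r) X ↔ cut H X < req r X := by
  have := req_unsat H r X
  omega

theorem alpha_unsat (H : E → Finset V) (r : V → V → ℕ) : alpha H (unsat H r) = alpha H r := by
  unfold alpha
  simp only [req_unsat]

theorem numDem_unsat (H : E → Finset V) (r : V → V → ℕ) : numDem H (unsat H r) = numDem H r := by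
  classical
  unfold numDem
  congr 1
  ext C
  simp only [mem_filter, mem_univ, true_and]
  constructor
  · rintro ⟨h1, X, hX, h2⟩
    exact ⟨h1, X, hX, (lt_unsat H r X).1 h2⟩
  · rintro ⟨h1, X, hX, h2⟩
    exact ⟨h1, X, hX, (lt_unsat H r X).2 h2⟩

theorem sizes_unsat (H : E → Finset V) (r : V → V → ℕ) : Sizes H (unsat H r) = Sizes H r := by
  unfold Sizes
  ext n
  simp only [Set.mem_setOf_eq]
  constructor
  · rintro ⟨g, hne, hg⟩
    refine ⟨g, hne, fun x y hxy => ?_⟩
    have h1 := hg x y hxy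
    unfold unsat at h1
    split_ifs at h1 with h2
    · refine h2.trans ?_
      apply le_lam _ hxy
      intro X hx hy
      rw [cut_addG]
      exact (lam_le H hx hy).trans (Nat.le_add_right _ _)
    · exact h1
  · rintro ⟨g, hne, hg⟩
    exact ⟨g, hne, fun x y hxy => (unsat_le H r x y).trans (hg x y hxy)⟩

end

theorem final (k R0 : ℕ) : ∃ M0 : ℕ, ∀ (V E : Type) [Fintype V] [DecidableEq V] [Fintype E]
    (H : E → Finset V) (r : V → V → ℕ), (∀ e, (H e).card ≤ k) → (∀ x y, r x y = r y x) →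
    (∀ x y, x ≠ y → r x y ≤ R0 ∨ r x y ≤ lam H x y) →
    ∃ N, IsLeast (Sizes H r) N ∧ N ≤ alpha H r ∧
      ((∀ C, IsComponent H C → req r C = 1 → ∃ X, X ⊂ C ∧ cut H X < req r X) →
        2 * numDem H r + M0 ≤ alpha H r → N = (alpha H r + 1) / 2) := by
  classical
  obtain ⟨M0, hM0⟩ := final0 k R0
  refine ⟨M0, ?_⟩
  intro V E _ _ _ H r hk hs hr
  obtain ⟨N, h1, h2, h3⟩ := hM0 V E H (unsat H r) hk (unsat_symm H r hs) (by
    intro x y hxy
    unfold unsat
    split_ifs with h
    · exact Nat.zero_le _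
    · exact (hr x y hxy).resolve_right h)
  rw [sizes_unsat] at h1
  rw [alpha_unsat] at h2 h3
  rw [numDem_unsat] at h3
  refine ⟨N, h1, h2, ?_⟩
  intro hmar hal
  apply h3 _ hal
  intro C hC hC1
  have h4 := req_unsat H r C
  rw [hC.2.1, hC1] at h4
  obtain ⟨X, hX, hX'⟩ := hmar C hC (by omega)
  exact ⟨X, hX, (lt_unsat H r X).2 hX'⟩

end Pool.Agent.Work.MP_2183d4_lc_66
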