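import Pool.Agent.Work.MP_2183d4_lc_66.Defs

/-!
# MP_2183d4_lc: the blocks. Proofs are sketched in the docstrings and in BLUEPRINT.md
-/

set_option autoImplicit false

namespace Pool.Agent.Work.MP_2183d4_lc_66

open Finset

/-- IMP (important cuts). All small connected sets containing `u` lie in few sets with few half-edges. -/
def Stmt_IMP : Prop :=
  ∀ (V E : Type) [Fintype V] [DecidableEq V] [Fintype E] (H : E → Finset V) (m : V → ℕ) (k β : ℕ),
    (∀ e, (H e).card ≤ k) → ∀ u : V, ∃ F : Finset (Finset V),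
      F.card ≤ (k + 1) ^ (2 * β + 1) ∧ (∀ Z ∈ F, ∑ v ∈ Z, m v ≤ β) ∧
      ∀ P : Finset V, u ∈ P → Conn H P → cut H P + ∑ v ∈ P, m v ≤ β → ∃ Z ∈ F, P ⊆ Z

/-- PIECES. Decomposition of `Y` into its trace-connected components. -/
def Stmt_PIECES : Prop :=
  ∀ (V E : Type) [Fintype V] [DecidableEq V] [Fintype E] (H : E → Finset V) (Y : Finset V),
    ∃ P : Finset (Finset V),
      (∀ A ∈ P, A.Nonempty ∧ A ⊆ Y ∧ Conn H A) ∧
      (∀ v ∈ Y, ∃ A ∈ P, v ∈ A) ∧
      (∀ A ∈ P, ∀ B ∈ P, A ≠ B → Disjoint A B) ∧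
      (∀ A ∈ P, ∀ B ∈ P, A ≠ B → ∀ e, (∃ v ∈ H e, v ∈ A) → ¬ ∃ v ∈ H e, v ∈ B) ∧
      cut H Y = ∑ A ∈ P, cut H A ∧
      (∀ m : V → ℕ, ∑ v ∈ Y, m v = ∑ A ∈ P, ∑ v ∈ A, m v) ∧
      (∀ R : Finset V → ℕ, R ∅ = 0 → (∀ A B, R (A ∪ B) ≤ max (R A) (R B)) → R Y ≤ P.sup R) ∧
      ∀ (m : V → ℕ) (R : Finset V → ℕ) (R0 : ℕ), ReqFun R R0 → Feas H m R →
        (∀ A ∈ P, 0 < ∑ v ∈ A, m v → 2 ≤ cut H A + ∑ v ∈ A, m v) →
        R Y + 2 * (P.filter fun A => 0 < ∑ v ∈ A, m v).card ≤ cut H Y + ∑ v ∈ Y, m v + 2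

/-- ORD. The half-edges can be listed so that every set with few crossing hyperedges is a union of few
runs. -/
def Stmt_ORD : Prop :=
  ∀ (V E : Type) [Fintype V] [DecidableEq V] [Fintype E] (H : E → Finset V) (m : V → ℕ) (k : ℕ),
    (∀ e, (H e).card ≤ k) → OneComp H m → 0 < ∑ v, m v →
    ∃ x : ℕ → V, (∀ v, ((range (∑ v, m v)).filter fun i => x i = v).card = m v) ∧
      ∀ Y : Finset V, ((range ((∑ v, m v) - 1)).filter fun i => ¬(x i ∈ Y ↔ x (i + 1) ∈ Y)).card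
        ≤ 2 * k * cut H Y

/-- MATCH. Perfect matchings respecting classes in which every edge is in no short closed walk. -/
def Stmt_MATCH : Prop :=
  ∀ Δ L : ℕ, ∃ Z0 : ℕ, ∀ (T K : Type) [Fintype T] [DecidableEq T] [DecidableEq K]
    (cls : T → K) (ι : K → K) (N : T → T → Prop),
    (∀ κ, ι (ι κ) = κ) → (∀ a b, N a b → N b a) →
    (∀ a, ∃ F : Finset T, F.card ≤ Δ ∧ ∀ b, N a b → b ∈ F) →
    (∀ κ, (univ.filter fun a => cls a = κ).card = (univ.filter fun a => cls a = ι κ).card) →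
    (∀ κ, ι κ = κ → Even (univ.filter fun a => cls a = κ).card) →
    (∀ a, Z0 ≤ (univ.filter fun b => cls b = cls a).card) →
    ∃ σ : T → T, (∀ a, σ (σ a) = a) ∧ (∀ a, σ a ≠ a) ∧ (∀ a, cls (σ a) = ι (cls a)) ∧
      FarMatch N σ L

/-- MAC. The macroscopic structure (block `↔` residue) makes all large cuts large. -/
def Stmt_MAC : Prop :=
  ∀ B Z J R0 : ℕ, 0 < Z → 0 < B → 2 * (J + R0) ≤ B →
    (∀ a b : ℕ, (univ.filter fun i : Fin (B * B * Z) =>
        (i : ℕ) / (B * Z) = a ∧ (i : ℕ) % B = b).card = if a < B ∧ b < B then Z else 0) ∧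
    ∀ σ : Fin (B * B * Z) → Fin (B * B * Z), (∀ i, (σ i : ℕ) / (B * Z) = (i : ℕ) % B) →
    ∀ (s : ℕ → Prop) [DecidablePred s],
      ((range (B * B * Z - 1)).filter fun i => ¬(s i ↔ s (i + 1))).card ≤ J →
      (J + 1) * B ≤ (univ.filter fun i : Fin (B * B * Z) => s (i : ℕ)).card →
      2 * (univ.filter fun i : Fin (B * B * Z) => s (i : ℕ)).card ≤ B * B * Z →
      R0 ≤ (univ.filter fun i : Fin (B * B * Z) => s (i : ℕ) ∧ ¬ s (σ i : ℕ)).card

/-- SMALL. Sets with few half-edges are satisfied by a matching without short cycles. -/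
def Stmt_SMALL : Prop :=
  ∀ (V E : Type) [Fintype V] [DecidableEq V] [Fintype E] (H : E → Finset V) (m : V → ℕ)
    (R : Finset V → ℕ) (R0 C M : ℕ) (x : ℕ → V) (σ : Fin M → Fin M),
    ReqFun R R0 → Feas H m R → OneComp H m →
    (∀ v, ((range M).filter fun i => x i = v).card = m v) →
    (∀ i, σ (σ i) = i) → (∀ i, σ i ≠ i) →
    FarMatch (CloseRel H m (C + R0) (fun i : Fin M => x i)) σ C →
    ∀ Y : Finset V, ∑ v ∈ Y, m v ≤ C → (∃ v, v ∉ Y ∧ 0 < m v) →
      R Y ≤ cut H Y + (univ.filter fun i : Fin M => x i ∈ Y ∧ x (σ i) ∉ Y).card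

/-- ADM. If there are many half-edges, some pair can be split off. -/
def Stmt_ADM : Prop :=
  ∀ k R0 : ℕ, ∃ M1 : ℕ, ∀ (V E : Type) [Fintype V] [DecidableEq V] [Fintype E]
    (H : E → Finset V) (m : V → ℕ) (R : Finset V → ℕ),
    (∀ e, (H e).card ≤ k) → ReqFun R R0 → Feas H m R → OneComp H m → M1 ≤ ∑ v, m v →
    ∃ (u v : V) (m' : V → ℕ),
      (∀ w, m w = m' w + (if w = u then 1 else 0) + (if w = v then 1 else 0)) ∧
      ∀ X : Finset V, R X ≤ cut H X + (if ¬(u ∈ X ↔ v ∈ X) then 1 else 0) + ∑ w ∈ X, m' w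

/-- CONV. From the matching of positions to the family of edges. -/
def Stmt_CONV : Prop :=
  ∀ (V : Type) [Fintype V] [DecidableEq V] (M : ℕ) (x : ℕ → V) (σ : Fin M → Fin M),
    (∀ i, σ (σ i) = i) → (∀ i, σ i ≠ i) →
    ∃ (n : ℕ) (g : Fin n → V × V), 2 * n = M ∧
      ∀ Y : Finset V, gcut g Y = (univ.filter fun i : Fin M => x i ∈ Y ∧ x (σ i) ∉ Y).card

/-- MULT. The main theorem when the number of half-edges is `B²Z`, `Z` even and large. -/
def Stmt_MULT : Prop :=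
  ∀ k R0 : ℕ, ∃ B Z0 : ℕ, 0 < B ∧ ∀ Z, Z0 ≤ Z → Even Z →
    ∀ (V E : Type) [Fintype V] [DecidableEq V] [Fintype E]
    (H : E → Finset V) (m : V → ℕ) (R : Finset V → ℕ),
    (∀ e, (H e).card ≤ k) → ReqFun R R0 → Feas H m R → OneComp H m → ∑ v, m v = B * B * Z →
    ∃ (n : ℕ) (g : Fin n → V × V), 2 * n = ∑ v, m v ∧ ∀ X : Finset V, R X ≤ cut H X + gcut g X

/-- CORE. Complete splitting when all half-edges lie in one component and there are many. -/
def Stmt_CORE : Prop :=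
  ∀ k R0 : ℕ, 2 ≤ k → ∃ M0 : ℕ,
    ∀ (V E : Type) [Fintype V] [DecidableEq V] [Fintype E]
    (H : E → Finset V) (m : V → ℕ) (R : Finset V → ℕ),
    (∀ e, (H e).card ≤ k) → ReqFun R R0 → Feas H m R → OneComp H m →
    Even (∑ v, m v) → M0 ≤ ∑ v, m v →
    ∃ (n : ℕ) (g : Fin n → V × V), 2 * n = ∑ v, m v ∧ ∀ X : Finset V, R X ≤ cut H X + gcut g X

/-! ### The statement of the problem -/

section
variable {V E : Type} [Fintype V] [DecidableEq V] [Fintype E]

/-- `req r X = R(X)`: the largest requirement between `X` and its complement. -/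
def req (r : V → V → ℕ) (X : Finset V) : ℕ := (X ×ˢ Xᶜ).sup fun z => r z.1 z.2

open Classical in
/-- `alpha H r`: the largest value of `∑ max(0, R(X) - d_H(X))` over families of disjoint sets. -/
noncomputable def alpha (H : E → Finset V) (r : V → V → ℕ) : ℕ :=
  ((univ : Finset (Finset (Finset V))).filter
    (fun F => ∀ A ∈ F, ∀ B ∈ F, A ≠ B → Disjoint A B)).sup fun F => ∑ X ∈ F, (req r X - cut H X)

/-- Two vertices are adjacent when they lie in a common hyperedge. -/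
def adjGraph (H : E → Finset V) : SimpleGraph V :=
  SimpleGraph.fromRel fun u v => ∃ e, u ∈ H e ∧ v ∈ H e

/-- The number of connected components of the hypergraph. -/
noncomputable def numComp (H : E → Finset V) : ℕ := Nat.card (adjGraph H).ConnectedComponent

/-- The number of connected components containing a vertex with a half-edge. -/
noncomputable def numPos (H : E → Finset V) (m : V → ℕ) : ℕ :=
  Nat.card {C : (adjGraph H).ConnectedComponent //
    ∃ v, (adjGraph H).connectedComponentMk v = C ∧ 0 < m v}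

end

/-- REQ. -/
def Stmt_REQ : Prop :=
  ∀ (V : Type) [Fintype V] [DecidableEq V] (r : V → V → ℕ) (R0 : ℕ),
    (∀ x y, r x y = r y x) → (∀ x y, x ≠ y → r x y ≤ R0) → ReqFun (req r) R0

/-- DEG. A degree specification of total `alpha`, every vertex with demand being in a tight set. -/
def Stmt_DEG : Prop :=
  ∀ (V E : Type) [Fintype V] [DecidableEq V] [Fintype E] (H : E → Finset V) (r : V → V → ℕ),
    (∀ x y, r x y = r y x) →
    ∃ m : V → ℕ, Feas H m (req r) ∧ ∑ v, m v = alpha H r ∧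
      ∀ v, 0 < m v → ∃ X : Finset V, v ∈ X ∧ cut H X + ∑ w ∈ X, m w = req r X

/-- LB. The lower bound. -/
def Stmt_LB : Prop :=
  ∀ (V E : Type) [Fintype V] [DecidableEq V] [Fintype E] (H : E → Finset V) (r : V → V → ℕ)
    (n : ℕ) (g : Fin n → V × V), (∀ X : Finset V, req r X ≤ cut H X + gcut g X) →
    alpha H r ≤ 2 * n

/-- TWO. Without marginal components no union of components has exactly one half-edge. -/
def Stmt_TWO : Prop :=
  ∀ (V E : Type) [Fintype V] [DecidableEq V] [Fintype E] (H : E → Finset V) (r : V → V → ℕ)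
    (m : V → ℕ), (∀ x y, r x y = r y x) → (∀ X : Finset V, cut H X = 0 → req r X ≠ 1) →
    Feas H m (req r) →
    (∀ v, 0 < m v → ∃ X : Finset V, v ∈ X ∧ cut H X + ∑ w ∈ X, m w = req r X) →
    ∀ X : Finset V, cut H X = 0 → ∑ v ∈ X, m v ≠ 1

/-- LINK. Joining the components by a cycle of edges. -/
def Stmt_LINK : Prop :=
  ∀ k R0 : ℕ, ∃ M2 : ℕ, ∀ (V E : Type) [Fintype V] [DecidableEq V] [Fintype E]
    (H : E → Finset V) (m : V → ℕ) (R : Finset V → ℕ),
    (∀ e, (H e).card ≤ k) → ReqFun R R0 → Feas H m R →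
    (∀ X : Finset V, cut H X = 0 → ∑ v ∈ X, m v ≠ 1) →
    2 * numPos H m + M2 ≤ ∑ v, m v →
    ∃ (c : ℕ) (g : Fin c → V × V) (m' : V → ℕ), c ≤ numPos H m ∧
      (∀ v, m v = m' v + (univ.filter fun i => (g i).1 = v).card
        + (univ.filter fun i => (g i).2 = v).card) ∧
      (∀ X : Finset V, R X ≤ cut H X + gcut g X + ∑ v ∈ X, m' v) ∧
      ∀ X : Finset V, (∃ u ∈ X, 0 < m' u) → (∃ v, v ∉ X ∧ 0 < m' v) → 1 ≤ cut H X + gcut g X

end Pool.Agent.Work.MP_2183d4_lc_66
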