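import Pool.Agent.Work.MP_2183d4_lc_66.Interface

/-! # MP_2183d4_lc: REQ, LB, TWO -/

set_option autoImplicit false

namespace Pool.Agent.Work.MP_2183d4_lc_66

open Finset

namespace REQ

section
variable {V E : Type} [Fintype V] [DecidableEq V] [Fintype E]

theorem le_req (r : V → V → ℕ) {X : Finset V} {x y : V} (hx : x ∈ X) (hy : y ∉ X) :
    r x y ≤ req r X := by
  unfold req
  exact Finset.le_sup (f := fun z : V × V => r z.1 z.2) (b := (x, y)) (by simp [hx, hy])

theorem req_le (r : V → V → ℕ) {X : Finset V} {n : ℕ} (h : ∀ x ∈ X, ∀ y, y ∉ X → r x y ≤ n) :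
    req r X ≤ n := by
  unfold req
  apply Finset.sup_le
  rintro ⟨x, y⟩ hz
  simp only [mem_product, mem_compl] at hz
  exact h x hz.1 y hz.2

theorem req_empty (r : V → V → ℕ) : req r ∅ = 0 := by
  apply Nat.eq_zero_of_le_zero
  apply req_le
  intro x hx
  simp at hx

theorem req_compl (r : V → V → ℕ) (hs : ∀ x y, r x y = r y x) (X : Finset V) :
    req r Xᶜ = req r X := by
  apply le_antisymm
  · apply req_le
    intro x hx y hy
    rw [hs]
    exact le_req r (by simpa using hy) (by simpa using hx)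
  · apply req_le
    intro x hx y hy
    rw [hs]
    exact le_req r (by simpa using hy) (by simpa using hx)

theorem req_union (r : V → V → ℕ) (A B : Finset V) :
    req r (A ∪ B) ≤ max (req r A) (req r B) := by
  apply req_le
  intro x hx y hy
  simp only [mem_union, not_or] at hx hy
  rcases hx with hx | hx
  · exact le_max_of_le_left (le_req r hx hy.1)
  · exact le_max_of_le_right (le_req r hx hy.2)

end

end REQ

theorem stmt_REQ : Stmt_REQ := by
  intro V _ _ r R0 hs hr
  refine ⟨?_, REQ.req_empty r, REQ.req_compl r hs, REQ.req_union r⟩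
  intro X
  apply REQ.req_le
  intro x hx y hy
  exact hr x y (by rintro rfl; exact hy hx)

/-- the lower bound -/
theorem stmt_LB : Stmt_LB := by
  classical
  intro V E _ _ _ H r n g hg
  unfold alpha
  apply Finset.sup_le
  intro F hF
  simp only [mem_filter, mem_univ, true_and] at hF
  calc ∑ X ∈ F, (req r X - cut H X) ≤ ∑ X ∈ F, gcut g X := by
        apply Finset.sum_le_sum
        intro X _
        have := hg X
        omega
    _ = ∑ X ∈ F, ∑ i : Fin n, (if ¬((g i).1 ∈ X ↔ (g i).2 ∈ X) then 1 else 0) := by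
        apply Finset.sum_congr rfl
        intro X _
        unfold gcut
        rw [Finset.card_filter]
    _ = ∑ i : Fin n, ∑ X ∈ F, (if ¬((g i).1 ∈ X ↔ (g i).2 ∈ X) then 1 else 0) := Finset.sum_comm
    _ ≤ ∑ i : Fin n, ∑ X ∈ F, ((if (g i).1 ∈ X then 1 else 0) + (if (g i).2 ∈ X then 1 else 0)) := by
        apply Finset.sum_le_sum
        intro i _
        apply Finset.sum_le_sum
        intro X _
        by_cases h1 : (g i).1 ∈ X <;> by_cases h2 : (g i).2 ∈ X <;> simp [h1, h2]
    _ ≤ ∑ i : Fin n, 2 := by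
        apply Finset.sum_le_sum
        intro i _
        rw [Finset.sum_add_distrib, ← Finset.card_filter, ← Finset.card_filter]
        have key : ∀ v : V, (F.filter fun X => v ∈ X).card ≤ 1 := by
          intro v
          rw [Finset.card_le_one]
          intro A hA B hB
          simp only [mem_filter] at hA hB
          by_contra hne
          exact (Finset.disjoint_left.1 (hF A hA.1 B hB.1 hne)) hA.2 hB.2
        have h1 := key (g i).1
        have h2 := key (g i).2
        omega
    _ = 2 * n := by simp [mul_comm]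

namespace REQ

section
variable {V E : Type} [Fintype V] [DecidableEq V] [Fintype E]

/-- If no hyperedge crosses `X`, then cuts split along `X`. -/
theorem cut_split (H : E → Finset V) (X Y : Finset V) (hX : cut H X = 0) :
    cut H Y = cut H (Y ∩ X) + cut H (Y \ X) := by
  classical
  unfold cut at *
  rw [Finset.card_eq_zero, Finset.filter_eq_empty_iff] at hX
  rw [← Finset.card_union_of_disjoint]
  · congr 1
    ext e
    have he := hX (mem_univ e)
    push Not at he
    simp only [mem_filter, mem_univ, true_and, mem_union, mem_inter, mem_sdiff]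
    constructor
    · rintro ⟨⟨v, hv, hvY⟩, w, hw, hwY⟩
      by_cases hvX : v ∈ X
      · left
        exact ⟨⟨v, hv, hvY, hvX⟩, w, hw, fun h => hwY h.1⟩
      · right
        exact ⟨⟨v, hv, hvY, hvX⟩, w, hw, fun h => hwY h.1⟩
    · rintro (⟨⟨v, hv, hvY, hvX⟩, w, hw, hwn⟩ | ⟨⟨v, hv, hvY, hvX⟩, w, hw, hwn⟩)
      · exact ⟨⟨v, hv, hvY⟩, w, hw, fun h => hwn ⟨h, he ⟨v, hv, hvX⟩ w hw⟩⟩
      · refine ⟨⟨v, hv, hvY⟩, w, hw, fun h => hwn ⟨h, fun hwX => ?_⟩⟩
        exact hvX (he ⟨w, hw, hwX⟩ v hv)
  · rw [Finset.disjoint_left]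
    intro e h1 h2
    have he := hX (mem_univ e)
    push Not at he
    simp only [mem_filter, mem_univ, true_and, mem_inter, mem_sdiff] at h1 h2
    obtain ⟨⟨v, hv, _, hvX⟩, _⟩ := h1
    obtain ⟨⟨w, hw, _, hwX⟩, _⟩ := h2
    exact hwX (he ⟨v, hv, hvX⟩ w hw)

end

end REQ

theorem stmt_TWO : Stmt_TWO := by
  classical
  intro V E _ _ _ H r m hs hmar hfeas htight X hX hone
  -- the vertex of demand one
  obtain ⟨v, hvX, hv⟩ : ∃ v ∈ X, 0 < m v := by
    by_contra hcon
    push Not at hcon
    have : ∑ v ∈ X, m v = 0 := Finset.sum_eq_zero fun v hv => by have := hcon v hv; omega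
    omega
  obtain ⟨Y, hvY, hY⟩ := htight v hv
  have hsplit := REQ.cut_split H X Y hX
  have hmsplit : ∑ w ∈ Y, m w = ∑ w ∈ Y ∩ X, m w + ∑ w ∈ Y \ X, m w :=
    (Finset.sum_inter_add_sum_sdiff Y X m).symm
  have hu := REQ.req_union r (Y ∩ X) (Y \ X)
  rw [show (Y ∩ X) ∪ (Y \ X) = Y by
    ext w; simp only [mem_union, mem_inter, mem_sdiff]; tauto] at hu
  have fA := hfeas (Y ∩ X)
  have fB := hfeas (Y \ X)
  have hA1 : 1 ≤ ∑ w ∈ Y ∩ X, m w :=
    le_trans hv (Finset.single_le_sum (f := m) (fun _ _ => Nat.zero_le _) (mem_inter.2 ⟨hvY, hvX⟩))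
  have hRX : req r X = 0 := by
    have h1 := hfeas X
    have h2 := hmar X hX
    omega
  have hA : req r (Y ∩ X) = cut H (Y ∩ X) + ∑ w ∈ Y ∩ X, m w := by
    rcases le_total (req r (Y ∩ X)) (req r (Y \ X)) with h | h
    · rw [max_eq_right h] at hu
      omega
    · rw [max_eq_left h] at hu
      omega
  -- the complement in X
  have hc1 : req r (Y ∩ X) ≤ req r (X \ Y) := by
    apply REQ.req_le
    intro x hx y hy
    by_cases hyX : y ∈ X
    · rw [hs]
      refine REQ.le_req r ?_ ?_
      · simp only [mem_inter, not_and] at hy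
        exact mem_sdiff.2 ⟨hyX, fun h => hy h hyX⟩
      · simp only [mem_sdiff, not_and, not_not]
        intro _
        exact (mem_inter.1 hx).1
    · have := REQ.le_req r (mem_inter.1 hx).2 hyX
      omega
  have hXsplit : ∑ w ∈ X, m w = ∑ w ∈ X ∩ Y, m w + ∑ w ∈ X \ Y, m w :=
    (Finset.sum_inter_add_sum_sdiff X Y m).symm
  rw [Finset.inter_comm X Y] at hXsplit
  have hcutc : cut H (X \ Y) ≤ cut H (Y ∩ X) := by
    unfold cut at *
    rw [Finset.card_eq_zero, Finset.filter_eq_empty_iff] at hX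
    apply Finset.card_le_card
    intro e he'
    have he := hX (mem_univ e)
    push Not at he
    simp only [mem_filter, mem_univ, true_and, mem_inter, mem_sdiff] at he' ⊢
    obtain ⟨⟨a, ha, haX, haY⟩, b, hb, hbn⟩ := he'
    have hbX : b ∈ X := he ⟨a, ha, haX⟩ b hb
    have hbY : b ∈ Y := by
      by_contra h
      exact hbn ⟨hbX, h⟩
    exact ⟨⟨b, hb, hbY, hbX⟩, a, ha, fun h => haY h.1⟩
  have fC := hfeas (X \ Y)
  omega

end Pool.Agent.Work.MP_2183d4_lc_66
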